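import Mathlib
import Pool.Agent.Hhelper73.Fire
import Pool.Agent.CDom.StmtDefs

/-!
# Definitions for the statement of the full answer of `MP_4a4383_lc`

`burning`, `IsStrategy`, `saved` are those of `Pool/Agent/Hhelper73/Fire.lean`; `encM` (rows of bits
to one word), `matG` (rows of the adjacency matrix) and `Outputs` (a Turing machine of Mathlib halts
with a given output after at most `t` steps) are those of `Pool/Agent/CDom/StmtDefs.lean`.
-/

set_option autoImplicit false

namespace Pool.Agent.FFT

open Pool.Agent.Hhelper73.Fire Pool.Agent.CDom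

/-- unary code of a number -/
def un (m : ℕ) : List Bool := List.replicate m true

/-- the input word for a graph with a fire at `s` and a number `k` -/
noncomputable def word3 {n : ℕ} (G : SimpleGraph (Fin n)) (s : Fin n) (k : ℕ) : List Bool :=
  encM (matG G ++ [un s, un k])

/-- the input word for a graph with a fire at `s` and two numbers `k`, `K` -/
noncomputable def word4 {n : ℕ} (G : SimpleGraph (Fin n)) (s : Fin n) (k K : ℕ) : List Bool :=
  encM (matG G ++ [un s, un k, un K])

/-- some strategy saves at least `k` vertices -/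
def Saving {n : ℕ} (G : SimpleGraph (Fin n)) (s : Fin n) (k : ℕ) : Prop :=
  ∃ L : List (Fin n), IsStrategy G s L ∧ k ≤ (saved G s L).ncard

/-- some strategy saves all but at most `k` vertices -/
def SavingAllBut {n : ℕ} (G : SimpleGraph (Fin n)) (s : Fin n) (k : ℕ) : Prop :=
  ∃ L : List (Fin n), IsStrategy G s L ∧ n ≤ (saved G s L).ncard + k

/-- some strategy protecting at most `k` vertices saves at least `K` vertices -/
def MaxProt {n : ℕ} (G : SimpleGraph (Fin n)) (s : Fin n) (k K : ℕ) : Prop :=
  ∃ L : List (Fin n), IsStrategy G s L ∧ L.length ≤ k ∧ K ≤ (saved G s L).ncard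

/-- formulas in 3-CNF: lists of clauses, a clause is a triple of literals, the literal `(v, b)` is
true under `a` when `a v = b` -/
abbrev Cnf3 := List ((ℕ × Bool) × (ℕ × Bool) × (ℕ × Bool))

/-- satisfiable -/
def Sat (φ : Cnf3) : Prop :=
  ∃ a : ℕ → Bool, ∀ C ∈ φ, a C.1.1 = C.1.2 ∨ a C.2.1.1 = C.2.1.2 ∨ a C.2.2.1 = C.2.2.2

/-- all variables are smaller than `N` -/
def VarsLt (N : ℕ) (φ : Cnf3) : Prop := ∀ C ∈ φ, C.1.1 < N ∧ C.2.1.1 < N ∧ C.2.2.1 < N

/-- row of bits for a literal: the sign, then the variable in unary -/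
def litRow (l : ℕ × Bool) : List Bool := l.2 :: un l.1

/-- rows of bits for a formula with `N` variables -/
def rowsCnf (N : ℕ) (φ : Cnf3) : List (List Bool) :=
  un N :: φ.flatMap fun C => [litRow C.1, litRow C.2.1, litRow C.2.2]

/-- the input word for a formula with `N` variables -/
def wordCnf (N : ℕ) (φ : Cnf3) : List Bool := encM (rowsCnf N φ)

open Classical in
/-- the negation of the Exponential Time Hypothesis: for every `d`, the satisfiability of formulas
in 3-CNF with `N` variables and `m` clauses is decided by a Turing machine within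
`c * 2 ^ (N / (d + 1)) * (N + m + 1) ^ c` steps, for some `c` -/
def ETHFails : Prop :=
  ∀ d : ℕ, ∃ (T : Turing.FinTM2) (i : T.Γ T.k₀ ≃ Bool) (o : T.Γ T.k₁ ≃ Bool) (c : ℕ),
    ∀ (N : ℕ) (φ : Cnf3), VarsLt N φ →
      Outputs T i o (wordCnf N φ) [decide (Sat φ)]
        (c * 2 ^ (N / (d + 1)) * (N + φ.length + 1) ^ c)

/-- `f k = o(k)` -/
def LittleO (f : ℕ → ℕ) : Prop := ∀ q : ℕ, ∃ k0 : ℕ, ∀ k : ℕ, k0 ≤ k → q * f k ≤ k

end Pool.Agent.FFT
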