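import Mathlib
import Pool.Agent.FFT.StmtDefs

/-!
# Front systems (MP_4a4383_lc)

The tree of the reduction is the unfolding of a transition system on `State`.

* A *front* `f : Fr` carries a list of bits `σ` and runs the program (a list of `Ins`tructions).
* `choice g`: the front `g` appends a bit (two children).  `check f1 c1 f2 c2`: the conditions
  `ev c1 f1 (σ f1)` and `ev c2 f2 (σ f2)` must not both hold.
* every instruction takes two levels (the Boolean in the state is `false` in the first half).
* `heavy` has `R` leaves, `fuse` has one heavy child.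
-/

set_option autoImplicit false

namespace Pool.Agent.FFT

/-- names of the fronts -/
abbrev Fr := ℕ × ℕ × ℕ

/-- conditions -/
abbrev Cond := Bool × ℕ × Bool

/-- instructions: `(true, (g, _), _)` is a choice, `(false, (f1, c1), (f2, c2))` a check -/
abbrev Ins := Bool × (Fr × Cond) × (Fr × Cond)

/-- states: tag, (remaining program, second half?), (front, bits) -/
abbrev State := ℕ × (List Ins × Bool) × (Fr × List Bool)

/-- a dummy condition -/
def c0 : Cond := (false, 0, false)

/-- a dummy front -/
def f0 : Fr := (0, 0, 0)

/-- the front `g` chooses a bit -/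
def choice (g : Fr) : Ins := (true, (g, c0), (g, c0))

/-- the two conditions must not both hold -/
def check (f1 : Fr) (c1 : Cond) (f2 : Fr) (c2 : Cond) : Ins := (false, (f1, c1), (f2, c2))

/-- equality of fronts -/
def eqF (f g : Fr) : Bool :=
  decide (f.1 = g.1) && (decide (f.2.1 = g.2.1) && decide (f.2.2 = g.2.2))

theorem eqF_iff (f g : Fr) : eqF f g = true ↔ f = g := by
  obtain ⟨a, b, c⟩ := f
  obtain ⟨a', b', c'⟩ := g
  simp [eqF, Prod.mk.injEq]

@[simp] theorem eqF_self (f : Fr) : eqF f f = true := (eqF_iff f f).2 rfl

theorem eqF_false {f g : Fr} (h : f ≠ g) : eqF f g = false := by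
  rcases hb : eqF f g with _ | _
  · rfl
  · exact absurd ((eqF_iff f g).1 hb) h

/-- a leaf -/
def leaf : State := (0, ([], false), (f0, []))

/-- a heavy vertex -/
def heavy : State := (1, ([], false), (f0, []))

/-- a vertex with one heavy child -/
def fuse : State := (2, ([], false), (f0, []))

/-- a vertex of the front `f` -/
def front (r : List Ins) (h : Bool) (f : Fr) (σ : List Bool) : State := (3, (r, h), (f, σ))

/-- the root -/
def root (r : List Ins) : State := (4, (r, false), (f0, []))

/-- heavy when the condition holds -/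
def alarm (b : Bool) : State := bif b then heavy else fuse

@[simp] theorem alarm_true : alarm true = heavy := rfl
@[simp] theorem alarm_false : alarm false = fuse := rfl

/-- children of a front in the first half of the instruction `i` -/
def kids1 (ev : Cond → Fr → List Bool → Bool) (i : Ins) (r : List Ins) (f : Fr)
    (σ : List Bool) : List State :=
  bif i.1 then
    (bif eqF f i.2.1.1 then [front (i :: r) true f (false :: σ), front (i :: r) true f (true :: σ)]
      else [front (i :: r) true f σ])
  else front (i :: r) true f σ ::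
    ((bif eqF f i.2.1.1 then [alarm (ev i.2.1.2 f σ)] else []) ++
      (bif eqF f i.2.2.1 then [alarm (ev i.2.2.2 f σ)] else []))

/-- children of a front in the second half of the instruction `i` -/
def kids2 (i : Ins) (r : List Ins) (f : Fr) (σ : List Bool) : List State :=
  front r false f σ :: (bif i.1 && eqF f i.2.1.1 then [heavy] else [])

/-- children of a front -/
def kidsF (ev : Cond → Fr → List Bool → Bool) (r : List Ins) (h : Bool) (f : Fr)
    (σ : List Bool) : List State :=
  bif r.isEmpty then []
  else bif h then kids2 (r.headD (choice f0)) r.tail f σ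
  else kids1 ev (r.headD (choice f0)) r.tail f σ

/-- the transition system -/
def kids (Fs : List Fr) (R : ℕ) (ev : Cond → Fr → List Bool → Bool) (x : State) : List State :=
  bif decide (x.1 = 1) then List.replicate R leaf
  else bif decide (x.1 = 2) then [heavy]
  else bif decide (x.1 = 3) then kidsF ev x.2.1.1 x.2.1.2 x.2.2.1 x.2.2.2
  else bif decide (x.1 = 4) then heavy :: Fs.map (fun f => front x.2.1.1 false f [])
  else []

section kids

variable (Fs : List Fr) (R : ℕ) (ev : Cond → Fr → List Bool → Bool)

@[simp] theorem kids_leaf : kids Fs R ev leaf = [] := rfl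
@[simp] theorem kids_heavy : kids Fs R ev heavy = List.replicate R leaf := rfl
@[simp] theorem kids_fuse : kids Fs R ev fuse = [heavy] := rfl
@[simp] theorem kids_root (r : List Ins) :
    kids Fs R ev (root r) = heavy :: Fs.map (fun f => front r false f []) := rfl
@[simp] theorem kids_front_nil (h : Bool) (f : Fr) (σ : List Bool) :
    kids Fs R ev (front [] h f σ) = [] := rfl
@[simp] theorem kids_front_first (i : Ins) (r : List Ins) (f : Fr) (σ : List Bool) :
    kids Fs R ev (front (i :: r) false f σ) = kids1 ev i r f σ := rfl
@[simp] theorem kids_front_second (i : Ins) (r : List Ins) (f : Fr) (σ : List Bool) :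
    kids Fs R ev (front (i :: r) true f σ) = kids2 i r f σ := rfl

@[simp] theorem kids1_choice_self (r : List Ins) (f : Fr) (σ : List Bool) :
    kids1 ev (choice f) r f σ =
      [front (choice f :: r) true f (false :: σ), front (choice f :: r) true f (true :: σ)] := by
  simp [kids1, choice]

theorem kids1_choice_ne {g f : Fr} (h : f ≠ g) (r : List Ins) (σ : List Bool) :
    kids1 ev (choice g) r f σ = [front (choice g :: r) true f σ] := by
  simp [kids1, choice, eqF_false h]

theorem kids1_check (f1 : Fr) (d1 : Cond) (f2 : Fr) (d2 : Cond) (r : List Ins) (f : Fr)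
    (σ : List Bool) : kids1 ev (check f1 d1 f2 d2) r f σ =
      front (check f1 d1 f2 d2 :: r) true f σ ::
        ((bif eqF f f1 then [alarm (ev d1 f σ)] else []) ++
          (bif eqF f f2 then [alarm (ev d2 f σ)] else [])) := rfl

@[simp] theorem kids2_choice_self (r : List Ins) (f : Fr) (σ : List Bool) :
    kids2 (choice f) r f σ = [front r false f σ, heavy] := by
  simp [kids2, choice]

theorem kids2_choice_ne {g f : Fr} (h : f ≠ g) (r : List Ins) (σ : List Bool) :
    kids2 (choice g) r f σ = [front r false f σ] := by
  simp [kids2, choice, eqF_false h]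

@[simp] theorem kids2_check (f1 : Fr) (d1 : Cond) (f2 : Fr) (d2 : Cond) (r : List Ins) (f : Fr)
    (σ : List Bool) : kids2 (check f1 d1 f2 d2) r f σ = [front r false f σ] := rfl

end kids

/-- every instruction is a choice or a check -/
def IsIns (i : Ins) : Prop :=
  (∃ g, i = choice g) ∨ ∃ f1 d1 f2 d2, i = check f1 d1 f2 d2

/-- a well-formed program over the fronts `Fs` -/
def WF (Fs : List Fr) (p : List Ins) : Prop := ∀ i ∈ p, IsIns i ∧ i.2.1.1 ∈ Fs ∧ i.2.2.1 ∈ Fs

/-- the semantics of programs: some choice of bits passes all checks -/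
def Run (ev : Cond → Fr → List Bool → Bool) : List Ins → (Fr → List Bool) → Prop
  | [], _ => True
  | i :: r, σ => (i.1 = true ∧ ∃ b : Bool, Run ev r (Function.update σ i.2.1.1 (b :: σ i.2.1.1))) ∨
      (i.1 = false ∧ ¬ (ev i.2.1.2 i.2.1.1 (σ i.2.1.1) = true ∧
        ev i.2.2.2 i.2.2.1 (σ i.2.2.1) = true) ∧ Run ev r σ)

@[simp] theorem run_nil (ev : Cond → Fr → List Bool → Bool) (σ : Fr → List Bool) :
    Run ev [] σ := trivial

@[simp] theorem run_choice (ev : Cond → Fr → List Bool → Bool) (g : Fr) (r : List Ins)
    (σ : Fr → List Bool) :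
    Run ev (choice g :: r) σ ↔ ∃ b : Bool, Run ev r (Function.update σ g (b :: σ g)) := by
  simp [Run, choice]

@[simp] theorem run_check (ev : Cond → Fr → List Bool → Bool) (f1 : Fr) (d1 : Cond) (f2 : Fr)
    (d2 : Cond) (r : List Ins) (σ : Fr → List Bool) :
    Run ev (check f1 d1 f2 d2 :: r) σ ↔
      ¬ (ev d1 f1 (σ f1) = true ∧ ev d2 f2 (σ f2) = true) ∧ Run ev r σ := by
  simp [Run, check]

/-! ### The unfolding of a transition system -/

open Pool.Agent.Hhelper73.Fire in
/-- the tree `G`, rooted at `s`, is the unfolding from `x0` of the system `kids`: the vertex `v` has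
the state `st v` and is the `ix v`-th child of `par v` -/
structure Unf {V X : Type} (kids : X → List X) (x0 : X) (G : SimpleGraph V) (s : V)
    (par : V → V) (dep : V → ℕ) (st : V → X) (ix : V → ℕ) : Prop where
  rooted : Rooted G s par dep
  st_root : st s = x0
  up : ∀ w, w ≠ s → (kids (st (par w)))[ix w]? = some (st w)
  down : ∀ v (i : ℕ), i < (kids (st v)).length → ∃ w, w ≠ s ∧ par w = v ∧ ix w = i
  inj : ∀ w w', w ≠ s → w' ≠ s → par w = par w' → ix w = ix w' → w = w'

/-- the nodes below a node -/
def kidsN {X : Type} (kids : X → List X) (x0 : X) (a : List ℕ × X) : List (List ℕ × X) :=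
  (List.range (kids a.2).length).map fun i => (i :: a.1, (kids a.2).getD i x0)

/-- the nodes at level `l` of the unfolding -/
def lev {X : Type} (kids : X → List X) (x0 : X) : ℕ → List (List ℕ × X)
  | 0 => [([], x0)]
  | l + 1 => (lev kids x0 l).flatMap (kidsN kids x0)

/-- the nodes at the levels `0, ..., D` -/
def nodes {X : Type} (kids : X → List X) (x0 : X) (D : ℕ) : List (List ℕ × X) :=
  (List.range (D + 1)).flatMap (lev kids x0)

/-- equality of lists of numbers -/
def eqL (x y : List ℕ) : Bool :=
  decide (x.length = y.length) && (x.zip y).all fun p => decide (p.1 = p.2)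

/-- one of the two paths is the other one without its first entry -/
def adjb (a b : List ℕ) : Bool :=
  (decide (a.length = b.length + 1) && eqL a.tail b) ||
    (decide (b.length = a.length + 1) && eqL b.tail a)

/-- the graph on the positions of a list of nodes -/
def graphN {X : Type} (L : List (List ℕ × X)) : SimpleGraph (Fin L.length) where
  Adj u v := adjb (L.get u).1 (L.get v).1 = true
  symm := ⟨fun u v h => by
    rw [adjb, Bool.or_comm] at h ⊢
    simpa [Bool.or_comm] using h⟩
  loopless := ⟨fun u h => by
    simp [adjb] at h⟩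

/-- rows of the adjacency matrix of `graphN L` -/
def rowsN {X : Type} (L : List (List ℕ × X)) : List (List Bool) :=
  L.map fun a => L.map fun b => adjb a.1 b.1

/-! ### Bounds -/

/-- bound for the number of levels below a state -/
def hgt (x : State) : ℕ :=
  if x.1 = 1 then 1 else if x.1 = 2 then 2
  else if x.1 = 3 then (if x.2.1.1 = [] then 0 else 2 * x.2.1.1.length + bif x.2.1.2 then 0 else 1)
  else if x.1 = 4 then 2 * x.2.1.1.length + 2 else 0

/-- number of choices of the front `f` in the program `r` -/
def cnt (f : Fr) (r : List Ins) : ℕ := (r.filter fun i => i.1 && eqF f i.2.1.1).length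

/-- bound for the number of vertices below a front -/
def pot3 (R : ℕ) (r : List Ins) (h : Bool) (f : Fr) : ℕ :=
  bif h then R + 2 + 2 ^ cnt f r.tail * (1 + (3 * R + 7) * r.tail.length)
  else 2 ^ cnt f r * (1 + (3 * R + 7) * r.length)

/-- bound for the number of vertices below a state -/
def pot (Fs : List Fr) (R : ℕ) (x : State) : ℕ :=
  if x.1 = 1 then R + 1 else if x.1 = 2 then R + 2
  else if x.1 = 3 then pot3 R x.2.1.1 x.2.1.2 x.2.2.1
  else if x.1 = 4 then R + 2 + (Fs.map fun f => pot3 R x.2.1.1 false f).sum else 1

/-! ### The program for 3-SAT -/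

/-- the fronts: triples of groups -/
def Fs (b : ℕ) : List Fr :=
  (List.range b).flatMap fun x => (List.range b).flatMap fun y =>
    (List.range b).map fun z => (x, y, z)

/-- the group in the slot `t` of the front `f` -/
def slot (t : ℕ) (f : Fr) : ℕ :=
  bif decide (t = 0) then f.1 else bif decide (t = 1) then f.2.1 else f.2.2

/-- a literal is falsified by the bits of a front -/
def fals (q : ℕ) (f : Fr) (σ : List Bool) (l : ℕ × Bool) : Bool :=
  (List.range 3).any fun t => decide (slot t f * q ≤ l.1) && (decide (l.1 < slot t f * q + q) &&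
    (σ.getD (t * q + (l.1 - slot t f * q)) false == !l.2))

/-- some clause is falsified by the bits of a front -/
def viol (q : ℕ) (φ : Cnf3) (f : Fr) (σ : List Bool) : Bool :=
  φ.any fun C => fals q f σ C.1 && (fals q f σ C.2.1 && fals q f σ C.2.2)

/-- evaluation of conditions: `(false, pos, v)`: the bit `pos` is `v`; `(true, _, _)`: a clause is
falsified -/
def ev (q : ℕ) (φ : Cnf3) (c : Cond) (f : Fr) (σ : List Bool) : Bool :=
  bif c.1 then viol q φ f σ else (σ.getD c.2.1 false == c.2.2)

/-- choices of `3 q` bits for every front -/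
def progC (b q : ℕ) : List Ins := (Fs b).flatMap fun f => List.replicate (3 * q) (choice f)

/-- the check that the bit `i` of the slot `t` of `f` agrees with the reference front, if its value
is `v` -/
def eqIns (q : ℕ) (f : Fr) (t i : ℕ) (v : Bool) : Ins :=
  check f (false, t * q + i, v) (slot t f, slot t f, slot t f) (false, i, !v)

/-- checks that the slots agree with the reference fronts -/
def progE (b q : ℕ) : List Ins :=
  (Fs b).flatMap fun f => (List.range 3).flatMap fun t => (List.range q).flatMap fun i =>
    [eqIns q f t i true, eqIns q f t i false]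

/-- checks that no clause is falsified -/
def progV (b : ℕ) : List Ins := (Fs b).map fun f => check f (true, 0, false) f (true, 0, false)

/-- the program -/
def prog (b q : ℕ) : List Ins := progC b q ++ (progE b q ++ progV b)

/-! ### The reduction -/

/-- `N / b + 1` for `b ≥ 1` -/
def qOf (b N : ℕ) : ℕ := ((List.range (N + 1)).filter fun i => decide (i * b ≤ N)).length

/-- number of protections -/
def tOf (b q : ℕ) : ℕ := 1 + 2 * (prog b q).length

/-- number of burned vertices -/
def kOf (b q : ℕ) : ℕ := 1 + (Fs b).length + (2 * (Fs b).length + 1) * (prog b q).length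

/-- bound for the number of vertices; `p = 2 ^ (3 * q)` -/
def padOf (b q p : ℕ) : ℕ :=
  (kOf b q + 1) + 2 + (Fs b).length * (p * (1 + (3 * (kOf b q + 1) + 7) * (prog b q).length))

/-- levels, cut off at `cap` nodes -/
def levC {X : Type} (kids : X → List X) (x0 : X) (cap l : ℕ) : List (List ℕ × X) :=
  (fun L => (L.flatMap (kidsN kids x0)).take cap)^[l] [([], x0)]

/-- nodes, with the levels cut off at `cap` nodes -/
def nodesC {X : Type} (kids : X → List X) (x0 : X) (cap D : ℕ) : List (List ℕ × X) :=
  (List.range (D + 1)).flatMap (levC kids x0 cap)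

/-- the transition system of a formula -/
def kidsOf (b q : ℕ) (φ : Cnf3) : State → List State := kids (Fs b) (kOf b q + 1) (ev q φ)

/-- the nodes of the tree of a formula -/
def treeOf (b q : ℕ) (φ : Cnf3) (cap : ℕ) : List (List ℕ × State) :=
  nodesC (kidsOf b q φ) (root (prog b q)) cap (2 * (prog b q).length + 2)

/-- the same, from the input of the reduction: `(b, (N, φ), p)` with `p = 2 ^ (3 * qOf b N)` -/
def treeIn (x : ℕ × (ℕ × Cnf3) × ℕ) : List (List ℕ × State) :=
  treeOf x.1 (qOf x.1 x.2.1.1) x.2.1.2 (padOf x.1 (qOf x.1 x.2.1.1) x.2.2)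

/-- the reduction to saving all but `k` vertices: word, number of vertices, parameter -/
def build2 (x : ℕ × (ℕ × Cnf3) × ℕ) : List Bool × ℕ × ℕ :=
  (Pool.Agent.CDom.encM (rowsN (treeIn x) ++ [un 0, un (kOf x.1 (qOf x.1 x.2.1.1))]),
    (treeIn x).length, kOf x.1 (qOf x.1 x.2.1.1))

/-- the reduction to maximum `k`-vertex protection -/
def build3 (x : ℕ × (ℕ × Cnf3) × ℕ) : List Bool × ℕ × ℕ :=
  (Pool.Agent.CDom.encM (rowsN (treeIn x) ++ [un 0, un (tOf x.1 (qOf x.1 x.2.1.1)),
    un ((treeIn x).length - kOf x.1 (qOf x.1 x.2.1.1))]),
    (treeIn x).length, tOf x.1 (qOf x.1 x.2.1.1))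

/-! ### Reading formulas -/

/-- a literal from its row -/
def rowLit (r : List Bool) : ℕ × Bool := (r.tail.length, r.headD false)

/-- one step of the parser; state: (literals of the current clause, clauses), both reversed -/
def stepCnf (s : List (ℕ × Bool) × Cnf3) (r : List Bool) : List (ℕ × Bool) × Cnf3 :=
  bif decide (2 ≤ s.1.length) then
    ([], (s.1.getD 1 (0, false), s.1.getD 0 (0, false), rowLit r) :: s.2)
  else (rowLit r :: s.1, s.2)

/-- number of variables and formula from the rows -/
def decCnf (R : List (List Bool)) : ℕ × Cnf3 :=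
  ((R.headD []).length, ((R.tail).foldl stepCnf ([], [])).2.reverse)

end Pool.Agent.FFT
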