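import Mathlib
import Pool.Agent.FFT.Sys

set_option autoImplicit false

/-!
# MODULE FFT/Abs  (MP_4a4383_lc)

Burned vertices in the unfolding of a front system; heavy vertices must not burn.

`Bd par dep P w`: no ancestor of `w` (including `w`) is in `P`, i.e. `w` burns when `P` is protected.

Proofs.
* `bd_child`: `Rooted.anc_iff`.  `bd_root`: `Rooted.anc_root_iff`, `P` contains no vertex of depth `0`.
* `bd_iff_sav`: `mem_sav`.
* `Unf.child`: `down` gives `w` with `par w = v`, `ix w = i`; `up` gives its state; the depth is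
  `Rooted.dep_par`.
* `Unf.child_ne`: two children with different indices are different (`ix`).
* `card_of_heavy`: the `R` children of a vertex in state `heavy` (`kids_heavy`, `Unf.child` for
  `i < R`) are distinct, so `V` has at least `R` elements (more precisely: the map
  `Fin R → V` choosing the child is injective).
* `no_heavy`: suppose `v` burns and `st v = heavy`.  The `R` children of `v` have the same depth, so
  at most one of them is in `P` (`Adm`: `dep` is injective on `P`), the other ones burn
  (`bd_child`).  Together with `v` itself (a different depth) at least `R` vertices burn, i.e. are in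
  `univ \ sav par dep P`; contradiction to `hc`.
* `one_of_two`: two different vertices `w1`, `w2` of the same depth with burning parents: if both
  are not in `P` both burn; `P` contains at most one of them.  So one of them burns.
-/

namespace Pool.Agent.FFT

open Pool.Agent.Hhelper73.Fire

section Bd

variable {V : Type} (par : V → V) (dep : V → ℕ)

/-- `w` burns when the set `P` is protected -/
def Bd (P : Finset V) (w : V) : Prop := ∀ v ∈ P, ¬ Anc par dep v w

end Bd

section

variable {V : Type} {G : SimpleGraph V} {s : V} {par : V → V} {dep : V → ℕ}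

theorem bd_child (R : Rooted G s par dep) (P : Finset V) {w : V} (hw : w ≠ s) :
    Bd par dep P w ↔ w ∉ P ∧ Bd par dep P (par w) := by
  constructor
  · intro h
    refine ⟨fun hwP => h w hwP (anc_refl w), fun v hv hvw => h v hv ?_⟩
    exact (R.anc_iff hw).mpr (Or.inr hvw)
  · rintro ⟨h1, h2⟩ v hv hvw
    rcases (R.anc_iff hw).mp hvw with h | h
    · subst h
      exact h1 hv
    · exact h2 v hv h

theorem bd_root (R : Rooted G s par dep) (P : Finset V) (hP : Adm dep P) : Bd par dep P s := by
  intro v hv hvs
  have h1 := hP.2 v hv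
  rw [R.anc_root_iff.mp hvs, R.dep_root] at h1
  omega

theorem bd_iff_sav [Fintype V] [DecidableEq V] (P : Finset V) (w : V) :
    Bd par dep P w ↔ w ∈ Finset.univ \ sav par dep P := by
  rw [Finset.mem_sdiff, mem_sav, Bd]
  simp

theorem one_of_two (R : Rooted G s par dep) (P : Finset V) (hP : Adm dep P) {w1 w2 : V}
    (h1 : w1 ≠ s) (h2 : w2 ≠ s) (hne : w1 ≠ w2) (hd : dep w1 = dep w2)
    (hb1 : Bd par dep P (par w1)) (hb2 : Bd par dep P (par w2)) :
    Bd par dep P w1 ∨ Bd par dep P w2 := by
  by_contra h
  rw [not_or, bd_child R P h1, bd_child R P h2] at h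
  have m1 : w1 ∈ P := by
    by_contra hm
    exact h.1 ⟨hm, hb1⟩
  have m2 : w2 ∈ P := by
    by_contra hm
    exact h.2 ⟨hm, hb2⟩
  exact hne (hP.1 m1 m2 hd)

variable {X : Type} {kd : X → List X} {x0 : X} {st : V → X} {ix : V → ℕ}

theorem Unf.child (U : Unf kd x0 G s par dep st ix) (v : V) (i : ℕ) (y : X)
    (h : (kd (st v))[i]? = some y) :
    ∃ w, w ≠ s ∧ par w = v ∧ ix w = i ∧ st w = y ∧ dep w = dep v + 1 := by
  obtain ⟨hi, _⟩ := List.getElem?_eq_some_iff.mp h
  obtain ⟨w, hw, hp, hx⟩ := U.down v i hi
  refine ⟨w, hw, hp, hx, ?_, ?_⟩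
  · have h1 := U.up w hw
    rw [hp, hx, h] at h1
    exact (Option.some.inj h1).symm
  · have h2 := U.rooted.dep_par w hw
    rw [hp] at h2
    exact h2.symm

theorem heavy_kids {Fs : List Fr} {R : ℕ} {ev : Cond → Fr → List Bool → Bool}
    {y0 : State} {st : V → State} (U : Unf (kids Fs R ev) y0 G s par dep st ix) (v : V)
    (h : st v = heavy) : ∃ c : Fin R → V, Function.Injective c ∧
      ∀ i, c i ≠ s ∧ par (c i) = v ∧ dep (c i) = dep v + 1 := by
  have h1 : ∀ i : Fin R, ∃ w, w ≠ s ∧ par w = v ∧ ix w = i ∧ st w = leaf ∧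
      dep w = dep v + 1 := by
    intro i
    apply U.child
    rw [h, kids_heavy, List.getElem?_replicate, if_pos i.2]
  choose c hc using h1
  refine ⟨c, ?_, fun i => ⟨(hc i).1, (hc i).2.1, (hc i).2.2.2.2⟩⟩
  intro i j hij
  have h2 := (hc i).2.2.1
  rw [hij, (hc j).2.2.1] at h2
  exact Fin.ext h2.symm

theorem card_of_heavy [Fintype V] {Fs : List Fr} {R : ℕ} {ev : Cond → Fr → List Bool → Bool}
    {y0 : State} {st : V → State} (U : Unf (kids Fs R ev) y0 G s par dep st ix) (v : V)
    (h : st v = heavy) : R ≤ Fintype.card V := by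
  obtain ⟨c, hc, _⟩ := heavy_kids U v h
  have h1 := Fintype.card_le_of_injective c hc
  rwa [Fintype.card_fin] at h1

theorem no_heavy [Fintype V] [DecidableEq V] {Fs : List Fr} {R : ℕ}
    {ev : Cond → Fr → List Bool → Bool} {y0 : State} {st : V → State}
    (U : Unf (kids Fs R ev) y0 G s par dep st ix) (P : Finset V) (hP : Adm dep P)
    (hc : (Finset.univ \ sav par dep P).card < R) (v : V) (hv : Bd par dep P v) :
    st v ≠ heavy := by
  intro hst
  obtain ⟨c, hci, hcs⟩ := heavy_kids U v hst
  set C : Finset V := Finset.univ.image c with hC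
  have hCc : C.card = R := by
    rw [hC, Finset.card_image_of_injective _ hci, Finset.card_univ, Fintype.card_fin]
  have hCd : ∀ w ∈ C, w ≠ s ∧ par w = v ∧ dep w = dep v + 1 := by
    intro w hw
    obtain ⟨i, _, rfl⟩ := Finset.mem_image.mp hw
    exact hcs i
  have h1 : (C ∩ P).card ≤ 1 := by
    rw [Finset.card_le_one]
    intro a ha b hb
    rw [Finset.mem_inter] at ha hb
    exact hP.1 ha.2 hb.2 (by rw [(hCd a ha.1).2.2, (hCd b hb.1).2.2])
  have h2 : (C \ P).card + (C ∩ P).card = C.card := Finset.card_sdiff_add_card_inter C P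
  have h3 : insert v (C \ P) ⊆ Finset.univ \ sav par dep P := by
    intro w hw
    rw [← bd_iff_sav]
    rcases Finset.mem_insert.mp hw with h | h
    · rw [h]
      exact hv
    · rw [Finset.mem_sdiff] at h
      obtain ⟨ha, hb, _⟩ := hCd w h.1
      rw [bd_child U.rooted P ha, hb]
      exact ⟨h.2, hv⟩
  have h4 : v ∉ C \ P := by
    intro h
    have h5 := (hCd v (Finset.mem_sdiff.mp h).1).2.2
    omega
  have h6 := Finset.card_le_card h3
  rw [Finset.card_insert_of_notMem h4] at h6
  omega

end

end Pool.Agent.FFT
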