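import Mathlib
import Pool.Agent.FFT.StmtDefs

/-!
# The algorithm for saving `k` vertices of a tree (MP_4a4383_lc)

`D : List ℕ` is the list of the depths of the vertices in preorder; `X : List Bool` is a set of
levels (`X.getD d false = true`: the level `d` may still be used).  `gv D X` is the largest number
of vertices saved by an admissible set whose levels are in `X`.
-/

set_option autoImplicit false

namespace Pool.Agent.FFT

/-- remove the level `d` -/
def clr (d : ℕ) (X : List Bool) : List Bool := X.take d ++ false :: X.drop (d + 1)

/-- length of the longest initial segment of `D` with entries `> d` -/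
def twl (d : ℕ) (D : List ℕ) : ℕ := D.foldr (fun x m => bif decide (d < x) then m + 1 else 0) 0

theorem twl_cons (d x : ℕ) (D : List ℕ) :
    twl d (x :: D) = bif decide (d < x) then twl d D + 1 else 0 := rfl

theorem twl_le (d : ℕ) (D : List ℕ) : twl d D ≤ D.length := by
  induction D with
  | nil => exact le_rfl
  | cons x D ih =>
    rw [twl_cons, List.length_cons]
    cases decide (d < x)
    · exact Nat.zero_le _
    · exact Nat.succ_le_succ ih

theorem twl_eq (d : ℕ) (D : List ℕ) : twl d D = (D.takeWhile fun x => decide (d < x)).length := by
  induction D with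
  | nil => rfl
  | cons x D ih =>
    rw [twl_cons, List.takeWhile_cons]
    cases decide (d < x)
    · rfl
    · rw [if_pos rfl, List.length_cons, ← ih]; rfl

/-- the value -/
def gv : List ℕ → List Bool → ℕ
  | [], _ => 0
  | d :: D, X => max (gv D X)
      (bif X.getD d false then 1 + twl d D + gv (D.drop (twl d D)) (clr d X) else 0)
termination_by D => D.length
decreasing_by
  · simp
  · simp only [List.length_drop, List.length_cons]; omega

theorem gv_nil (X : List Bool) : gv [] X = 0 := by rw [gv]

theorem gv_cons (d : ℕ) (D : List ℕ) (X : List Bool) : gv (d :: D) X = max (gv D X)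
    (bif X.getD d false then 1 + twl d D + gv (D.drop (twl d D)) (clr d X) else 0) := by
  rw [gv]

/-- all lists of bits of length `m`, if `2 ^ m ≤ cap` -/
def subsC (cap m : ℕ) : List (List Bool) :=
  (fun L => (L.flatMap fun x => [false :: x, true :: x]).take cap)^[m] [[]]

/-- equality of lists of bits -/
def eqB (x y : List Bool) : Bool :=
  decide (x.length = y.length) && (x.zip y).all fun p => p.1 == p.2

/-- the entry of the row at `X` -/
def look (S : List (List Bool)) (row : List ℕ) (X : List Bool) : ℕ :=
  (((S.zip row).filter fun p => eqB p.1 X).map fun p => p.2).headD 0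

/-- the row of `d :: D` from the rows of the suffixes of `D` -/
def newRow (S : List (List Bool)) (d : ℕ) (D : List ℕ) (T : List (List ℕ)) : List ℕ :=
  S.map fun X => max (look S (T.getD 0 []) X)
    (bif X.getD d false then 1 + twl d D + look S (T.getD (twl d D) []) (clr d X) else 0)

/-- the list `D` and the rows of all its suffixes -/
def tab (S : List (List Bool)) (D : List ℕ) : List ℕ × List (List ℕ) :=
  D.foldr (fun d s => (d :: s.1, newRow S d s.1 s.2 :: s.2)) ([], [S.map fun _ => 0])

theorem tab_cons (S : List (List Bool)) (d : ℕ) (D : List ℕ) :
    tab S (d :: D) = (d :: (tab S D).1, newRow S d (tab S D).1 (tab S D).2 :: (tab S D).2) := rfl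

/-- adjacency from the rows of the matrix -/
def adjR (R : List (List Bool)) (i j : ℕ) : Bool := (R.getD i []).getD j false

/-- one round: `T[p][v]` is a list of relative depths below `v`, coming from `p` -/
def dstep (R : List (List Bool)) (n : ℕ) (T : List (List (List ℕ))) : List (List (List ℕ)) :=
  (List.range n).map fun p => (List.range n).map fun v =>
    (0 :: ((List.range n).filter fun u => adjR R v u && !decide (u = p)).flatMap fun u =>
      ((T.getD v []).getD u []).map fun x => x + 1).take n

/-- `h` rounds -/
def dT (R : List (List Bool)) (n h : ℕ) : List (List (List ℕ)) := (dstep R n)^[h] []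

/-- the list of depths in preorder from `s` -/
def depths (R : List (List Bool)) (n s : ℕ) : List ℕ := ((dT R n n).getD s []).getD s []

/-- `⌊√(2 k)⌋ + 1` -/
def jOf (k : ℕ) : ℕ := ((List.range (2 * k + 1)).filter fun i => decide (i * i ≤ 2 * k)).length

/-- the answer, from the rows and the bound `cap` -/
def dp (R : List (List Bool)) (cap : ℕ) : Bool :=
  decide ((R.getD ((R.headD []).length + 1) []).length ≤
    look (subsC cap (jOf (R.getD ((R.headD []).length + 1) []).length + 1))
      ((tab (subsC cap (jOf (R.getD ((R.headD []).length + 1) []).length + 1))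
        (depths R (R.headD []).length (R.getD (R.headD []).length []).length)).2.getD 0 [])
      (false :: List.replicate (jOf (R.getD ((R.headD []).length + 1) []).length) true))

/-! ### Vertices in preorder -/

section pre

variable {n : ℕ} (s : Fin n) (par : Fin n → Fin n)

/-- the children of `v` -/
def chil (v : Fin n) : List (Fin n) :=
  (List.finRange n).filter fun u => decide (u ≠ s) && decide (par u = v)

/-- the vertices below `v` in preorder, down to relative depth `< h` -/
def pre : ℕ → Fin n → List (Fin n)
  | 0, _ => []
  | h + 1, v => v :: (chil s par v).flatMap (pre h)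

end pre

/-- the property of a list `l` in preorder -/
def PO {V : Type} (par : V → V) (dep : V → ℕ) : List V → Prop
  | [] => True
  | v :: l => (∀ w ∈ l.take (twl (dep v) (l.map dep)), Pool.Agent.Hhelper73.Fire.Anc par dep v w) ∧
      (∀ w ∈ l.drop (twl (dep v) (l.map dep)), ¬ Pool.Agent.Hhelper73.Fire.Anc par dep v w) ∧
      (∀ w ∈ l, ¬ Pool.Agent.Hhelper73.Fire.Anc par dep w v) ∧ PO par dep l

end Pool.Agent.FFT
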