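import Mathlib
import Pool.Agent.FFT.DPDefs

/-!
# MODULE FFT/DPtab  (MP_4a4383_lc)

The table computes the values `gv`.

Proofs.
* `eqB_iff`: for lists of the same length `(x.zip y).all (p.1 == p.2) ↔ x = y` (induction).
* `look_map`: if `X ∈ S` then `look S (S.map F) X = F X`: `S.zip (S.map F) = S.map fun x => (x, F x)`,
  the filter keeps exactly the pairs with first component `X`, the first of them is `(X, F X)`.
* `mem_subsC`: if `2 ^ m ≤ cap` then `X ∈ subsC cap m ↔ X.length = m`: by induction on `m` the list
  has length `2 ^ m` (`take` does nothing) and contains exactly the lists of length `m`.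
* `clr_length`: if `X.getD d false = true` then `d < X.length` and `(clr d X).length = X.length`.
* `tab_fst`: `(tab S D).1 = D`.  `tab_spec`: induction on `D`: for `i = 0` this is `newRow` with
  `look_map` and the induction hypothesis at the indices `0` and `twl d D ≤ D.length`; `gv_cons`,
  `clr d X ∈ S` by `clr_length`.  For `i + 1`: `List.getD_cons_succ`, `List.drop_succ_cons`.
  For `D = []`: `gv [] X = 0`.
* `two_mul_le`, `jOf_le`: the filter is `List.range (Nat.sqrt (2 k) + 1)` (`Nat.le_sqrt`:
  `i ≤ sqrt n ↔ i * i ≤ n`), so `jOf k = Nat.sqrt (2 k) + 1`; `2 k < (Nat.sqrt (2 k) + 1) ^ 2`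
  (`Nat.sqrt_lt'`, `Nat.lt_succ_sqrt`); `Nat.sqrt (2 k) ≤ 2 * Nat.sqrt k + 1`
  (`2 k ≤ 2 (sqrt k + 1)^2 - 2 < (2 sqrt k + 2)^2`).
-/

set_option autoImplicit false

namespace Pool.Agent.FFT

theorem eqB_iff (x y : List Bool) : eqB x y = true ↔ x = y := by
  induction x generalizing y with
  | nil => cases y <;> simp [eqB]
  | cons a x ih =>
    cases y with
    | nil => simp [eqB]
    | cons b y =>
      have h := ih y
      simp only [eqB, Bool.and_eq_true, decide_eq_true_eq] at h
      simp only [eqB, List.length_cons, List.zip_cons_cons, List.all_cons, Bool.and_eq_true,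
        decide_eq_true_eq, beq_iff_eq, List.cons.injEq, Nat.add_right_cancel_iff]
      constructor
      · rintro ⟨h1, h2, h3⟩
        exact ⟨h2, h.1 ⟨h1, h3⟩⟩
      · rintro ⟨h1, h2⟩
        have h3 := h.2 h2
        exact ⟨h3.1, h1, h3.2⟩

theorem look_map (S : List (List Bool)) (F : List Bool → ℕ) (X : List Bool) (h : X ∈ S) :
    look S (S.map F) X = F X := by
  induction S with
  | nil => simp at h
  | cons x S ih =>
    unfold look
    rw [List.map_cons, List.zip_cons_cons, List.filter_cons]
    by_cases hx : x = X
    · have h1 : eqB (x, F x).1 X = true := (eqB_iff _ _).2 hx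
      rw [if_pos h1, List.map_cons, List.headD_cons, hx]
    · have h1 : ¬ eqB (x, F x).1 X = true := fun h2 => hx ((eqB_iff _ _).1 h2)
      rw [if_neg h1]
      have h2 : X ∈ S := by
        rcases List.mem_cons.1 h with h3 | h3
        · exact absurd h3.symm hx
        · exact h3
      exact ih h2

theorem mem_subsC (cap m : ℕ) (h : 2 ^ m ≤ cap) (X : List Bool) :
    X ∈ subsC cap m ↔ X.length = m := by
  have key : ∀ m : ℕ, 2 ^ m ≤ cap → (subsC cap m).length = 2 ^ m ∧
      ∀ X : List Bool, X ∈ subsC cap m ↔ X.length = m := by
    intro m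
    induction m with
    | zero =>
      intro _
      refine ⟨by simp [subsC], fun X => ?_⟩
      simp [subsC]
    | succ m ih =>
      intro hm
      have hm' : 2 ^ m ≤ cap := le_trans (Nat.pow_le_pow_right two_pos (Nat.le_succ m)) hm
      obtain ⟨h1, h2⟩ := ih hm'
      have h3 : subsC cap (m + 1) =
          ((subsC cap m).flatMap fun x => [false :: x, true :: x]).take cap := by
        unfold subsC
        rw [Function.iterate_succ_apply']
      have h4 : ((subsC cap m).flatMap fun x => [false :: x, true :: x]).length = 2 ^ (m + 1) := by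
        have h5 : ∀ L : List (List Bool),
            (L.flatMap fun x => [false :: x, true :: x]).length = 2 * L.length := by
          intro L
          induction L with
          | nil => rfl
          | cons y L ihL =>
            rw [List.flatMap_cons, List.length_append, ihL, List.length_cons]
            simp only [List.length_cons, List.length_nil]
            ring
        rw [h5, h1, pow_succ]
        ring
      rw [h3, List.take_of_length_le (by rw [h4]; exact hm)]
      refine ⟨h4, fun X => ?_⟩
      rw [List.mem_flatMap]
      constructor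
      · rintro ⟨y, hy, hX⟩
        have h6 := (h2 y).1 hy
        simp only [List.mem_cons, List.not_mem_nil, or_false] at hX
        rcases hX with h7 | h7 <;> rw [h7, List.length_cons, h6]
      · intro hX
        cases X with
        | nil => simp at hX
        | cons b X =>
          rw [List.length_cons, Nat.add_right_cancel_iff] at hX
          refine ⟨X, (h2 X).2 hX, ?_⟩
          cases b <;> simp
  exact (key m h).2 X

theorem clr_length (d : ℕ) (X : List Bool) (h : X.getD d false = true) :
    (clr d X).length = X.length := by
  have h1 : d < X.length := by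
    by_contra hcon
    rw [List.getD_eq_default _ _ (not_lt.1 hcon)] at h
    exact Bool.false_ne_true h
  unfold clr
  rw [List.length_append, List.length_cons, List.length_take, List.length_drop]
  omega

theorem tab_fst (S : List (List Bool)) (D : List ℕ) : (tab S D).1 = D := by
  induction D with
  | nil => rfl
  | cons d D ih => rw [tab_cons, ih]

theorem tab_spec (S : List (List Bool)) (m : ℕ) (hS : ∀ X, X ∈ S ↔ X.length = m) (D : List ℕ)
    (i : ℕ) (hi : i ≤ D.length) (X : List Bool) (hX : X.length = m) :
    look S ((tab S D).2.getD i []) X = gv (D.drop i) X := by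
  induction D generalizing i X with
  | nil =>
    have h0 : i = 0 := by simpa using hi
    rw [h0]
    have h1 : (tab S []).2.getD 0 [] = S.map fun _ => 0 := rfl
    rw [h1, look_map S _ X ((hS X).2 hX), List.drop_nil, gv_nil]
  | cons d D ih =>
    rw [tab_cons]
    cases i with
    | zero =>
      rw [List.getD_cons_zero, List.drop_zero, newRow, look_map S _ X ((hS X).2 hX), tab_fst,
        gv_cons, ih 0 (Nat.zero_le _) X hX, List.drop_zero]
      cases hb : X.getD d false with
      | false => rfl
      | true =>
        rw [cond_true, cond_true, ih (twl d D) (twl_le d D) (clr d X)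
          ((clr_length d X hb).trans hX)]
    | succ i =>
      rw [List.getD_cons_succ, List.drop_succ_cons]
      exact ih i (by simpa using hi) X hX

private lemma jOf_eq (k : ℕ) : jOf k = Nat.sqrt (2 * k) + 1 := by
  unfold jOf
  have h1 : 2 * k + 1 = (Nat.sqrt (2 * k) + 1) + (2 * k - Nat.sqrt (2 * k)) := by
    have := Nat.sqrt_le_self (2 * k)
    omega
  have h2 : List.range (2 * k + 1) = List.range (Nat.sqrt (2 * k) + 1) ++
      (List.range (2 * k - Nat.sqrt (2 * k))).map (fun x => Nat.sqrt (2 * k) + 1 + x) := by
    conv_lhs => rw [h1]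
    exact List.range_add
  rw [h2, List.filter_append]
  have h3 : (List.range (Nat.sqrt (2 * k) + 1)).filter (fun i => decide (i * i ≤ 2 * k)) =
      List.range (Nat.sqrt (2 * k) + 1) := by
    rw [List.filter_eq_self]
    intro a ha
    rw [List.mem_range, Nat.lt_succ_iff] at ha
    exact decide_eq_true (Nat.le_sqrt.1 ha)
  have h4 : ((List.range (2 * k - Nat.sqrt (2 * k))).map
      (fun x => Nat.sqrt (2 * k) + 1 + x)).filter (fun i => decide (i * i ≤ 2 * k)) = [] := by
    rw [List.filter_eq_nil_iff]
    intro a ha
    rw [List.mem_map] at ha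
    obtain ⟨x, -, hx⟩ := ha
    simp only [decide_eq_true_eq]
    intro h5
    have h6 := Nat.le_sqrt.2 h5
    omega
  rw [h3, h4, List.append_nil, List.length_range]

theorem two_mul_le_jOf (k : ℕ) : 2 * k ≤ jOf k * (jOf k + 1) := by
  rw [jOf_eq]
  have h := Nat.lt_succ_sqrt (2 * k)
  nlinarith

theorem jOf_le (k : ℕ) : jOf k ≤ 2 * Nat.sqrt k + 2 := by
  rw [jOf_eq]
  have h1 := Nat.lt_succ_sqrt k
  have h2 := Nat.sqrt_le (2 * k)
  by_contra hcon
  push Not at hcon
  have h3 : 2 * Nat.sqrt k + 2 ≤ Nat.sqrt (2 * k) := by omega
  have h4 := Nat.mul_le_mul h3 h3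
  nlinarith

end Pool.Agent.FFT
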