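import Mathlib
import Pool.Agent.FFT.DPDefs

/-!
# MODULE FFT/DPval  (MP_4a4383_lc)

The value `gv` is the largest number of vertices of the preorder list `l` saved by an admissible set
with levels in `X`.

`val l P` is the number of vertices of `l` below a vertex of `P` that is in `l`.

Proofs: strong induction on the length of `l` (`PO` is inherited by `l`'s tail and by `drop`s:
`PO.drop`).  For `v :: l` put `m = twl (dep v) (l.map dep)`, `A = l.take m`, `C = l.drop m`;
`(l.map dep).drop m = C.map dep`, `A.length = m` (`twl_le`).
By `PO`: all of `A` is below `v`, nothing in `C` is below `v`, no `w ∈ l` is above `v` (so `v ∉ l`).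
* `val_le_gv`.  If `v ∉ P`: `val (v :: l) P = val l P` (`v` is not below any `w ∈ l`).
  If `v ∈ P`: `val (v :: l) P ≤ 1 + m + val C P'` with `P' = P.erase v`: for `w ∈ C` below
  `u ∈ P ∩ (v :: l)`: `u ≠ v`, `u ∉ A` (else `v` above `u` above `w`, `anc_trans`), so `u ∈ C`.  The
  levels of `P'` are in `clr (dep v) X` since `dep` is injective on `P` (`getD_clr`).
* `exists_val`.  `gv (v :: l)` is either `gv l X`: take `P` for `l` (`P ⊆ l`); or
  `X.getD (dep v) false = true` and it is `1 + m + gv C (clr (dep v) X)`: take
  `insert v P'` with `P' ⊆ C` for `C`.  Then `v` and all of `A` are counted, and of `C` those counted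
  for `P'`.
* `getD_clr`: `(clr d X).getD e false = true ↔ e ≠ d ∧ X.getD e false = true` (cases `d < X.length`
  or not).
* `val_full`: if `l` contains all vertices (`Nodup` follows from `PO`), `val l P = (sav P).card`.
  (`List.countP`, `List.toFinset_card_of_nodup`, `List.filter`.)
-/

set_option autoImplicit false

namespace Pool.Agent.FFT

open Pool.Agent.Hhelper73.Fire

variable {V : Type} [DecidableEq V] {G : SimpleGraph V} {s : V} {par : V → V} {dep : V → ℕ}

open Classical in
/-- number of vertices of `l` below a vertex of `P` in `l` -/
noncomputable def val (par : V → V) (dep : V → ℕ) (l : List V) (P : Finset V) : ℕ :=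
  (l.filter fun w => decide (∃ v ∈ P, v ∈ l ∧ Anc par dep v w)).length

omit [DecidableEq V] in
theorem PO.drop {l : List V} (h : PO par dep l) (m : ℕ) : PO par dep (l.drop m) := by
  induction m generalizing l with
  | zero => simpa using h
  | succ m ih =>
    cases l with
    | nil => simpa using h
    | cons v l =>
      rw [List.drop_succ_cons]
      exact ih h.2.2.2

omit [DecidableEq V] in
theorem PO.nodup {l : List V} (h : PO par dep l) : l.Nodup := by
  induction l with
  | nil => exact List.nodup_nil
  | cons v l ih =>
    rw [List.nodup_cons]
    exact ⟨fun hv => h.2.2.1 v hv (anc_refl v), ih h.2.2.2⟩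

theorem getD_clr (d : ℕ) (X : List Bool) (e : ℕ) :
    (clr d X).getD e false = true ↔ e ≠ d ∧ X.getD e false = true := by
  unfold clr
  rcases lt_or_ge d X.length with hd | hd
  · have hlen : (X.take d).length = d := by rw [List.length_take]; omega
    rcases lt_trichotomy e d with h | h | h
    · have h1 : (X.take d ++ false :: X.drop (d + 1)).getD e false = X.getD e false := by
        rw [List.getD_append _ _ _ _ (by omega)]
        simp only [List.getD_eq_getElem?_getD]
        rw [List.getElem?_take_of_lt h]
      rw [h1]
      exact ⟨fun hx => ⟨by omega, hx⟩, fun hx => hx.2⟩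
    · subst h
      have h1 : (X.take e ++ false :: X.drop (e + 1)).getD e false = false := by
        rw [List.getD_append_right _ _ _ _ (by omega), hlen, Nat.sub_self]
        rfl
      rw [h1]
      simp
    · have h1 : (X.take d ++ false :: X.drop (d + 1)).getD e false = X.getD e false := by
        rw [List.getD_append_right _ _ _ _ (by omega), hlen]
        obtain ⟨j, rfl⟩ : ∃ j, e = d + 1 + j := ⟨e - (d + 1), by omega⟩
        rw [show d + 1 + j - d = j + 1 by omega, List.getD_cons_succ]
        simp only [List.getD_eq_getElem?_getD]
        rw [List.getElem?_drop]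
      rw [h1]
      exact ⟨fun hx => ⟨by omega, hx⟩, fun hx => hx.2⟩
  · have h0 : X.take d ++ false :: X.drop (d + 1) = X ++ [false] := by
      rw [List.take_of_length_le hd, List.drop_eq_nil_of_le (by omega)]
    rw [h0]
    rcases lt_or_ge e X.length with he | he
    · rw [List.getD_append _ _ _ _ he]
      exact ⟨fun hx => ⟨by omega, hx⟩, fun hx => hx.2⟩
    · have h1 : (X ++ [false]).getD e false = false := by
        rw [List.getD_append_right _ _ _ _ he]
        rcases Nat.eq_zero_or_pos (e - X.length) with h | h
        · rw [h]; rfl
        · rw [List.getD_eq_default _ _ (by rw [List.length_singleton]; omega)]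
      have h2 : X.getD e false = false := List.getD_eq_default _ _ he
      rw [h1, h2]
      simp

omit [DecidableEq V] in
theorem po_take_drop_aux (dep : V → ℕ) (v : V) (l : List V) :
    (l.take (twl (dep v) (l.map dep))).length = twl (dep v) (l.map dep) ∧
      (l.map dep).drop (twl (dep v) (l.map dep)) =
        (l.drop (twl (dep v) (l.map dep))).map dep := by
  have h := twl_le (dep v) (l.map dep)
  rw [List.length_map] at h
  refine ⟨by rw [List.length_take]; omega, by rw [List.map_drop]⟩

open Classical in
theorem val_cons_not_mem (v : V) (l : List V) (hl : PO par dep (v :: l)) (P : Finset V)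
    (hv : v ∉ P) : val par dep (v :: l) P = val par dep l P := by
  unfold val
  rw [List.filter_cons_of_neg]
  · congr 1
    apply List.filter_congr
    intro w hw
    rw [decide_eq_decide]
    constructor
    · rintro ⟨u, hu, hul, ha⟩
      rcases List.mem_cons.1 hul with h | h
      · exact absurd (h ▸ hu) hv
      · exact ⟨u, hu, h, ha⟩
    · rintro ⟨u, hu, hul, ha⟩
      exact ⟨u, hu, List.mem_cons_of_mem _ hul, ha⟩
  · rw [decide_eq_true_eq]
    rintro ⟨u, hu, hul, ha⟩
    rcases List.mem_cons.1 hul with h | h
    · exact hv (h ▸ hu)
    · exact hl.2.2.1 u h ha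

open Classical in
theorem val_cons_mem_le (R : Rooted G s par dep) (v : V) (l : List V)
    (hl : PO par dep (v :: l)) (P : Finset V) :
    val par dep (v :: l) P ≤ 1 + twl (dep v) (l.map dep) +
      val par dep (l.drop (twl (dep v) (l.map dep))) (P.erase v) := by
  obtain ⟨hA, -⟩ := po_take_drop_aux dep v l
  set m := twl (dep v) (l.map dep) with hm
  unfold val
  set p : V → Bool := fun w => decide (∃ u ∈ P, u ∈ v :: l ∧ Anc par dep u w) with hp
  set q : V → Bool := fun w => decide (∃ u ∈ P.erase v, u ∈ l.drop m ∧ Anc par dep u w) with hq
  have h1 : ((v :: l).filter p).length ≤ 1 + m + ((l.drop m).filter p).length := by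
    have e : ((v :: l).filter p).length = (([v].filter p).length + ((l.take m).filter p).length)
        + ((l.drop m).filter p).length := by
      rw [← List.length_append, ← List.filter_append, ← List.length_append, ← List.filter_append]
      congr 2
      rw [List.append_assoc, List.take_append_drop, List.singleton_append]
    rw [e]
    have e1 : ([v].filter p).length ≤ 1 := by
      have := List.length_filter_le p [v]
      simpa using this
    have e2 : ((l.take m).filter p).length ≤ m := by
      have := List.length_filter_le p (l.take m)
      omega
    omega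
  have h2 : (l.drop m).filter p = (l.drop m).filter fun w => p w && q w := by
    apply List.filter_congr
    intro w hw
    by_cases hpw : p w = true
    · rw [hpw, Bool.true_and]
      symm
      rw [hp] at hpw
      simp only [decide_eq_true_eq] at hpw
      obtain ⟨u, hu, hul, ha⟩ := hpw
      rw [hq]
      simp only [decide_eq_true_eq]
      have huv : u ≠ v := by
        rintro rfl
        exact hl.2.1 w hw ha
      have hul' : u ∈ l := by
        rcases List.mem_cons.1 hul with h | h
        · exact absurd h huv
        · exact h
      refine ⟨u, Finset.mem_erase.2 ⟨huv, hu⟩, ?_, ha⟩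
      rw [← List.take_append_drop m l] at hul'
      rcases List.mem_append.1 hul' with h | h
      · exact absurd (R.anc_trans (hl.1 u h) ha) (hl.2.1 w hw)
      · exact h
    · rw [Bool.not_eq_true] at hpw
      rw [hpw, Bool.false_and]
  have h3 : ((l.drop m).filter p).length ≤ ((l.drop m).filter q).length := by
    rw [h2, ← List.countP_eq_length_filter, ← List.countP_eq_length_filter]
    apply List.countP_mono_left
    intro w _ hw
    rw [Bool.and_eq_true] at hw
    exact hw.2
  exact h1.trans (by omega)

theorem val_le_gv (R : Rooted G s par dep) (l : List V) (hl : PO par dep l) (X : List Bool)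
    (P : Finset V) (hinj : Set.InjOn dep (P : Set V))
    (hX : ∀ v ∈ P, X.getD (dep v) false = true) :
    val par dep l P ≤ gv (l.map dep) X := by
  induction hn : l.length using Nat.strong_induction_on generalizing l X P with
  | _ n ih =>
    cases l with
    | nil => simp [val]
    | cons v l =>
      rw [List.length_cons] at hn
      rw [List.map_cons, gv_cons]
      by_cases hv : v ∈ P
      · refine le_trans ?_ (le_max_right _ _)
        rw [hX v hv, cond_true]
        refine (val_cons_mem_le R v l hl P).trans ?_
        rw [(po_take_drop_aux dep v l).2]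
        refine Nat.add_le_add_left ?_ _
        refine ih _ ?_ _ (PO.drop hl.2.2.2 _) _ _ ?_ ?_ rfl
        · rw [List.length_drop]; omega
        · exact hinj.mono (fun u hu => by
            rw [Finset.mem_coe] at hu ⊢
            exact Finset.mem_of_mem_erase hu)
        · intro u hu
          rw [Finset.mem_erase] at hu
          rw [getD_clr]
          refine ⟨fun h => hu.1 (hinj (by exact_mod_cast hu.2) (by exact_mod_cast hv) h),
            hX u hu.2⟩
      · refine le_trans ?_ (le_max_left _ _)
        rw [val_cons_not_mem v l hl P hv]
        exact ih l.length (by omega) l hl.2.2.2 X P hinj hX rfl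

open Classical in
theorem val_le_val_cons (v : V) (l : List V) (P : Finset V) :
    val par dep l P ≤ val par dep (v :: l) P := by
  unfold val
  rw [← List.countP_eq_length_filter, ← List.countP_eq_length_filter, List.countP_cons]
  refine le_trans ?_ (Nat.le_add_right _ _)
  apply List.countP_mono_left
  intro w _ hw
  rw [decide_eq_true_eq] at hw ⊢
  obtain ⟨u, hu, hul, ha⟩ := hw
  exact ⟨u, hu, List.mem_cons_of_mem _ hul, ha⟩

open Classical in
theorem le_val_cons_insert (v : V) (l : List V) (hl : PO par dep (v :: l)) (P : Finset V) :
    1 + twl (dep v) (l.map dep) + val par dep (l.drop (twl (dep v) (l.map dep))) P ≤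
      val par dep (v :: l) (insert v P) := by
  obtain ⟨hA, -⟩ := po_take_drop_aux dep v l
  set m := twl (dep v) (l.map dep) with hm
  unfold val
  set p : V → Bool := fun w => decide (∃ u ∈ insert v P, u ∈ v :: l ∧ Anc par dep u w) with hp
  set q : V → Bool := fun w => decide (∃ u ∈ P, u ∈ l.drop m ∧ Anc par dep u w) with hq
  have e : ((v :: l).filter p).length = (([v].filter p).length + ((l.take m).filter p).length)
      + ((l.drop m).filter p).length := by
    rw [← List.length_append, ← List.filter_append, ← List.length_append, ← List.filter_append]
    congr 2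
    rw [List.append_assoc, List.take_append_drop, List.singleton_append]
  rw [e]
  have e1 : ([v].filter p).length = 1 := by
    rw [List.filter_cons_of_pos]
    · rfl
    · rw [hp]
      simp only [decide_eq_true_eq]
      exact ⟨v, Finset.mem_insert_self _ _, List.mem_cons_self, anc_refl v⟩
  have e2 : ((l.take m).filter p).length = m := by
    rw [List.filter_eq_self.2, hA]
    intro w hw
    rw [hp]
    simp only [decide_eq_true_eq]
    exact ⟨v, Finset.mem_insert_self _ _, List.mem_cons_self, hl.1 w hw⟩
  have e3 : ((l.drop m).filter q).length ≤ ((l.drop m).filter p).length := by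
    rw [← List.countP_eq_length_filter, ← List.countP_eq_length_filter]
    apply List.countP_mono_left
    intro w _ hw
    rw [hq] at hw
    rw [hp]
    simp only [decide_eq_true_eq] at hw ⊢
    obtain ⟨u, hu, hul, ha⟩ := hw
    exact ⟨u, Finset.mem_insert_of_mem hu, List.mem_cons_of_mem _ (List.mem_of_mem_drop hul), ha⟩
  omega

theorem exists_val (R : Rooted G s par dep) (l : List V) (hl : PO par dep l) (X : List Bool) :
    ∃ P : Finset V, (∀ v ∈ P, v ∈ l) ∧ Set.InjOn dep (P : Set V) ∧
      (∀ v ∈ P, X.getD (dep v) false = true) ∧ gv (l.map dep) X ≤ val par dep l P := by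
  induction hn : l.length using Nat.strong_induction_on generalizing l X with
  | _ n ih =>
    cases l with
    | nil => exact ⟨∅, by simp, by simp, by simp, by simp [gv_nil]⟩
    | cons v l =>
      rw [List.length_cons] at hn
      rw [List.map_cons, gv_cons]
      obtain ⟨P, hP1, hP2, hP3, hP4⟩ := ih l.length (by omega) l hl.2.2.2 X rfl
      have hfirst : gv (l.map dep) X ≤ val par dep (v :: l) P :=
        hP4.trans (val_le_val_cons v l P)
      cases hXv : X.getD (dep v) false with
      | false =>
        refine ⟨P, fun u hu => List.mem_cons_of_mem _ (hP1 u hu), hP2, hP3, ?_⟩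
        rw [cond_false, max_eq_left (Nat.zero_le _)]
        exact hfirst
      | true =>
        rw [cond_true]
        rcases le_total (1 + twl (dep v) (l.map dep) +
          gv ((l.map dep).drop (twl (dep v) (l.map dep))) (clr (dep v) X))
          (gv (l.map dep) X) with h | h
        · refine ⟨P, fun u hu => List.mem_cons_of_mem _ (hP1 u hu), hP2, hP3, ?_⟩
          rw [max_eq_left h]
          exact hfirst
        · rw [max_eq_right h, (po_take_drop_aux dep v l).2]
          obtain ⟨P', hQ1, hQ2, hQ3, hQ4⟩ := ih (l.drop (twl (dep v) (l.map dep))).length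
            (by rw [List.length_drop]; omega) _ (PO.drop hl.2.2.2 _) (clr (dep v) X) rfl
          refine ⟨insert v P', ?_, ?_, ?_, ?_⟩
          · intro u hu
            rcases Finset.mem_insert.1 hu with h1 | h1
            · rw [h1]; exact List.mem_cons_self
            · exact List.mem_cons_of_mem _ (List.mem_of_mem_drop (hQ1 u h1))
          · intro a ha b hb hab
            rw [Finset.mem_coe, Finset.mem_insert] at ha hb
            rcases ha with ha | ha <;> rcases hb with hb | hb
            · rw [ha, hb]
            · rw [ha] at hab
              exact absurd hab.symm ((getD_clr _ _ _).1 (hQ3 b hb)).1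
            · rw [hb] at hab
              exact absurd hab ((getD_clr _ _ _).1 (hQ3 a ha)).1
            · exact hQ2 (by exact_mod_cast ha) (by exact_mod_cast hb) hab
          · intro u hu
            rcases Finset.mem_insert.1 hu with h1 | h1
            · rw [h1]; exact hXv
            · exact ((getD_clr _ _ _).1 (hQ3 u h1)).2
          · exact (Nat.add_le_add_left hQ4 _).trans (le_val_cons_insert v l hl P')

theorem val_full [Fintype V] (l : List V) (hl : PO par dep l) (hall : ∀ v, v ∈ l)
    (P : Finset V) : val par dep l P = (sav par dep P).card := by
  classical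
  unfold val
  have hnd := (PO.nodup hl).filter
    (p := fun w => decide (∃ v ∈ P, v ∈ l ∧ Anc par dep v w))
  rw [← List.toFinset_card_of_nodup hnd]
  congr 1
  ext w
  rw [List.mem_toFinset, List.mem_filter, mem_sav, decide_eq_true_eq]
  constructor
  · rintro ⟨-, u, hu, -, ha⟩
    exact ⟨u, hu, ha⟩
  · rintro ⟨u, hu, ha⟩
    exact ⟨hall w, u, hu, hall u, ha⟩

end Pool.Agent.FFT
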