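import Mathlib
import Pool.Agent.FFT.DPDefs

/-!
# MODULE FFT/Pre  (MP_4a4383_lc)

The list `pre s par h v` (preorder below `v`, relative depth `< h`) has the property `PO`, and
`pre s par n s` contains all vertices.

Proofs.
* `mem_chil`.  `mem_pre`: `w ∈ pre s par h v ↔ Anc par dep v w ∧ dep w < dep v + h`: induction on
  `h`; `w ∈ pre (h+1) v` iff `w = v` or `w` is below a child `u` of `v` and `dep w < dep u + h`
  (`anc` of a child: `Rooted.exists_anc`, `anc_total`, `anc_iff`, as in `anc_step` of
  `Compl.lean`).
* `twl_append_stop` (useful): if all entries of `l1` are `> d` then `twl d (l1 ++ l2) =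
  l1.length + twl d l2`; if the first entry of `l2` is `≤ d` (or `l2 = []`) then
  `twl d (l1 ++ l2) = twl d l1`.
* `po_append`: `PO l1`, `PO l2`, no vertex of `l1` is above or below a vertex of `l2`, and the first
  vertex of `l2` has depth `≤ dep w` for all `w ∈ l1`: then `PO (l1 ++ l2)`.  Induction on `l1`:
  for `v :: l1'`: `twl (dep v) ((l1' ++ l2).map dep) = twl (dep v) (l1'.map dep)` since the first
  entry of `l2` stops (if it is not stopped before, `l2.headD` has depth `≤ dep v`).
* `po_pre`: induction on `h`: for `v`: the tail is the concatenation of the lists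
  `pre s par h u`, `u` in a sublist `c` of children without duplicates (induction on this list with
  `po_append`: lists for different children `u`, `u'` are incomparable: a vertex below `u` and above
  or below a vertex below `u'` would give two ancestors of the same vertex at level
  `dep v + 1`, `anc_unique`); all its entries are below `v` (`> dep v`), so `twl` is the whole length.
* `pre_full`: `dep w < n`: the `dep w + 1` ancestors of `w` are distinct
  (`Finset.card_le_univ`), so `dep w + 1 ≤ n`; `Rooted.anc_root`.
* `length_pre_le`: `PO` gives `Nodup`, so the length is at most `n`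
  (`List.Nodup.length_le_card`).
-/

set_option autoImplicit false

namespace Pool.Agent.FFT

open Pool.Agent.Hhelper73.Fire

theorem twl_append_stop (d : ℕ) (l1 l2 : List ℕ) (h : ∀ x, l2.head? = some x → x ≤ d) :
    twl d (l1 ++ l2) = twl d l1 := by
  induction l1 with
  | nil =>
    cases l2 with
    | nil => rfl
    | cons x l =>
      have hx := h x rfl
      rw [List.nil_append, twl_cons, decide_eq_false (by omega)]
      rfl
  | cons x l ih => rw [List.cons_append, twl_cons, twl_cons, ih]

theorem twl_all (d : ℕ) (l : List ℕ) (h : ∀ x ∈ l, d < x) : twl d l = l.length := by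
  induction l with
  | nil => rfl
  | cons x l ih =>
    rw [twl_cons, decide_eq_true (h x (by simp)), ih fun y hy => h y (by simp [hy])]
    rfl

section

variable {V : Type} {G : SimpleGraph V} {s : V} {par : V → V} {dep : V → ℕ}

theorem po_append (R : Rooted G s par dep) (l1 l2 : List V) (h1 : PO par dep l1)
    (h2 : PO par dep l2) (h12 : ∀ v ∈ l1, ∀ w ∈ l2, ¬ Anc par dep v w ∧ ¬ Anc par dep w v)
    (hd : ∀ v ∈ l1, ∀ w, l2.head? = some w → dep w ≤ dep v) : PO par dep (l1 ++ l2) := by
  induction l1 with
  | nil => exact h2
  | cons v l ih =>
    obtain ⟨a1, a2, a3, a4⟩ := h1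
    have ht : twl (dep v) ((l ++ l2).map dep) = twl (dep v) (l.map dep) := by
      rw [List.map_append]
      apply twl_append_stop
      intro x hx
      rw [List.head?_map, Option.map_eq_some_iff] at hx
      obtain ⟨w, hw, rfl⟩ := hx
      exact hd v (by simp) w hw
    have hle : twl (dep v) (l.map dep) ≤ l.length := by
      have := twl_le (dep v) (l.map dep)
      rwa [List.length_map] at this
    rw [List.cons_append]
    refine ⟨?_, ?_, ?_, ?_⟩
    · intro w hw
      rw [ht, List.take_append_of_le_length hle] at hw
      exact a1 w hw
    · intro w hw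
      rw [ht, List.drop_append_of_le_length hle, List.mem_append] at hw
      rcases hw with hw | hw
      · exact a2 w hw
      · exact (h12 v (by simp) w hw).1
    · intro w hw
      rw [List.mem_append] at hw
      rcases hw with hw | hw
      · exact a3 w hw
      · exact (h12 v (by simp) w hw).2
    · exact ih a4 (fun x hx => h12 x (by simp [hx])) (fun x hx => hd x (by simp [hx]))

theorem po_nodup (l : List V) (h : PO par dep l) : l.Nodup := by
  induction l with
  | nil => exact List.nodup_nil
  | cons v l ih =>
    obtain ⟨_, _, a3, a4⟩ := h
    rw [List.nodup_cons]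
    exact ⟨fun hv => a3 v hv (anc_refl v), ih a4⟩

end

variable {n : ℕ} {G : SimpleGraph (Fin n)} {s : Fin n} {par : Fin n → Fin n} {dep : Fin n → ℕ}

theorem mem_chil (v u : Fin n) : u ∈ chil s par v ↔ u ≠ s ∧ par u = v := by
  simp [chil]

theorem mem_pre (R : Rooted G s par dep) (h : ℕ) (v w : Fin n) :
    w ∈ pre s par h v ↔ Anc par dep v w ∧ dep w < dep v + h := by
  induction h generalizing v with
  | zero =>
    constructor
    · intro hw
      exact absurd hw (by simp [pre])
    · rintro ⟨h1, h2⟩
      have := R.anc_dep h1
      omega
  | succ h ih =>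
    rw [pre, List.mem_cons, List.mem_flatMap]
    constructor
    · rintro (rfl | ⟨u, hu, hw⟩)
      · exact ⟨anc_refl _, by omega⟩
      · rw [mem_chil] at hu
        obtain ⟨hus, rfl⟩ := hu
        rw [ih] at hw
        have hd := R.dep_par u hus
        refine ⟨R.anc_trans ?_ hw.1, by omega⟩
        rw [R.anc_iff hus]
        exact Or.inr (anc_refl _)
    · rintro ⟨h1, h2⟩
      by_cases hwv : w = v
      · exact Or.inl hwv
      · right
        have hle := R.anc_dep h1
        have hlt : dep v < dep w := by
          rcases Nat.lt_or_ge (dep v) (dep w) with h3 | h3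
          · exact h3
          · exact absurd (R.anc_unique (anc_refl w) h1 (by omega)) hwv
        obtain ⟨u, hu, hud⟩ := R.exists_anc w (dep v + 1) hlt
        have hus : u ≠ s := by
          rintro rfl
          rw [R.dep_root] at hud
          omega
        have hd := R.dep_par u hus
        have hvu := R.anc_total h1 hu (by omega)
        rw [R.anc_iff hus] at hvu
        have hpar : par u = v := by
          rcases hvu with h3 | h3
          · rw [h3] at hud; omega
          · exact R.anc_unique (anc_refl _) h3 (by omega)
        refine ⟨u, ?_, ?_⟩
        · rw [mem_chil]; exact ⟨hus, hpar⟩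
        · rw [ih]; exact ⟨hu, by omega⟩

theorem po_flat (R : Rooted G s par dep) (h : ℕ) (ih : ∀ v, PO par dep (pre s par h v))
    (v : Fin n) (c : List (Fin n)) (hc : ∀ u ∈ c, u ≠ s ∧ par u = v) (hnd : c.Nodup) :
    PO par dep (c.flatMap (pre s par h)) := by
  induction c with
  | nil => trivial
  | cons u c ihc =>
    rw [List.flatMap_cons]
    rw [List.nodup_cons] at hnd
    have hu := hc u (by simp)
    have hdu := R.dep_par u hu.1
    rw [hu.2] at hdu
    refine po_append R _ _ (ih u) (ihc (fun x hx => hc x (by simp [hx])) hnd.2) ?_ ?_
    · intro x hx y hy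
      rw [List.mem_flatMap] at hy
      obtain ⟨u', hu', hy⟩ := hy
      rw [mem_pre R] at hx hy
      have hu'c := hc u' (by simp [hu'])
      have hdu' := R.dep_par u' hu'c.1
      rw [hu'c.2] at hdu'
      have hne : u ≠ u' := by
        rintro rfl
        exact hnd.1 hu'
      constructor
      · intro hxy
        exact hne (R.anc_unique (R.anc_trans hx.1 hxy) hy.1 (by omega))
      · intro hyx
        exact hne (R.anc_unique hx.1 (R.anc_trans hy.1 hyx) (by omega))
    · intro x hx w hw
      rw [mem_pre R] at hx
      have hxd := R.anc_dep hx.1
      cases h with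
      | zero => omega
      | succ h =>
        cases c with
        | nil => simp at hw
        | cons u' c =>
          rw [List.flatMap_cons, pre, List.cons_append, List.head?_cons, Option.some.injEq] at hw
          subst hw
          have hu'c := hc u' (by simp)
          have hdu' := R.dep_par u' hu'c.1
          rw [hu'c.2] at hdu'
          omega

theorem po_pre (R : Rooted G s par dep) (h : ℕ) (v : Fin n) : PO par dep (pre s par h v) := by
  induction h generalizing v with
  | zero => trivial
  | succ h ih =>
    rw [pre]
    set L := (chil s par v).flatMap (pre s par h) with hL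
    have hmem : ∀ w ∈ L, Anc par dep v w ∧ dep v < dep w := by
      intro w hw
      rw [hL, List.mem_flatMap] at hw
      obtain ⟨u, hu, hw⟩ := hw
      rw [mem_chil] at hu
      obtain ⟨hus, rfl⟩ := hu
      rw [mem_pre R] at hw
      have hd := R.dep_par u hus
      have hd2 := R.anc_dep hw.1
      refine ⟨R.anc_trans ?_ hw.1, by omega⟩
      rw [R.anc_iff hus]
      exact Or.inr (anc_refl _)
    have ht : twl (dep v) (L.map dep) = L.length := by
      rw [twl_all, List.length_map]
      intro x hx
      rw [List.mem_map] at hx
      obtain ⟨w, hw, rfl⟩ := hx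
      exact (hmem w hw).2
    refine ⟨?_, ?_, ?_, ?_⟩
    · intro w hw
      exact (hmem w (List.mem_of_mem_take hw)).1
    · intro w hw
      rw [ht, List.drop_length] at hw
      simp at hw
    · intro w hw hwv
      have h1 := R.anc_dep hwv
      have h2 := (hmem w hw).2
      omega
    · apply po_flat R h ih v
      · intro u hu
        rwa [mem_chil] at hu
      · exact (List.nodup_finRange n).filter _

theorem dep_lt (R : Rooted G s par dep) (w : Fin n) : dep w < n := by
  have hinj : Function.Injective fun i : Fin (dep w + 1) => par^[(i : ℕ)] w := by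
    intro i j hij
    have h1 := R.dep_iterate w i (by omega)
    have h2 := R.dep_iterate w j (by omega)
    have hij' : par^[(i : ℕ)] w = par^[(j : ℕ)] w := hij
    rw [hij', h2] at h1
    ext
    have := i.2
    have := j.2
    omega
  have := Fintype.card_le_of_injective _ hinj
  simp only [Fintype.card_fin] at this
  omega

theorem pre_full (R : Rooted G s par dep) (w : Fin n) : w ∈ pre s par n s := by
  rw [mem_pre R]
  refine ⟨R.anc_root w, ?_⟩
  have := dep_lt R w
  omega

theorem length_pre_le (R : Rooted G s par dep) (h : ℕ) (v : Fin n) :
    (pre s par h v).length ≤ n := by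
  have := (po_nodup _ (po_pre R h v)).length_le_card
  rwa [Fintype.card_fin] at this

end Pool.Agent.FFT
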