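import Mathlib
import Pool.Agent.CDom.Parse
import Pool.Agent.FFT.DPDefs
import Pool.Agent.FFT.Pre

/-!
# MODULE FFT/DepTab  (MP_4a4383_lc)

The rounds `dstep` compute the depths of the vertices in preorder.

Proofs.
* `adjR_mat`: `Pool.Agent.CDom.Prog.getD_matG`, `getD_map_finRange`.
* `dT_spec`: induction on `h`.  The entry `(p, v)` of `dT R n (h + 1)` is
  `(0 :: (filter ...).flatMap ...).take n`.  The filtered list of `u : ℕ` is
  `(chil s par v).map Fin.val`: `List.range n = (List.finRange n).map Fin.val`
  (`List.map_coe_finRange_eq_range`), `adjR = decide (G.Adj v u)`, and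
  `G.Adj v u ∧ u ≠ p ↔ u ≠ s ∧ par u = v` for `p = par v`, `v ≠ s` (`Rooted.adj_iff`,
  `par u ≠ ...` by `dep_par`: if `par u = v` then `u ≠ par v`), and for `p = v = s` (no parent:
  `G.Adj s u ↔ u ≠ s ∧ par u = s`).  By the induction hypothesis for the child `u` and `p = v`
  (`par u = v`, `u ≠ s`) the inner list is `(pre h u).map (dep w - dep u)`, plus one it is
  `dep w - dep v` (`dep u = dep v + 1 ≤ dep w`).  For `h = 0` the inner list is `[]`
  (`(dT R n 0) = []`, `getD` of the empty list).  `take n` does nothing by `length_pre_le`.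
* `depths_spec`: `h = n`; for `n = 0` there is no `s`.  `dep s = 0`.
-/

set_option autoImplicit false

namespace Pool.Agent.FFT

open Pool.Agent.Hhelper73.Fire Pool.Agent.CDom

variable {n : ℕ} {G : SimpleGraph (Fin n)} {s : Fin n} {par : Fin n → Fin n} {dep : Fin n → ℕ}

open Classical in
theorem adjR_mat (G : SimpleGraph (Fin n)) (L : List (List Bool)) (u v : Fin n) :
    adjR (matG G ++ L) u v = decide (G.Adj u v) := by
  rw [adjR, Prog.getD_matG]
  exact Prog.getD_map_finRange (fun j => decide (G.Adj u j)) v

theorem getD_map_range {α : Type} (m : ℕ) (f : ℕ → α) (i : ℕ) (hi : i < m) (d : α) :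
    ((List.range m).map f).getD i d = f i := by
  have h : i < ((List.range m).map f).length := by rw [List.length_map, List.length_range]; exact hi
  rw [List.getD_eq_getElem _ _ h, List.getElem_map, List.getElem_range]

theorem filter_chil (R : Rooted G s par dep) (L : List (List Bool)) (p v : Fin n)
    (hp : (v ≠ s ∧ p = par v) ∨ (v = s ∧ p = s)) :
    (List.range n).filter (fun u => adjR (matG G ++ L) v u && !decide (u = (p : ℕ)))
      = (chil s par v).map Fin.val := by
  rw [← List.map_coe_finRange_eq_range, List.filter_map, chil]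
  congr 1
  apply List.filter_congr
  intro u _
  simp only [Function.comp_apply]
  rw [adjR_mat, Bool.eq_iff_iff]
  simp only [Bool.and_eq_true, Bool.not_eq_true', decide_eq_true_eq, decide_eq_false_iff_not]
  rw [R.adj_iff]
  constructor
  · rintro ⟨(h1 | ⟨h1, h2⟩), h3⟩
    · exact h1
    · rcases hp with ⟨h4, h5⟩ | ⟨h4, h5⟩
      · exfalso
        apply h3
        rw [h5, h2]
      · exact absurd h4 h1
  · rintro ⟨h1, h2⟩
    refine ⟨Or.inl ⟨h1, h2⟩, ?_⟩
    intro h3
    have h3' : u = p := Fin.ext h3
    rcases hp with ⟨h4, h5⟩ | ⟨h4, h5⟩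
    · have hd1 := R.dep_par u h1
      have hd2 := R.dep_par v h4
      rw [h2] at hd1
      rw [← h5, ← h3'] at hd2
      omega
    · exact h1 (h3'.trans h5)

theorem dT_spec (R : Rooted G s par dep) (L : List (List Bool)) (h : ℕ) (p v : Fin n)
    (hp : (v ≠ s ∧ p = par v) ∨ (v = s ∧ p = s)) :
    ((dT (matG G ++ L) n h).getD p []).getD v [] =
      (pre s par h v).map fun w => dep w - dep v := by
  induction h generalizing p v with
  | zero => simp [dT, pre]
  | succ h ih =>
    have hstep : dT (matG G ++ L) n (h + 1) = dstep (matG G ++ L) n (dT (matG G ++ L) n h) := by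
      unfold dT
      rw [Function.iterate_succ_apply']
    rw [hstep, dstep, getD_map_range _ _ _ p.2, getD_map_range _ _ _ v.2,
      filter_chil R L p v hp, List.flatMap_map]
    have hfl : (chil s par v).flatMap (fun u : Fin n =>
        (((dT (matG G ++ L) n h).getD v []).getD u []).map fun x => x + 1)
        = ((chil s par v).flatMap (pre s par h)).map fun w => dep w - dep v := by
      rw [List.map_flatMap]
      apply List.flatMap_congr
      intro u hu
      rw [mem_chil] at hu
      rw [ih v u (Or.inl ⟨hu.1, hu.2.symm⟩), List.map_map]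
      apply List.map_congr_left
      intro w hw
      rw [mem_pre R] at hw
      have hd := R.dep_par u hu.1
      have hd2 := R.anc_dep hw.1
      rw [hu.2] at hd
      simp only [Function.comp_apply]
      omega
    rw [hfl]
    have hpre : (0 :: ((chil s par v).flatMap (pre s par h)).map fun w => dep w - dep v)
        = (pre s par (h + 1) v).map fun w => dep w - dep v := by
      rw [pre, List.map_cons, Nat.sub_self]
    rw [hpre]
    apply List.take_of_length_le
    rw [List.length_map]
    exact length_pre_le R (h + 1) v

theorem depths_spec (R : Rooted G s par dep) (L : List (List Bool)) :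
    depths (matG G ++ L) n s = (pre s par n s).map dep := by
  rw [depths, dT_spec R L n s s (Or.inr ⟨rfl, rfl⟩)]
  apply List.map_congr_left
  intro w _
  rw [R.dep_root, Nat.sub_zero]

end Pool.Agent.FFT
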