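import Pool.Agent.Hhelper73.Fire

/-!
# Saving `k` vertices of a tree: `⌈√(2k)⌉` protections suffice
-/

namespace Pool.Agent.FFT.SavSqrt

open Pool.Agent.Hhelper73.Fire

variable {V : Type*} [Fintype V] [DecidableEq V]

omit [Fintype V] [DecidableEq V] in
theorem adm_mono {dep : V → ℕ} {P Q : Finset V} (h : P ⊆ Q) (hQ : Adm dep Q) : Adm dep P :=
  ⟨hQ.1.mono (by exact_mod_cast h), fun v hv => hQ.2 v (h hv)⟩

omit [Fintype V] in
theorem adm_insert {dep : V → ℕ} {P : Finset V} (hP : Adm dep P) (u : V) (hu : 1 ≤ dep u)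
    (hne : ∀ v ∈ P, dep v ≠ dep u) : Adm dep (insert u P) := by
  refine ⟨?_, ?_⟩
  · intro v hv v' hv' h
    simp only [Finset.coe_insert, Set.mem_insert_iff, Finset.mem_coe] at hv hv'
    rcases hv with rfl | hv <;> rcases hv' with rfl | hv'
    · rfl
    · exact absurd h.symm (hne _ hv')
    · exact absurd h (hne _ hv)
    · exact hP.1 hv hv' h
  · intro v hv
    rw [Finset.mem_insert] at hv
    rcases hv with rfl | hv
    · exact hu
    · exact hP.2 v hv

omit [Fintype V] [DecidableEq V] in
theorem card_le_of_adm {dep : V → ℕ} {P : Finset V} (hP : Adm dep P) (t : ℕ)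
    (ht : ∀ v ∈ P, dep v ≤ t) : P.card ≤ t := by
  have : P.card ≤ (Finset.Icc 1 t).card := by
    apply Finset.card_le_card_of_injOn dep
    · intro v hv
      have h1 := hP.2 v hv
      have h2 := ht v hv
      simp only [Finset.coe_Icc, Set.mem_Icc]
      omega
    · exact hP.1
  simpa using this

variable {G : SimpleGraph V} {s : V} {par : V → V} {dep : V → ℕ}

/-- The exchange argument. -/
theorem exchange (R : Rooted G s par dep) (k j : ℕ) (hk : 2 * k ≤ j * (j + 1))
    (P : Finset V) (hP : Adm dep P) (hs : k ≤ (sav par dep P).card) :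
    ∃ P', Adm dep P' ∧ P'.card ≤ j ∧ k ≤ (sav par dep P').card := by
  classical
  -- an optimal admissible set of minimal cardinality
  obtain ⟨P1, hP1, hP1max⟩ := Finset.exists_max_image
    (Finset.univ.filter (fun Q : Finset V => Adm dep Q)) (fun Q => (sav par dep Q).card)
    ⟨P, by simp [hP]⟩
  obtain ⟨P0, hP0, hP0min⟩ := Finset.exists_min_image
    (Finset.univ.filter (fun Q : Finset V => Adm dep Q ∧
      (sav par dep Q).card = (sav par dep P1).card)) (fun Q => Q.card)
    ⟨P1, by simpa using hP1⟩
  simp only [Finset.mem_filter, Finset.mem_univ, true_and] at hP0 hP0min hP1max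
  obtain ⟨hadm, hcard⟩ := hP0
  have hmax : ∀ Q, Adm dep Q → (sav par dep Q).card ≤ (sav par dep P0).card := by
    intro Q hQ
    rw [hcard]
    exact hP1max Q hQ
  have hmin : ∀ Q, Adm dep Q → (sav par dep Q).card = (sav par dep P0).card →
      P0.card ≤ Q.card := by
    intro Q hQ h
    exact hP0min Q ⟨hQ, by rw [h, hcard]⟩
  have hk0 : k ≤ (sav par dep P0).card := hs.trans (hmax P hP)
  rcases P0.eq_empty_or_nonempty with hemp | hne
  · exact ⟨P0, hadm, by simp [hemp], hk0⟩
  obtain ⟨a, haP, hamax⟩ := Finset.exists_max_image P0 dep hne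
  rcases Nat.lt_or_ge j (dep a) with hjt | hjt
  swap
  · exact ⟨P0, hadm, (card_le_of_adm hadm _ hamax).trans hjt, hk0⟩
  -- the path to `a`
  have hex : ∀ l, ∃ v, l ≤ dep a → Anc par dep v a ∧ dep v = l := by
    intro l
    by_cases hl : l ≤ dep a
    · obtain ⟨v, hv⟩ := R.exists_anc a l hl
      exact ⟨v, fun _ => hv⟩
    · exact ⟨a, fun h => absurd h hl⟩
  choose u hu using hex
  have hunot : ∀ l, l < dep a → u l ∉ sav par dep P0 := by
    intro l hl hmem
    rw [mem_sav] at hmem
    obtain ⟨v, hvP, hv⟩ := hmem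
    have h1 := hu l hl.le
    have hva : Anc par dep v a := R.anc_trans hv h1.1
    have hvd := R.anc_dep hv
    have hvne : v ≠ a := by
      rintro rfl
      omega
    have hsame : sav par dep (P0.erase a) = sav par dep P0 := by
      ext w
      rw [mem_sav, mem_sav]
      constructor
      · rintro ⟨x, hx, hxw⟩
        exact ⟨x, Finset.mem_of_mem_erase hx, hxw⟩
      · rintro ⟨x, hx, hxw⟩
        by_cases hxa : x = a
        · subst hxa
          exact ⟨v, Finset.mem_erase.mpr ⟨hvne, hvP⟩, R.anc_trans hva hxw⟩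
        · exact ⟨x, Finset.mem_erase.mpr ⟨hxa, hx⟩, hxw⟩
    have := hmin (P0.erase a) (adm_mono (Finset.erase_subset _ _) hadm) (by rw [hsame])
    have := Finset.card_erase_lt_of_mem haP
    omega
  -- every level below `dep a` is used
  have hlev : ∀ i, ∃ v, 1 ≤ i → i < dep a → v ∈ P0 ∧ dep v = i := by
    intro i
    by_cases hi : 1 ≤ i ∧ i < dep a
    · by_contra hcon
      push Not at hcon
      have hall : ∀ v ∈ P0, dep v ≠ i := by
        intro v hv
        exact (hcon v).2.2 hv
      have hui := hu i hi.2.le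
      have hQ : Adm dep (insert (u i) P0) := by
        apply adm_insert hadm _ (by omega)
        intro v hv
        rw [hui.2]
        exact hall v hv
      have hlt : (sav par dep P0).card < (sav par dep (insert (u i) P0)).card := by
        apply Finset.card_lt_card
        refine ⟨?_, fun hsub => hunot i hi.2 (hsub ?_)⟩
        · intro w hw
          rw [mem_sav] at hw ⊢
          obtain ⟨v, hv, hvw⟩ := hw
          exact ⟨v, Finset.mem_insert_of_mem hv, hvw⟩
        · rw [mem_sav]
          exact ⟨u i, Finset.mem_insert_self _ _, anc_refl _⟩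
      have := hmax _ hQ
      omega
    · exact ⟨a, fun h1 h2 => absurd ⟨h1, h2⟩ hi⟩
  choose v hv using hlev
  -- private parts
  let priv : V → Finset V := fun x => sav par dep P0 \ sav par dep (P0.erase x)
  have hpriv : ∀ i, 1 ≤ i → i < dep a → dep a - i ≤ (priv (v i)).card := by
    intro i h1 h2
    obtain ⟨hvP, hvd⟩ := hv i h1 h2
    have hui := hu i h2.le
    have hQ : Adm dep (insert (u i) (P0.erase (v i))) := by
      apply adm_insert (adm_mono (Finset.erase_subset _ _) hadm) _ (by omega)
      intro x hx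
      rw [hui.2, ← hvd]
      intro h
      exact (Finset.mem_erase.mp hx).1 (hadm.1 (Finset.mem_of_mem_erase hx) hvP h)
    have hsub : (sav par dep P0 \ priv (v i)) ∪ (Finset.Ico i (dep a)).image u ⊆
        sav par dep (insert (u i) (P0.erase (v i))) := by
      intro w hw
      rw [Finset.mem_union] at hw
      rcases hw with hw | hw
      · simp only [priv, Finset.mem_sdiff, not_and, not_not] at hw
        have := hw.2 hw.1
        rw [mem_sav] at this ⊢
        obtain ⟨x, hx, hxw⟩ := this
        exact ⟨x, Finset.mem_insert_of_mem hx, hxw⟩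
      · rw [Finset.mem_image] at hw
        obtain ⟨l, hl, rfl⟩ := hw
        rw [Finset.mem_Ico] at hl
        rw [mem_sav]
        have hul := hu l hl.2.le
        refine ⟨u i, Finset.mem_insert_self _ _, R.anc_total hui.1 hul.1 (by omega)⟩
    have hdisj : Disjoint (sav par dep P0 \ priv (v i)) ((Finset.Ico i (dep a)).image u) := by
      rw [Finset.disjoint_left]
      intro w hw hw'
      rw [Finset.mem_image] at hw'
      obtain ⟨l, hl, rfl⟩ := hw'
      rw [Finset.mem_Ico] at hl
      exact hunot l hl.2 (Finset.mem_sdiff.mp hw).1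
    have himg : ((Finset.Ico i (dep a)).image u).card = dep a - i := by
      rw [Finset.card_image_of_injOn, Nat.card_Ico]
      intro l hl l' hl' h
      simp only [Finset.coe_Ico, Set.mem_Ico] at hl hl'
      have e1 := (hu l hl.2.le).2
      have e2 := (hu l' hl'.2.le).2
      rw [h] at e1
      omega
    have hpc : (sav par dep P0 \ priv (v i)).card =
        (sav par dep P0).card - (priv (v i)).card :=
      Finset.card_sdiff_of_subset Finset.sdiff_subset
    have h3 := Finset.card_le_card hsub
    rw [Finset.card_union_of_disjoint hdisj, himg, hpc] at h3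
    have h4 := hmax _ hQ
    have h5 : (priv (v i)).card ≤ (sav par dep P0).card :=
      Finset.card_le_card Finset.sdiff_subset
    omega
  -- the first `j` protections
  refine ⟨P0.filter (fun x => dep x ≤ j), adm_mono (Finset.filter_subset _ _) hadm,
    card_le_of_adm (adm_mono (Finset.filter_subset _ _) hadm) j
      (fun x hx => (Finset.mem_filter.mp hx).2), ?_⟩
  have hsub : (Finset.Icc 1 j).biUnion (fun i => priv (v i)) ⊆
      sav par dep (P0.filter (fun x => dep x ≤ j)) := by
    intro w hw
    rw [Finset.mem_biUnion] at hw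
    obtain ⟨i, hi, hw⟩ := hw
    rw [Finset.mem_Icc] at hi
    obtain ⟨hvP, hvd⟩ := hv i hi.1 (by omega)
    simp only [priv, Finset.mem_sdiff] at hw
    obtain ⟨hw1, hw2⟩ := hw
    rw [mem_sav] at hw1 hw2 ⊢
    obtain ⟨x, hx, hxw⟩ := hw1
    have hxv : x = v i := by
      by_contra hne
      exact hw2 ⟨x, Finset.mem_erase.mpr ⟨hne, hx⟩, hxw⟩
    subst hxv
    exact ⟨v i, Finset.mem_filter.mpr ⟨hx, by omega⟩, hxw⟩
  have hcardU : ((Finset.Icc 1 j).biUnion (fun i => priv (v i))).card =
      ∑ i ∈ Finset.Icc 1 j, (priv (v i)).card := by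
    apply Finset.card_biUnion
    intro i hi i' hi' hii
    rw [Finset.mem_coe, Finset.mem_Icc] at hi hi'
    rw [Function.onFun, Finset.disjoint_left]
    intro w hw hw'
    simp only [priv, Finset.mem_sdiff] at hw hw'
    obtain ⟨hvP, hvd⟩ := hv i hi.1 (by omega)
    obtain ⟨hvP', hvd'⟩ := hv i' hi'.1 (by omega)
    obtain ⟨hw1, hw2⟩ := hw
    obtain ⟨_, hw3⟩ := hw'
    rw [mem_sav] at hw1 hw2 hw3
    obtain ⟨x, hx, hxw⟩ := hw1
    have hxv : x = v i := by
      by_contra hne
      exact hw2 ⟨x, Finset.mem_erase.mpr ⟨hne, hx⟩, hxw⟩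
    have hxv' : x = v i' := by
      by_contra hne
      exact hw3 ⟨x, Finset.mem_erase.mpr ⟨hne, hx⟩, hxw⟩
    apply hii
    rw [← hvd, ← hvd', ← hxv, ← hxv']
  have hsum : j * (j + 1) ≤ 2 * ∑ i ∈ Finset.Icc 1 j, (priv (v i)).card := by
    have h1 : ∀ m ≤ j, 2 * ∑ i ∈ Finset.Icc 1 m, (j + 1 - i) + (j - m) * (j - m + 1) =
        j * (j + 1) := by
      intro m
      induction m with
      | zero => intro _; simp
      | succ m ih =>
        intro hm
        have := ih (by omega)
        rw [Finset.sum_Icc_succ_top (by omega), ← this]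
        obtain ⟨d, rfl⟩ : ∃ d, j = m + 1 + d := ⟨j - (m + 1), by omega⟩
        rw [show m + 1 + d - (m + 1) = d by omega, show m + 1 + d + 1 - (m + 1) = d + 1 by omega,
          show m + 1 + d - m = d + 1 by omega]
        ring
    have h2 := h1 j le_rfl
    rw [Nat.sub_self, Nat.zero_mul, Nat.add_zero] at h2
    rw [← h2]
    apply Nat.mul_le_mul_left
    apply Finset.sum_le_sum
    intro i hi
    rw [Finset.mem_Icc] at hi
    exact (show j + 1 - i ≤ dep a - i by omega).trans (hpriv i hi.1 (by omega))
  have := Finset.card_le_card hsub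
  omega

omit [DecidableEq V] in
/-- **Main theorem.** Let `G` be a finite tree and let the fire start at `s`. If
`k ≤ j (j + 1) / 2` (for instance `j = ⌈√(2k)⌉`), then some strategy saves at least `k` vertices if
and only if some strategy protecting at most `j` vertices saves at least `k` vertices. -/
theorem result (G : SimpleGraph V) (hG : G.IsTree) (s : V) (k j : ℕ)
    (hk : 2 * k ≤ j * (j + 1)) :
    (∃ L : List V, IsStrategy G s L ∧ k ≤ (saved G s L).ncard) ↔
      (∃ L : List V, IsStrategy G s L ∧ L.length ≤ j ∧ k ≤ (saved G s L).ncard) := by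
  classical
  constructor
  · rintro ⟨L, -, hL⟩
    obtain ⟨par, dep, R⟩ := exists_rooted hG s
    obtain ⟨P, hP, -, hsub⟩ := R.normalize L
    have h1 : k ≤ (sav par dep P).card := by
      refine hL.trans ?_
      rw [← Set.ncard_coe_finset]
      exact Set.ncard_le_ncard hsub (Finset.finite_toSet _)
    obtain ⟨P', hP', hc, hk'⟩ := exchange R k j hk P hP h1
    obtain ⟨L', hL'1, hL'2, hL'3⟩ := R.realize P' hP'
    refine ⟨L', hL'1, by omega, hk'.trans ?_⟩
    rw [← Set.ncard_coe_finset]
    apply Set.ncard_le_ncard _ (Set.toFinite _)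
    intro w hw
    exact (hL'3 w).mpr hw
  · rintro ⟨L, h1, -, h2⟩
    exact ⟨L, h1, h2⟩

end Pool.Agent.FFT.SavSqrt
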