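import Mathlib
import Pool.Agent.FFT.StmtDefs
import Pool.Agent.FFT.SavSqrt

/-!
# MODULE FFT/FireIff  (MP_4a4383_lc)

The three problems in terms of admissible sets.

Proofs.  `Rooted.normalize` (from a strategy `L` to an admissible `P` with `saved ⊆ sav P`, levels
`≤ L.length`), `Rooted.realize` (from an admissible `P` to a strategy with the same saved vertices,
`L.length = P.card`), `card_le_of_adm` of `SavingSqrt.lean` (`P.card ≤ t` if all levels are `≤ t`).
`(saved G s L).ncard ≤ (sav par dep P).card`: `Set.ncard_le_ncard`, `Set.ncard_coe_finset`;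
`(univ \ sav).card = n - sav.card`: `Finset.card_univ_diff` / `Finset.card_sdiff_of_subset`.
`saving_iff`: `Pool.Agent.FFT.SavSqrt.result` with `j`, `exists_rooted` is not
needed (`R` is given; `hG` is needed for `result`).
-/

set_option autoImplicit false

namespace Pool.Agent.FFT

open Pool.Agent.Hhelper73.Fire

variable {n : ℕ} {G : SimpleGraph (Fin n)} {s : Fin n} {par : Fin n → Fin n} {dep : Fin n → ℕ}

/-- a strategy gives an admissible set saving at least as much -/
theorem FireIff.ofStrat (R : Rooted G s par dep) (L : List (Fin n)) :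
    ∃ P : Finset (Fin n), Adm dep P ∧ (∀ v ∈ P, dep v ≤ L.length) ∧
      (saved G s L).ncard ≤ (sav par dep P).card := by
  obtain ⟨P, hP, h1, hsub⟩ := R.normalize L
  refine ⟨P, hP, h1, ?_⟩
  rw [← Set.ncard_coe_finset]
  exact Set.ncard_le_ncard hsub (Finset.finite_toSet _)

/-- an admissible set gives a strategy saving the same number of vertices -/
theorem FireIff.toStrat (R : Rooted G s par dep) {P : Finset (Fin n)} (hP : Adm dep P) :
    ∃ L : List (Fin n), IsStrategy G s L ∧ L.length = P.card ∧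
      (saved G s L).ncard = (sav par dep P).card := by
  obtain ⟨L, h1, h2, h3⟩ := R.realize P hP
  refine ⟨L, h1, h2, ?_⟩
  rw [← Set.ncard_coe_finset]
  congr 1
  ext w
  rw [Finset.mem_coe]
  exact h3 w

theorem FireIff.card_compl (P : Finset (Fin n)) :
    (Finset.univ \ P).card + P.card = n := by
  have h := Finset.card_sdiff_add_card_eq_card (Finset.subset_univ P)
  rwa [Finset.card_univ, Fintype.card_fin] at h

theorem allBut_iff (R : Rooted G s par dep) (k : ℕ) :
    SavingAllBut G s k ↔ ∃ P : Finset (Fin n), Adm dep P ∧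
      (Finset.univ \ sav par dep P).card ≤ k := by
  constructor
  · rintro ⟨L, -, hL⟩
    obtain ⟨P, hP, -, h2⟩ := FireIff.ofStrat R L
    have h3 := FireIff.card_compl (sav par dep P)
    exact ⟨P, hP, by omega⟩
  · rintro ⟨P, hP, hk⟩
    obtain ⟨L, h1, -, h2⟩ := FireIff.toStrat R hP
    have h3 := FireIff.card_compl (sav par dep P)
    exact ⟨L, h1, by omega⟩

theorem maxProt_iff (R : Rooted G s par dep) (k K : ℕ) :
    MaxProt G s k K ↔ ∃ P : Finset (Fin n), Adm dep P ∧ (∀ v ∈ P, dep v ≤ k) ∧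
      K ≤ (sav par dep P).card := by
  constructor
  · rintro ⟨L, -, hlen, hL⟩
    obtain ⟨P, hP, h1, h2⟩ := FireIff.ofStrat R L
    exact ⟨P, hP, fun v hv => (h1 v hv).trans hlen, hL.trans h2⟩
  · rintro ⟨P, hP, hlev, hK⟩
    obtain ⟨L, h1, hlen, h2⟩ := FireIff.toStrat R hP
    refine ⟨L, h1, ?_, by omega⟩
    rw [hlen]
    exact Pool.Agent.FFT.SavSqrt.card_le_of_adm hP k hlev

theorem saving_iff (hG : G.IsTree) (R : Rooted G s par dep) (k j : ℕ)
    (hk : 2 * k ≤ j * (j + 1)) :
    Saving G s k ↔ ∃ P : Finset (Fin n), Adm dep P ∧ (∀ v ∈ P, dep v ≤ j) ∧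
      k ≤ (sav par dep P).card := by
  constructor
  · rintro ⟨L, hL, hk1⟩
    obtain ⟨L', -, hlen, hk2⟩ :=
      (Pool.Agent.FFT.SavSqrt.result G hG s k j hk).1 ⟨L, hL, hk1⟩
    obtain ⟨P, hP, h1, h2⟩ := FireIff.ofStrat R L'
    exact ⟨P, hP, fun v hv => (h1 v hv).trans hlen, hk2.trans h2⟩
  · rintro ⟨P, hP, -, hK⟩
    obtain ⟨L, h1, -, h2⟩ := FireIff.toStrat R hP
    exact ⟨L, h1, by omega⟩

end Pool.Agent.FFT
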