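import Mathlib
import Pool.Agent.Lib.PolyTime.Lib

/-!
# MODULE FFT/MT  (MP_4a4383_lc)

Running time polynomial in a measure `M` of the argument (not only in its size), for programs of the
library `Pool.Agent.Lib.PolyTime`.

Model: `Pool/Agent/CDom/QTime.lean` (the same lemmas for quasi-polynomial bounds `QB`, `QTime`):
copy and replace `qp k (M a)` by `p.eval (M a)`.

Proofs.
* `MB.*`: as the lemmas `PB.*` of `Lib/PolyTime/Lib.lean` (`PB g` is `MB (fun a => sz a) g`).
* `MT.size`: `Code.size_eval_le`.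
* `MT.of_pt`: cost `≤ p.eval (sz a)`, `MB.poly`.
* `MT.comp_pt`: code `Code.comp cg cf`; cost `cost_f + cost_g (enc (f a)) + 1`,
  `cost_g (enc (f a)) ≤ p.eval (sz (f a))`, `MB.poly` with `MT.size`.
* `MT.pair`: `Code.pair`.
* `two_pow_code`: a code `c` with `c.eval (enc n) = enc (2 ^ n)` and `c.cost (enc n) ≤ p.eval (2 ^ n)`:
  `Code.iter` of a code `cd` of the doubling `x ↦ x + x` (`PolyTime.add PolyTime.id PolyTime.id`)
  applied to `Code.pair Code.id (constCode (enc 1))`; `(eval cd)^[i] (enc 1) = enc (2 ^ i)`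
  (`Code.eval_iter_cons`, `len_enc_nat`), every summand of the cost is at most
  `p.eval (2 * 2 ^ n + 1) + 10 * 2 ^ n + 10` and `n ≤ 2 ^ n`, `sz n = 2 n + 1`.
* `MT.two_pow`: compose the code of `m` with `two_pow_code`.
-/

set_option autoImplicit false

namespace Pool.Agent.FFT

open Pool.Agent.Lib.PT

/-- `g` is bounded by a polynomial in `M` -/
def MB {α : Type*} (M g : α → ℕ) : Prop := ∃ p : Polynomial ℕ, ∀ a, g a ≤ p.eval (M a)

section MB

variable {α : Type*} {M N g h : α → ℕ}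

theorem MB.mono (hg : MB M g) (hh : ∀ a, h a ≤ g a) : MB M h := by
  obtain ⟨p, hp⟩ := hg
  exact ⟨p, fun a => (hh a).trans (hp a)⟩

theorem MB.const (c : ℕ) : MB M (fun _ => c) := by
  exact ⟨Polynomial.C c, fun a => by simp⟩

theorem MB.self : MB M M := by
  exact ⟨Polynomial.X, fun a => by simp⟩

theorem MB.add (hg : MB M g) (hh : MB M h) : MB M (fun a => g a + h a) := by
  obtain ⟨p, hp⟩ := hg
  obtain ⟨q, hq⟩ := hh
  refine ⟨p + q, fun a => ?_⟩
  rw [Polynomial.eval_add]
  exact Nat.add_le_add (hp a) (hq a)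

theorem MB.mul (hg : MB M g) (hh : MB M h) : MB M (fun a => g a * h a) := by
  obtain ⟨p, hp⟩ := hg
  obtain ⟨q, hq⟩ := hh
  refine ⟨p * q, fun a => ?_⟩
  rw [Polynomial.eval_mul]
  exact Nat.mul_le_mul (hp a) (hq a)

theorem MB.poly (p : Polynomial ℕ) (hg : MB M g) : MB M (fun a => p.eval (g a)) := by
  obtain ⟨q, hq⟩ := hg
  refine ⟨p.comp q, fun a => ?_⟩
  rw [Polynomial.eval_comp]
  exact poly_mono p (hq a)

theorem MB.trans (hN : MB M N) (hg : MB N g) : MB M g := by
  obtain ⟨p, hp⟩ := hg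
  exact (MB.poly p hN).mono hp

end MB

/-- computable by a program whose cost is polynomially bounded in `M` -/
def MT {α β : Type*} [Enc α] [Enc β] (M : α → ℕ) (f : α → β) : Prop :=
  ∃ c : Code, (∀ a, c.eval (enc a) = enc (f a)) ∧ MB M (fun a => c.cost (enc a))

section MT

variable {α β γ : Type*} [Enc α] [Enc β] [Enc γ] {M : α → ℕ}

theorem MT.size {f : α → β} (hM : MB M (fun a => sz a)) (hf : MT M f) :
    MB M (fun a => sz (f a)) := by
  obtain ⟨c, hc, hp⟩ := hf
  refine (hM.add hp).mono fun a => ?_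
  have := Code.size_eval_le c (enc a)
  rw [hc] at this
  exact this

theorem MT.of_pt {f : α → β} (hM : MB M (fun a => sz a)) (hf : PolyTime f) : MT M f := by
  obtain ⟨c, hc, p, hp⟩ := hf
  exact ⟨c, hc, (MB.poly p hM).mono hp⟩

theorem MT.congr {f g : α → β} (hf : MT M f) (h : ∀ a, f a = g a) : MT M g := by
  have : f = g := funext h
  rwa [← this]

theorem MT.comp_pt {g : β → γ} {f : α → β} (hM : MB M (fun a => sz a)) (hg : PolyTime g)
    (hf : MT M f) : MT M (fun a => g (f a)) := by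
  have hs := hf.size hM
  obtain ⟨cg, hcg, p, hp⟩ := hg
  obtain ⟨cf, hcf, hpf⟩ := hf
  refine ⟨Code.comp cg cf, fun a => by rw [Code.eval_comp, hcf, hcg], ?_⟩
  have h2 : MB M (fun a : α => cg.cost (enc (f a))) :=
    (MB.poly p hs).mono fun a => hp (f a)
  exact ((hpf.add h2).add (MB.const 1)).mono fun a => by simp [Code.cost, hcf]

theorem MT.pair {f : α → β} {g : α → γ} (hM : MB M (fun a => sz a)) (hf : MT M f)
    (hg : MT M g) : MT M (fun a => (f a, g a)) := by
  have hs1 := hf.size hM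
  have hs2 := hg.size hM
  obtain ⟨cf, hcf, h1⟩ := hf
  obtain ⟨cg, hcg, h2⟩ := hg
  refine ⟨Code.pair cf cg, fun a => by rw [Code.eval_pair, hcf, hcg]; rfl, ?_⟩
  exact (((((h1.add h2).add hM).add hs1).add hs2).add (MB.const 1)).mono fun a => by
    simp [Code.cost, hcf, hcg, sz]

theorem two_pow_code : ∃ c : Code, (∀ n : ℕ, c.eval (enc n) = enc (2 ^ n)) ∧
    ∃ p : Polynomial ℕ, ∀ n : ℕ, c.cost (enc n) ≤ p.eval (2 ^ n) := by
  obtain ⟨cd, hcd, p, hp⟩ := PolyTime.add (PolyTime.id (α := ℕ)) (PolyTime.id (α := ℕ))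
  obtain ⟨q, hq⟩ := constCode_cost (enc 1)
  have hit : ∀ i : ℕ, (Code.eval cd)^[i] (enc 1) = enc (2 ^ i) := by
    intro i
    induction i with
    | zero => rfl
    | succ i ih =>
      rw [Function.iterate_succ_apply', ih, hcd, pow_succ, mul_two]
  refine ⟨Code.comp (Code.iter cd) (Code.pair Code.id (constCode (enc 1))), fun n => ?_, ?_⟩
  · rw [Code.eval_comp, Code.eval_pair, Code.eval_id, constCode_eval, Code.eval_iter_cons,
      len_enc_nat, hit]
  · refine ⟨q.comp (2 * Polynomial.X + 1) + 10 * Polynomial.X + 10 +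
      Polynomial.X * (p.comp (2 * Polynomial.X + 1) + 10 * Polynomial.X + 10), fun n => ?_⟩
    have hn : n < 2 ^ n := Nat.lt_two_pow_self
    have es : ∀ m : ℕ, (enc m).size = 2 * m + 1 := sz_nat
    have hstep : ∀ i ∈ Finset.range n, (Code.cost cd ((Code.eval cd)^[i] (enc 1)) +
        ((Code.eval cd)^[i] (enc 1)).size + ((Code.eval cd)^[i + 1] (enc 1)).size +
        (enc n).size + 1) ≤ p.eval (2 * 2 ^ n + 1) + 10 * 2 ^ n + 10 := by
      intro i hi
      have hi' := Finset.mem_range.mp hi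
      have h1 : 2 ^ i ≤ 2 ^ n := Nat.pow_le_pow_right (by norm_num) hi'.le
      have h2 : 2 ^ (i + 1) ≤ 2 ^ n := Nat.pow_le_pow_right (by norm_num) hi'
      rw [hit, hit, es, es, es]
      have h3 := hp (2 ^ i)
      rw [es] at h3
      have h4 := poly_mono p (show 2 * 2 ^ i + 1 ≤ 2 * 2 ^ n + 1 by omega)
      omega
    have hsum := Finset.sum_le_sum hstep
    rw [Finset.sum_const, Finset.card_range, smul_eq_mul] at hsum
    have hq1 := hq (enc n)
    rw [es] at hq1
    have hq2 := poly_mono q (show 2 * n + 1 ≤ 2 * 2 ^ n + 1 by omega)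
    have hmul : n * (p.eval (2 * 2 ^ n + 1) + 10 * 2 ^ n + 10) ≤
        2 ^ n * (p.eval (2 * 2 ^ n + 1) + 10 * 2 ^ n + 10) := Nat.mul_le_mul_right _ hn.le
    have hev : Polynomial.eval (2 ^ n) (q.comp (2 * Polynomial.X + 1) + 10 * Polynomial.X + 10 +
      Polynomial.X * (p.comp (2 * Polynomial.X + 1) + 10 * Polynomial.X + 10)) =
        q.eval (2 * 2 ^ n + 1) + 10 * 2 ^ n + 10 +
          2 ^ n * (p.eval (2 * 2 ^ n + 1) + 10 * 2 ^ n + 10) := by
      simp [Polynomial.eval_comp]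
    rw [hev]
    have e1 : (enc (1 : ℕ)).size = 3 := es 1
    simp only [Code.cost, Code.eval_pair, Code.eval_id, constCode_eval, len_enc_nat, es n, e1] at hsum ⊢
    omega

theorem MT.two_pow {m : α → ℕ} (hm : MT M m) (h : MB M (fun a => 2 ^ m a)) :
    MT M (fun a => 2 ^ m a) := by
  obtain ⟨c, hc, p, hp⟩ := two_pow_code
  obtain ⟨cm, hcm, hpm⟩ := hm
  refine ⟨Code.comp c cm, fun a => by rw [Code.eval_comp, hcm, hc], ?_⟩
  have h2 : MB M (fun a : α => c.cost (enc (m a))) :=
    (MB.poly p h).mono fun a => hp (m a)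
  exact ((hpm.add h2).add (MB.const 1)).mono fun a => by simp [Code.cost, hcm]

end MT

end Pool.Agent.FFT
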