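import Mathlib
import Pool.Agent.Lib.PolyTime.Lib
import Pool.Agent.CDom.TM
import Pool.Agent.FFT.MT

/-!
# MODULE FFT/MachP  (MP_4a4383_lc)

From programs with parameters to Turing machines: the exponent `D` of the running time does not
depend on the parameter `a` (only the constant factor `C` does).

Proof.
* `constCode_cost_le`: induction on `t` (`constCode`, `Code.cost`, `constCode_eval`); for
  `t = cons a b` the cost is `cost_a + cost_b + x.size + a.size + b.size + 1`.
* `machine_param`: let `c` be the code of `g`, `c.cost (enc x) ≤ p.eval (M x)`, and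
  `sz x ≤ q.eval (M x)`.  For a fixed `a` take the code
  `c' = Code.comp c (Code.pair (constCode (enc a)) Code.id)`; `c'.eval (enc w) = enc (g (a, w))`,
  `c'.cost (enc w) = cost (constCode (enc a)) (enc w) + 1 + sz w + sz a + sz w + 1 +
  c.cost (enc (a, w)) + 1 ≤ K_a * (sz w + 1) + c.cost (enc (a, w))` and `sz w ≤ sz (a, w)`.
  `Pool.Agent.CDom.code_machine c'` gives a machine with at most
  `7 * w.length + 40 * c'.cost (enc w) + 9 * (g (a, w)).length + 13` steps, where
  `w.length ≤ sz w` and `(g (a, w)).length ≤ sz (g (a, w)) ≤ sz (a, w) + c.cost (enc (a, w))`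
  (`length_lt_sz`, `Code.size_eval_le`).  So the number of steps is at most
  `C_a * (P.eval (M (a, w)) + 1)` for a polynomial `P` that does not depend on `a`, and
  `P.eval x + 1 ≤ C * (x + 1) ^ D` (`poly_le_pow`, induction on `P`).  Use `Outputs.mono` below.
* `poly_le_pow`: `Polynomial.induction_on'`; sum: `D = D₁ + D₂`, `C = C₁ + C₂`,
  monomial `c x ^ n ≤ c (x + 1) ^ n`.
-/

set_option autoImplicit false

namespace Pool.Agent.FFT

open Pool.Agent.Lib.PT Pool.Agent.CDom

theorem outputs_mono {T : Turing.FinTM2} {i : T.Γ T.k₀ ≃ Bool} {o : T.Γ T.k₁ ≃ Bool}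
    {w w' : List Bool} {t t' : ℕ} (h : Outputs T i o w w' t) (ht : t ≤ t') :
    Outputs T i o w w' t' := by
  obtain ⟨h⟩ := h
  exact ⟨⟨⟨h.steps, h.evals_in_steps⟩, h.steps_le_m.trans ht⟩⟩

theorem constCode_cost_le (t x : T) :
    (constCode t).cost x ≤ t.size * (x.size + t.size + 1) := by
  induction t with
  | nil => simp [constCode, Code.cost]
  | cons a b iha ihb =>
    simp only [constCode, Code.cost, constCode_eval, T.size_cons]
    have h1 : a.size * (x.size + a.size + 1) ≤ a.size * (x.size + (a.size + b.size + 1) + 1) :=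
      Nat.mul_le_mul_left _ (by omega)
    have h2 : b.size * (x.size + b.size + 1) ≤ b.size * (x.size + (a.size + b.size + 1) + 1) :=
      Nat.mul_le_mul_left _ (by omega)
    have h3 : (a.size + b.size + 1) * (x.size + (a.size + b.size + 1) + 1) =
        a.size * (x.size + (a.size + b.size + 1) + 1) +
          b.size * (x.size + (a.size + b.size + 1) + 1) +
          (x.size + (a.size + b.size + 1) + 1) := by ring
    omega

theorem poly_le_pow (P : Polynomial ℕ) : ∃ C D : ℕ, ∀ x : ℕ, P.eval x ≤ C * (x + 1) ^ D := by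
  induction P using Polynomial.induction_on' with
  | add p q hp hq =>
    obtain ⟨C₁, D₁, h₁⟩ := hp
    obtain ⟨C₂, D₂, h₂⟩ := hq
    refine ⟨C₁ + C₂, D₁ + D₂, fun x => ?_⟩
    rw [Polynomial.eval_add, add_mul]
    have e1 : (x + 1) ^ D₁ ≤ (x + 1) ^ (D₁ + D₂) := Nat.pow_le_pow_right (by omega) (by omega)
    have e2 : (x + 1) ^ D₂ ≤ (x + 1) ^ (D₁ + D₂) := Nat.pow_le_pow_right (by omega) (by omega)
    exact Nat.add_le_add ((h₁ x).trans (Nat.mul_le_mul_left _ e1))
      ((h₂ x).trans (Nat.mul_le_mul_left _ e2))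
  | monomial n c =>
    refine ⟨c, n, fun x => ?_⟩
    rw [Polynomial.eval_monomial]
    exact Nat.mul_le_mul_left _ (Nat.pow_le_pow_left (by omega) _)

theorem machine_param {α : Type*} [Enc α] {M : α × List Bool → ℕ}
    {g : α × List Bool → List Bool} (hM : MB M (fun x => sz x)) (hg : MT M g) :
    ∃ D : ℕ, ∀ a : α, ∃ (T : Turing.FinTM2) (i : T.Γ T.k₀ ≃ Bool) (o : T.Γ T.k₁ ≃ Bool) (C : ℕ),
      ∀ w : List Bool, Outputs T i o w (g (a, w)) (C * (M (a, w) + 1) ^ D) := by
  obtain ⟨q, hq⟩ := hM
  obtain ⟨c, hc, p, hp⟩ := hg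
  obtain ⟨C₀, D, hD⟩ := poly_le_pow (p + q)
  refine ⟨D, fun a => ?_⟩
  obtain ⟨T, i, o, hT⟩ := code_machine (Code.comp c (Code.pair (constCode (enc a)) Code.id))
  refine ⟨T, i, o, (118 + 40 * (sz a * sz a + 3 * sz a + 4)) * C₀, fun w => ?_⟩
  have hev : (Code.comp c (Code.pair (constCode (enc a)) Code.id)).eval (enc w) =
      enc (g (a, w)) := by
    rw [Code.eval_comp, Code.eval_pair, constCode_eval, Code.eval_id]
    exact hc (a, w)
  refine outputs_mono (hT w (g (a, w)) hev) ?_
  have hev2 : (Code.pair (constCode (enc a)) Code.id).eval (enc w) = enc (a, w) := by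
    rw [Code.eval_pair, constCode_eval, Code.eval_id]
    rfl
  have hcost : (Code.comp c (Code.pair (constCode (enc a)) Code.id)).cost (enc w) =
      ((constCode (enc a)).cost (enc w) + 1 + sz w + sz a + sz w + 1) +
        c.cost (enc (a, w)) + 1 := by
    rw [Code.cost, hev2, Code.cost, constCode_eval, Code.eval_id, Code.cost]
    rfl
  rw [hcost]
  have h1 : (constCode (enc a)).cost (enc w) ≤ sz a * (sz w + sz a + 1) :=
    constCode_cost_le _ _
  have h2 : w.length < sz w := length_lt_sz w
  have h3 : (g (a, w)).length < sz (g (a, w)) := length_lt_sz _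
  have h4 : sz (g (a, w)) ≤ sz (a, w) + c.cost (enc (a, w)) := by
    have := Code.size_eval_le c (enc (a, w))
    rw [hc] at this
    exact this
  have h5 : sz (a, w) = sz a + sz w + 1 := rfl
  have h6 : sz (a, w) + c.cost (enc (a, w)) ≤ C₀ * (M (a, w) + 1) ^ D := by
    refine le_trans ?_ (hD _)
    rw [Polynomial.eval_add, add_comm]
    exact Nat.add_le_add (hp _) (hq _)
  have hw : 0 < sz w := sz_pos w
  set A := sz a with hA
  set W := sz w with hW
  set S := sz (a, w) with hS
  set k := c.cost (enc (a, w)) with hk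
  rw [mul_assoc]
  refine le_trans ?_ (Nat.mul_le_mul_left _ h6)
  have h7 : A * (W + A + 1) + 1 + W + A + W + 1 ≤ (A * A + 3 * A + 4) * S := by
    rw [h5]
    nlinarith [Nat.zero_le A, Nat.zero_le W, mul_nonneg (Nat.zero_le A) (Nat.zero_le W),
      Nat.zero_le (A * A * A), Nat.zero_le (A * A * W), Nat.zero_le (A * A), Nat.zero_le (A * W)]
  have h8 : 7 * w.length + 40 * ((constCode (enc a)).cost (enc w) + 1 + W + A + W + 1 + k + 1) +
      9 * (g (a, w)).length + 13 ≤ 7 * S + 40 * ((A * A + 3 * A + 4) * S + k + 1) +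
        9 * (S + k) + 13 := by
    omega
  refine h8.trans ?_
  have h9 : 1 ≤ S := by omega
  have h10 : (118 + 40 * (A * A + 3 * A + 4)) * (S + k) =
      118 * S + 118 * k + 40 * ((A * A + 3 * A + 4) * S) + 40 * ((A * A + 3 * A + 4) * k) := by
    ring
  rw [h10]
  omega

end Pool.Agent.FFT
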