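import Mathlib
import Pool.Agent.Lib.PolyTime.Lib
import Pool.Agent.FFT.DPDefs

/-!
# MODULE FFT/PTtab  (MP_4a4383_lc)

The table is polynomial-time.

Proofs: closure lemmas of `Pool/Agent/Lib/PolyTime/Lib.lean` (see `Pool/Agent/CDom/PT1.lean` for the
style).
* `pt_twl`: `PolyTime.foldr_add'` (adds at most `2`).
* `pt_subsC`: `PolyTime.iterate`; after `i` steps the list has at most `cap + 1` elements, each of
  length at most `i` (`sz ≤ 4 i + 1`), `sz_le_of_length`; `i ≤ m a`.
* `pt_look`, `pt_newRow`: `zip`, `filter`, `map`, `headD`, `getD`, `cond`, `max`, `add`.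
* `le_tab`: all numbers in all rows of `(tab S D).2` are at most `D.length`: induction on `D`:
  `look S row X` is `0` or an entry of `row`; the row at index `i` of `(tab S D).2` is bounded by
  `D.length - i` (prove this stronger form; rows outside the list are `[]`), so
  `1 + twl d D + (D.length - twl d D) ≤ D.length + 1` with `twl_le`.  Every row has length
  `S.length`, there are `D.length + 1` rows.
* `pt_tab`: `PolyTime.foldr` with the semantic bound: the state after the suffix `D'` of `D` is
  `tab S D'` (`tab` of a `drop` is the fold), of size at most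
  `sz D' + (D'.length + 1) * (S.length * (2 D'.length + 2) + 3) + ...`.
-/

set_option autoImplicit false

namespace Pool.Agent.FFT

open Pool.Agent.Lib.PT

variable {α : Type} [Enc α]

theorem pt_twl {d : α → ℕ} {D : α → List ℕ} (hd : PolyTime d) (hD : PolyTime D) :
    PolyTime (fun a => twl (d a) (D a)) := by
  unfold twl
  exact PolyTime.foldr_add' (f := fun (a : α) (x : ℕ) (m : ℕ) => bif decide (d a < x) then m + 1 else 0)
    hD (PolyTime.const 0)
    (((hd.comp PolyTime.id.fst).lt PolyTime.id.snd.fst).cond
      (PolyTime.id.snd.snd.add (PolyTime.const 1)) (PolyTime.const 0))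
    ⟨Polynomial.C 2, fun a x y => by
      rw [Polynomial.eval_C]
      cases decide (d a < y)
      · simp
      · simp only [cond_true, sz_nat]; omega⟩

theorem pt_clr {d : α → ℕ} {X : α → List Bool} (hd : PolyTime d) (hX : PolyTime X) :
    PolyTime (fun a => clr (d a) (X a)) := by
  unfold clr
  exact (PolyTime.take hd hX).append ((PolyTime.const false).cons
    (PolyTime.drop (hd.add (PolyTime.const 1)) hX))

theorem subsC_len (c i : ℕ) : ((fun L : List (List Bool) =>
    (L.flatMap fun x => [false :: x, true :: x]).take c)^[i] [[]]).length ≤ c + 1 := by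
  cases i with
  | zero => simp
  | succ i =>
    rw [Function.iterate_succ_apply', List.length_take]
    omega

theorem subsC_mem (c i : ℕ) : ∀ x ∈ (fun L : List (List Bool) =>
    (L.flatMap fun x => [false :: x, true :: x]).take c)^[i] [[]], x.length ≤ i := by
  induction i with
  | zero =>
    intro x hx
    rw [Function.iterate_zero, id, List.mem_singleton] at hx
    rw [hx]
    exact le_rfl
  | succ i ih =>
    intro x hx
    rw [Function.iterate_succ_apply'] at hx
    have h1 := List.mem_of_mem_take hx
    rw [List.mem_flatMap] at h1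
    obtain ⟨y, hy, h2⟩ := h1
    have h3 := ih y hy
    rw [List.mem_cons, List.mem_singleton] at h2
    rcases h2 with rfl | rfl
    · rw [List.length_cons]; omega
    · rw [List.length_cons]; omega

theorem pt_subsC {c m : α → ℕ} (hc : PolyTime c) (hm : PolyTime m) :
    PolyTime (fun a => subsC (c a) (m a)) := by
  unfold subsC
  obtain ⟨qc, hqc⟩ := hc.sz_le
  obtain ⟨qm, hqm⟩ := hm.sz_le
  refine PolyTime.iterate (f := fun (a : α) (L : List (List Bool)) =>
    (L.flatMap fun x => [false :: x, true :: x]).take (c a)) hm (PolyTime.const [[]]) ?_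
    ⟨(qc + Polynomial.C 1) * (Polynomial.C 4 * qm + Polynomial.C 2) + Polynomial.C 1, fun a i hi => ?_⟩
  · refine PolyTime.take (hc.comp PolyTime.id.fst) ?_
    exact PolyTime.flatMap (f := fun (_ : α × List (List Bool)) (x : List Bool) =>
      [false :: x, true :: x]) PolyTime.id.snd
      (((PolyTime.const false).cons PolyTime.id.snd).cons
        (((PolyTime.const true).cons PolyTime.id.snd).cons (PolyTime.const [])))
  · simp only [Polynomial.eval_add, Polynomial.eval_mul, Polynomial.eval_C]
    have h1 := hqc a
    have h2 := hqm a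
    rw [sz_nat] at h1 h2
    have h3 := subsC_len (c a) i
    have h4 : ∀ x ∈ (fun L : List (List Bool) =>
        (L.flatMap fun x => [false :: x, true :: x]).take (c a))^[i] [[]], sz x ≤ 4 * i + 1 :=
      fun x hx => (sz_bools x).trans (by have := subsC_mem (c a) i x hx; omega)
    refine (sz_le_of_length h3 h4).trans ?_
    refine Nat.add_le_add_right (Nat.mul_le_mul ?_ ?_) 1
    · omega
    · omega

theorem pt_eqB {x y : α → List Bool} (hx : PolyTime x) (hy : PolyTime y) :
    PolyTime (fun a => eqB (x a) (y a)) := by
  unfold eqB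
  exact (hx.length.eqNat hy.length).and
    (PolyTime.all (f := fun _ p => p.1 == p.2) (hx.zip hy)
      (PolyTime.id.snd.fst.beqBool PolyTime.id.snd.snd))

theorem pt_look {S : α → List (List Bool)} {r : α → List ℕ} {X : α → List Bool}
    (hS : PolyTime S) (hr : PolyTime r) (hX : PolyTime X) :
    PolyTime (fun a => look (S a) (r a) (X a)) := by
  unfold look
  refine PolyTime.headD ?_ (PolyTime.const 0)
  refine PolyTime.map (f := fun (_ : α) (p : List Bool × ℕ) => p.2) ?_ PolyTime.id.snd.snd
  exact PolyTime.filter (f := fun (a : α) (p : List Bool × ℕ) => eqB p.1 (X a)) (hS.zip hr)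
    (pt_eqB PolyTime.id.snd.fst (hX.comp PolyTime.id.fst))

theorem pt_newRow {S : α → List (List Bool)} {d : α → ℕ} {D : α → List ℕ}
    {T : α → List (List ℕ)} (hS : PolyTime S) (hd : PolyTime d) (hD : PolyTime D)
    (hT : PolyTime T) : PolyTime (fun a => newRow (S a) (d a) (D a) (T a)) := by
  unfold newRow
  have hS' : PolyTime (fun z : α × List Bool => S z.1) := hS.comp PolyTime.id.fst
  have hd' : PolyTime (fun z : α × List Bool => d z.1) := hd.comp PolyTime.id.fst
  have hD' : PolyTime (fun z : α × List Bool => D z.1) := hD.comp PolyTime.id.fst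
  have hT' : PolyTime (fun z : α × List Bool => T z.1) := hT.comp PolyTime.id.fst
  have hX' : PolyTime (fun z : α × List Bool => z.2) := PolyTime.id.snd
  have ht : PolyTime (fun z : α × List Bool => twl (d z.1) (D z.1)) := pt_twl hd' hD'
  refine PolyTime.map (f := fun (a : α) (X : List Bool) => max (look (S a) ((T a).getD 0 []) X)
    (bif X.getD (d a) false then 1 + twl (d a) (D a) +
      look (S a) ((T a).getD (twl (d a) (D a)) []) (clr (d a) X) else 0)) hS ?_
  refine (pt_look hS' (hT'.getD (PolyTime.const 0) (PolyTime.const [])) hX').max ?_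
  refine (hX'.getD hd' (PolyTime.const false)).cond ?_ (PolyTime.const 0)
  exact ((PolyTime.const 1).add ht).add
    (pt_look hS' (hT'.getD ht (PolyTime.const [])) (pt_clr hd' hX'))

theorem look_le (S : List (List Bool)) (row : List ℕ) (X : List Bool) (B : ℕ)
    (h : ∀ y ∈ row, y ≤ B) : look S row X ≤ B := by
  unfold look
  rcases hl : ((S.zip row).filter fun p => eqB p.1 X).map fun p => p.2 with _ | ⟨y, l⟩
  · rw [hl]
    exact Nat.zero_le _
  · rw [hl]
    have h1 : y ∈ ((S.zip row).filter fun p => eqB p.1 X).map fun p => p.2 := by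
      rw [hl]
      exact List.mem_cons_self
    rw [List.mem_map] at h1
    obtain ⟨p, hp, rfl⟩ := h1
    have h2 := (List.mem_filter.1 hp).1
    obtain ⟨p1, p2⟩ := p
    exact h p2 (List.of_mem_zip h2).2

theorem tab_fst (S : List (List Bool)) (D : List ℕ) : (tab S D).1 = D := by
  induction D with
  | nil => rfl
  | cons d D ih => rw [tab_cons, ih]

theorem tab_length (S : List (List Bool)) (D : List ℕ) : (tab S D).2.length = D.length + 1 := by
  induction D with
  | nil => rfl
  | cons d D ih => rw [tab_cons, List.length_cons, ih, List.length_cons]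

theorem tab_row_length (S : List (List Bool)) (D : List ℕ) :
    ∀ r ∈ (tab S D).2, r.length = S.length := by
  induction D with
  | nil =>
    intro r hr
    have h1 : (tab S []).2 = [S.map fun _ => 0] := rfl
    rw [h1, List.mem_singleton] at hr
    rw [hr, List.length_map]
  | cons d D ih =>
    intro r hr
    rw [tab_cons, List.mem_cons] at hr
    rcases hr with rfl | hr
    · rw [newRow, List.length_map]
    · exact ih r hr

theorem le_tab (S : List (List Bool)) (D : List ℕ) (i : ℕ) (x : ℕ)
    (hx : x ∈ (tab S D).2.getD i []) : x ≤ D.length - i := by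
  induction D generalizing i x with
  | nil =>
    cases i with
    | zero =>
      have h1 : (tab S []).2.getD 0 [] = S.map fun _ => 0 := rfl
      rw [h1, List.mem_map] at hx
      obtain ⟨_, _, rfl⟩ := hx
      exact Nat.zero_le _
    | succ i =>
      have h1 : (tab S []).2.getD (i + 1) [] = [] := rfl
      rw [h1] at hx
      exact absurd hx List.not_mem_nil
  | cons d D ih =>
    rw [tab_cons] at hx
    cases i with
    | zero =>
      rw [List.getD_cons_zero, newRow, List.mem_map] at hx
      obtain ⟨X, _, rfl⟩ := hx
      rw [tab_fst, List.length_cons, Nat.sub_zero]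
      refine max_le ?_ ?_
      · have h2 := look_le S _ X D.length (fun y hy => ih 0 y hy)
        omega
      · cases X.getD d false
        · exact Nat.zero_le _
        · rw [cond_true]
          have h3 := look_le S _ (clr d X) (D.length - twl d D) (fun y hy => ih (twl d D) y hy)
          have h4 := twl_le d D
          omega
    | succ i =>
      rw [List.getD_cons_succ] at hx
      have h2 := ih i x hx
      rw [List.length_cons]
      omega

theorem sz_tab_le (S : List (List Bool)) (D : List ℕ) : sz (tab S D) ≤
    sz D + (D.length + 2) * (S.length * (2 * D.length + 2) + 3) + 3 := by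
  have h0 : sz (tab S D) = sz (tab S D).1 + sz (tab S D).2 + 1 := rfl
  have h1 : ∀ r ∈ (tab S D).2, sz r ≤ S.length * (2 * D.length + 1 + 1) + 1 := by
    intro r hr
    refine sz_le_of_length (tab_row_length S D r hr).le fun x hx => ?_
    rw [sz_nat]
    obtain ⟨i, hi, rfl⟩ := List.getElem_of_mem hr
    have h2 := le_tab S D i x (by rwa [List.getD_eq_getElem _ _ hi])
    omega
  have h2 := sz_le_of_length (tab_length S D).le h1
  rw [h0, tab_fst]
  nlinarith [h2, Nat.zero_le (S.length * (2 * D.length + 2))]

theorem pt_tab {S : α → List (List Bool)} {D : α → List ℕ} (hS : PolyTime S) (hD : PolyTime D) :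
    PolyTime (fun a => tab (S a) (D a)) := by
  unfold tab
  obtain ⟨qS, hqS⟩ := hS.sz_le
  obtain ⟨qD, hqD⟩ := hD.sz_le
  refine PolyTime.foldr (f := fun (a : α) (d : ℕ) (s : List ℕ × List (List ℕ)) =>
    (d :: s.1, newRow (S a) d s.1 s.2 :: s.2)) hD ?_ ?_
    ⟨qD + (qD + Polynomial.C 2) * (qS * (Polynomial.C 2 * qD + Polynomial.C 2) + Polynomial.C 3) +
      Polynomial.C 3, fun a i _ => ?_⟩
  · exact (PolyTime.const []).pair ((PolyTime.map (f := fun (_ : α) (_ : List Bool) => 0) hS
      (PolyTime.const 0)).cons (PolyTime.const []))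
  · exact (PolyTime.id.snd.fst.cons PolyTime.id.snd.snd.fst).pair
      ((pt_newRow (hS.comp PolyTime.id.fst) PolyTime.id.snd.fst PolyTime.id.snd.snd.fst
        PolyTime.id.snd.snd.snd).cons PolyTime.id.snd.snd.snd)
  · simp only [Polynomial.eval_add, Polynomial.eval_mul, Polynomial.eval_C]
    have h1 : sz (tab (S a) ((D a).drop i)) ≤ _ := sz_tab_le (S a) ((D a).drop i)
    refine h1.trans ?_
    have h2 : ((D a).drop i).length ≤ qD.eval (sz a) := by
      have h3 := length_lt_sz (D a)
      have h4 := hqD a
      rw [List.length_drop]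
      omega
    have h5 : (S a).length ≤ qS.eval (sz a) := by
      have h3 := length_lt_sz (S a)
      have h4 := hqS a
      omega
    have h6 : sz ((D a).drop i) ≤ qD.eval (sz a) := (sz_drop_le _ _).trans (hqD a)
    refine Nat.add_le_add_right (Nat.add_le_add h6 (Nat.mul_le_mul (Nat.add_le_add_right h2 2)
      (Nat.add_le_add_right (Nat.mul_le_mul h5 ?_) 3))) 3
    omega

end Pool.Agent.FFT
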