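import Mathlib
import Pool.Agent.Lib.PolyTime.Lib
import Pool.Agent.FFT.DPDefs
import Pool.Agent.FFT.PTtab

/-!
# MODULE FFT/PTdp  (MP_4a4383_lc)

The algorithm `dp` is polynomial-time in its input (rows, bound `cap`).

Proofs: closure lemmas.
* `pt_dT`: `PolyTime.iterate`.  After `i` steps: `[]`, or `n` rows of `n` lists of at most `n`
  numbers; the numbers are at most `i` (each round adds one to old numbers; missing entries are
  `[]`), and `i ≤ h a`.  `sz_le_of_length` three times.
* `pt_jOf`: `filter`, `range`, `mul`, `length`.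
* `pt_dp`: `pt_look`, `pt_tab`, `pt_subsC`, `pt_depths`, `getD`, `headD`, `replicate`, `le`.
-/

set_option autoImplicit false

namespace Pool.Agent.FFT

open Pool.Agent.Lib.PT

variable {α : Type} [Enc α]

theorem pt_adjR {R : α → List (List Bool)} {i j : α → ℕ} (hR : PolyTime R) (hi : PolyTime i)
    (hj : PolyTime j) : PolyTime (fun a => adjR (R a) (i a) (j a)) :=
  PolyTime.getD (PolyTime.getD hR hi (PolyTime.const [])) hj (PolyTime.const false)

theorem pt_dstep {R : α → List (List Bool)} {n : α → ℕ} {T : α → List (List (List ℕ))}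
    (hR : PolyTime R) (hn : PolyTime n) (hT : PolyTime T) :
    PolyTime (fun a => dstep (R a) (n a) (T a)) := by
  unfold dstep
  refine PolyTime.map (f := fun a p => (List.range (n a)).map fun v =>
    (0 :: ((List.range (n a)).filter fun u => adjR (R a) v u && !decide (u = p)).flatMap fun u =>
      (((T a).getD v []).getD u []).map fun x => x + 1).take (n a)) (PolyTime.range hn) ?_
  refine PolyTime.map (f := fun (q : α × ℕ) v =>
    (0 :: ((List.range (n q.1)).filter fun u => adjR (R q.1) v u && !decide (u = q.2)).flatMap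
      fun u => (((T q.1).getD v []).getD u []).map fun x => x + 1).take (n q.1))
    (PolyTime.range (hn.comp PolyTime.id.fst)) ?_
  refine PolyTime.take (hn.comp PolyTime.id.fst.fst) ((PolyTime.const 0).cons ?_)
  refine PolyTime.flatMap (f := fun (r : (α × ℕ) × ℕ) u =>
    (((T r.1.1).getD r.2 []).getD u []).map fun x => x + 1) ?_ ?_
  · refine PolyTime.filter (f := fun (r : (α × ℕ) × ℕ) u =>
      adjR (R r.1.1) r.2 u && !decide (u = r.1.2))
      (PolyTime.range (hn.comp PolyTime.id.fst.fst)) ?_
    exact PolyTime.and (pt_adjR (hR.comp PolyTime.id.fst.fst.fst) PolyTime.id.fst.snd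
      PolyTime.id.snd) (PolyTime.eqNat PolyTime.id.snd PolyTime.id.fst.fst.snd).not
  · refine PolyTime.map (f := fun (_ : ((α × ℕ) × ℕ) × ℕ) (x : ℕ) => x + 1) ?_
      PolyTime.id.snd.succ
    exact PolyTime.getD (PolyTime.getD (hT.comp PolyTime.id.fst.fst.fst) PolyTime.id.fst.snd
      (PolyTime.const [])) PolyTime.id.snd (PolyTime.const [])

theorem ptdp_mem_getD {β : Type} {l : List (List β)} {i : ℕ} {x : β} (h : x ∈ l.getD i []) :
    ∃ r ∈ l, x ∈ r := by
  rw [List.getD_eq_getElem?_getD] at h
  cases hi : l[i]? with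
  | none => rw [hi] at h; simp at h
  | some r =>
    rw [hi] at h
    exact ⟨r, List.mem_of_getElem? hi, h⟩

theorem ptdp_bound (R : List (List Bool)) (n i : ℕ) :
    ((dstep R n)^[i] []).length ≤ n ∧ ∀ row ∈ (dstep R n)^[i] [], row.length ≤ n ∧
      ∀ l ∈ row, l.length ≤ n ∧ ∀ x ∈ l, x ≤ i := by
  induction i with
  | zero => simp
  | succ i ih =>
    rw [Function.iterate_succ_apply']
    unfold dstep at ih ⊢
    refine ⟨by simp, ?_⟩
    intro row hrow
    obtain ⟨p, -, rfl⟩ := List.mem_map.mp hrow
    refine ⟨by simp, ?_⟩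
    intro l hl
    obtain ⟨v, -, rfl⟩ := List.mem_map.mp hl
    refine ⟨List.length_take_le _ _, ?_⟩
    intro x hx
    rcases List.mem_cons.mp (List.mem_of_mem_take hx) with rfl | hx
    · exact Nat.zero_le _
    · obtain ⟨u, -, hu⟩ := List.mem_flatMap.mp hx
      obtain ⟨y, hy, rfl⟩ := List.mem_map.mp hu
      have h1 : ∃ r ∈ (((fun T : List (List (List ℕ)) => (List.range n).map fun p =>
          (List.range n).map fun v => (0 :: ((List.range n).filter fun u =>
            adjR R v u && !decide (u = p)).flatMap fun u =>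
              ((T.getD v []).getD u []).map fun x => x + 1).take n)^[i] []).getD v []), y ∈ r :=
        ptdp_mem_getD hy
      obtain ⟨r, hr, hyr⟩ := h1
      obtain ⟨row', hrow', hr'⟩ := ptdp_mem_getD hr
      exact Nat.succ_le_succ (((ih.2 row' hrow').2 r hr').2 y hyr)

theorem pt_dT {R : α → List (List Bool)} {n h : α → ℕ}
    (hR : PolyTime R) (hn : PolyTime n) (hh : PolyTime h) :
    PolyTime (fun a => dT (R a) (n a) (h a)) := by
  unfold dT
  have hnB : PB n := hn.size_bdd.mono fun a => by rw [sz_nat]; omega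
  have hhB : PB h := hh.size_bdd.mono fun a => by rw [sz_nat]; omega
  have hB : PB (fun a => n a * (n a * (n a * (2 * h a + 1 + 1) + 1 + 1) + 1 + 1) + 1) :=
    (hnB.mul (((hnB.mul (((hnB.mul ((((PB.const 2).mul hhB).add (PB.const 1)).add
      (PB.const 1))).add (PB.const 1)).add (PB.const 1))).add (PB.const 1)).add
      (PB.const 1))).add (PB.const 1)
  obtain ⟨p, hp⟩ := hB
  refine PolyTime.iterate (f := fun a => dstep (R a) (n a)) hh (PolyTime.const [])
    (pt_dstep (hR.comp PolyTime.id.fst) (hn.comp PolyTime.id.fst) PolyTime.id.snd)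
    ⟨p, fun a i hi => (le_trans ?_ (hp a))⟩
  obtain ⟨h1, h2⟩ := ptdp_bound (R a) (n a) i
  refine sz_le_of_length h1 fun row hrow => ?_
  obtain ⟨h3, h4⟩ := h2 row hrow
  refine sz_le_of_length h3 fun l hl => ?_
  obtain ⟨h5, h6⟩ := h4 l hl
  refine sz_le_of_length h5 fun x hx => ?_
  rw [sz_nat]
  have := h6 x hx
  omega

theorem pt_depths {R : α → List (List Bool)} {n s : α → ℕ}
    (hR : PolyTime R) (hn : PolyTime n) (hs : PolyTime s) :
    PolyTime (fun a => depths (R a) (n a) (s a)) :=
  PolyTime.getD (PolyTime.getD (pt_dT hR hn hn) hs (PolyTime.const [])) hs (PolyTime.const [])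

theorem pt_jOf {k : α → ℕ} (hk : PolyTime k) : PolyTime (fun a => jOf (k a)) := by
  unfold jOf
  refine PolyTime.length ?_
  refine PolyTime.filter (f := fun a i => decide (i * i ≤ 2 * k a))
    (PolyTime.range ((PolyTime.const 2).mul hk).succ) ?_
  exact PolyTime.le (PolyTime.id.snd.mul PolyTime.id.snd)
    ((PolyTime.const 2).mul (hk.comp PolyTime.id.fst))

theorem pt_dp {R : α → List (List Bool)} {c : α → ℕ} (hR : PolyTime R) (hc : PolyTime c) :
    PolyTime (fun a => dp (R a) (c a)) := by
  unfold dp
  have hlen : PolyTime (fun a => ((R a).headD []).length) := (hR.headD (PolyTime.const [])).length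
  have hk : PolyTime (fun a => ((R a).getD (((R a).headD []).length + 1) []).length) :=
    (PolyTime.getD hR hlen.succ (PolyTime.const [])).length
  have hs : PolyTime (fun a => ((R a).getD (((R a).headD []).length) []).length) :=
    (PolyTime.getD hR hlen (PolyTime.const [])).length
  have hS : PolyTime (fun a => subsC (c a)
      (jOf ((R a).getD (((R a).headD []).length + 1) []).length + 1)) :=
    pt_subsC hc (pt_jOf hk).succ
  refine PolyTime.le hk (pt_look hS (PolyTime.getD (pt_tab hS (pt_depths hR hlen hs)).snd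
    (PolyTime.const 0) (PolyTime.const [])) ?_)
  exact (PolyTime.const false).cons (PolyTime.replicate (pt_jOf hk) (PolyTime.const true))

end Pool.Agent.FFT
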