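import Mathlib
import Pool.Agent.Lib.PolyTime.Lib
import Pool.Agent.CDom.Parse
import Pool.Agent.FFT.MT
import Pool.Agent.FFT.MachP
import Pool.Agent.FFT.FireIff
import Pool.Agent.FFT.DPDefs
import Pool.Agent.FFT.DPval
import Pool.Agent.FFT.DPtab
import Pool.Agent.FFT.Pre
import Pool.Agent.FFT.DepTab
import Pool.Agent.FFT.PTdp

/-!
# FFT/Alg  (MP_4a4383_lc): saving `k` vertices of a tree in `2 ^ O(√k) n ^ O(1)` steps
-/

set_option autoImplicit false

namespace Pool.Agent.FFT

open Pool.Agent.Hhelper73.Fire Pool.Agent.CDom Pool.Agent.Lib.PT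

theorem headD_len {n : ℕ} (G : SimpleGraph (Fin n)) (s : Fin n) (L : List (List Bool)) :
    ((matG G ++ L).headD []).length = n := by
  have hn : 0 < n := s.pos
  obtain ⟨m, rfl⟩ : ∃ m, n = m + 1 := ⟨n - 1, by omega⟩
  unfold matG
  rw [List.finRange_succ, List.map_cons, List.cons_append, List.headD_cons, List.length_map,
    List.length_cons, List.length_map, List.length_finRange]

theorem getD_n {n : ℕ} (G : SimpleGraph (Fin n)) (a b : List Bool) :
    (matG G ++ [a, b]).getD n [] = a := by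
  rw [List.getD_append_right _ _ _ _ (by rw [Prog.length_matG]), Prog.length_matG, Nat.sub_self]
  rfl

theorem getD_n1 {n : ℕ} (G : SimpleGraph (Fin n)) (a b : List Bool) :
    (matG G ++ [a, b]).getD (n + 1) [] = b := by
  rw [List.getD_append_right _ _ _ _ (by rw [Prog.length_matG]; omega), Prog.length_matG,
    Nat.add_sub_cancel_left]
  rfl

theorem length_un (m : ℕ) : (un m).length = m := by
  unfold un
  exact List.length_replicate

theorem getD_levels (j d : ℕ) :
    (false :: List.replicate j true).getD d false = true ↔ 1 ≤ d ∧ d ≤ j := by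
  cases d with
  | zero => simp
  | succ d =>
    rw [List.getD_cons_succ]
    rcases Nat.lt_or_ge d j with h | h
    · rw [List.getD_eq_getElem _ _ (by rw [List.length_replicate]; exact h),
        List.getElem_replicate]
      simp only [true_iff]
      omega
    · rw [List.getD_eq_default _ _ (by rw [List.length_replicate]; exact h)]
      constructor
      · intro h'
        exact absurd h' (by decide)
      · intro h'
        omega

open Classical in
theorem dp_spec {n : ℕ} (G : SimpleGraph (Fin n)) (hG : G.IsTree) (s : Fin n) (k cap : ℕ)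
    (hcap : 2 ^ (jOf k + 1) ≤ cap) :
    dp (matG G ++ [un s, un k]) cap = decide (Saving G s k) := by
  obtain ⟨par, dep, R⟩ := exists_rooted hG s
  unfold dp
  rw [headD_len G s, getD_n, getD_n1, length_un, length_un, depths_spec R,
    tab_spec _ (jOf k + 1) (mem_subsC cap _ hcap) _ 0 (Nat.zero_le _) _
      (by rw [List.length_cons, List.length_replicate]), List.drop_zero]
  rw [decide_eq_decide, saving_iff hG R k (jOf k) (two_mul_le_jOf k)]
  have hpo := po_pre R n s
  constructor
  · intro h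
    obtain ⟨P, -, hinj, hX, hle⟩ := exists_val R _ hpo (false :: List.replicate (jOf k) true)
    rw [val_full _ hpo (pre_full R)] at hle
    refine ⟨P, ⟨hinj, fun v hv => ?_⟩, fun v hv => ?_, h.trans hle⟩
    · exact ((getD_levels _ _).1 (hX v hv)).1
    · exact ((getD_levels _ _).1 (hX v hv)).2
  · rintro ⟨P, hP, hd, hk⟩
    refine hk.trans ?_
    rw [← val_full _ hpo (pre_full R)]
    exact val_le_gv R _ hpo _ P hP.1 fun v hv => (getD_levels _ _).2 ⟨hP.2 v hv, hd v hv⟩

/-- the parameter read from the rows -/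
def kIn (R : List (List Bool)) : ℕ := (R.getD ((R.headD []).length + 1) []).length

theorem pt_kIn {α : Type} [Enc α] {R : α → List (List Bool)} (hR : PolyTime R) :
    PolyTime (fun a => kIn (R a)) := by
  unfold kIn
  exact (hR.getD ((hR.headD (PolyTime.const [])).length.succ) (PolyTime.const [])).length

/-- the algorithm -/
def algS (x : Unit × List Bool) : List Bool :=
  [dp (Prog.decM x.2) (2 ^ (jOf (kIn (Prog.decM x.2)) + 1))]

/-- its measure -/
def msS (x : Unit × List Bool) : ℕ := sz x + 2 ^ (jOf (kIn (Prog.decM x.2)) + 1)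

theorem mt_algS : MT msS algS := by
  have hM : MB msS (fun x => sz x) := MB.self.mono fun x => Nat.le_add_right _ _
  have h0 : PolyTime (fun x : Unit × List Bool => Prog.decM x.2) :=
    Prog.pt_decM.comp PolyTime.id.snd
  have h1 : PolyTime (fun x : Unit × List Bool => jOf (kIn (Prog.decM x.2)) + 1) :=
    (pt_jOf (pt_kIn h0)).succ
  have h2 : MT msS (fun x => 2 ^ (jOf (kIn (Prog.decM x.2)) + 1)) :=
    MT.two_pow (MT.of_pt hM h1) (MB.self.mono fun x => Nat.le_add_left _ _)
  have h3 : MT msS (fun x => (Prog.decM x.2, 2 ^ (jOf (kIn (Prog.decM x.2)) + 1))) :=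
    MT.pair hM (MT.of_pt hM h0) h2
  have h4 : PolyTime (fun y : List (List Bool) × ℕ => [dp y.1 y.2]) :=
    PolyTime.cons (pt_dp PolyTime.id.fst PolyTime.id.snd) (PolyTime.const [])
  exact MT.comp_pt (g := fun y : List (List Bool) × ℕ => [dp y.1 y.2]) hM h4 h3

theorem length_encM_eq (R : List (List Bool)) :
    (encM R).length = (R.map fun r => 2 * r.length + 1).sum := by
  induction R with
  | nil => rfl
  | cons r R ih =>
    have h1 : encM (r :: R) = ((r.flatMap fun b => [true, b]) ++ [false]) ++ encM R := by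
      unfold encM
      rw [List.flatMap_cons]
    rw [h1, List.length_append, List.length_append, Prog.length_row, ih, List.map_cons,
      List.sum_cons]
    rfl

theorem length_word3 {n : ℕ} (G : SimpleGraph (Fin n)) (s : Fin n) (k : ℕ) :
    (word3 G s k).length ≤ 4 * (n + 1) ^ 2 + 2 * k := by
  unfold word3
  rw [length_encM_eq, List.map_append, List.sum_append]
  have h1 : ((matG G).map fun r => 2 * r.length + 1).sum = n * (2 * n + 1) := by
    have h2 : (matG G).map (fun r => 2 * r.length + 1) = List.replicate n (2 * n + 1) := by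
      rw [List.eq_replicate_iff]
      refine ⟨by rw [List.length_map, Prog.length_matG], fun b hb => ?_⟩
      rw [List.mem_map] at hb
      obtain ⟨r, hr, rfl⟩ := hb
      unfold matG at hr
      rw [List.mem_map] at hr
      obtain ⟨i, -, rfl⟩ := hr
      rw [List.length_map, List.length_finRange]
    rw [h2, List.sum_replicate, smul_eq_mul]
  have h3 : ([un (s : ℕ), un k].map fun r => 2 * r.length + 1).sum = 2 * s + 1 + (2 * k + 1) := by
    simp [length_un]
  rw [h1, h3]
  have := s.2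
  nlinarith

theorem sqrt_bound (k : ℕ) : k ≤ 2 ^ (2 * (Nat.sqrt k + 1)) := by
  have h1 : k < (Nat.sqrt k + 1) ^ 2 := Nat.lt_succ_sqrt' k
  have h2 : Nat.sqrt k + 1 < 2 ^ (Nat.sqrt k + 1) := Nat.lt_two_pow_self
  have h3 : (Nat.sqrt k + 1) ^ 2 ≤ (2 ^ (Nat.sqrt k + 1)) ^ 2 := Nat.pow_le_pow_left h2.le 2
  rw [← pow_mul, mul_comm] at h3
  omega

theorem time_bound (C D : ℕ) : ∃ C' : ℕ, ∀ n k j : ℕ, ∀ m : ℕ, j ≤ 2 * Nat.sqrt k + 2 →
    m ≤ 4 * (4 * (n + 1) ^ 2 + 2 * k) + 3 + 2 ^ (j + 1) →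
    C * (m + 1) ^ D ≤ 2 ^ (C' * (Nat.sqrt k + 1)) * (n + 1) ^ C' := by
  refine ⟨C + 10 * D, fun n k j m hj hm => ?_⟩
  set q := Nat.sqrt k + 1 with hq
  have h1 : k ≤ 2 ^ (2 * q) := sqrt_bound k
  have h2 : 2 ^ (j + 1) ≤ 2 * 2 ^ (2 * q) := by
    rw [pow_succ, mul_comm]
    exact Nat.mul_le_mul_left _ (Nat.pow_le_pow_right (by norm_num) (by omega))
  have h3 : 1 ≤ 2 ^ (2 * q) := Nat.one_le_two_pow
  have h4 : 1 ≤ (n + 1) ^ 2 := Nat.one_le_pow _ _ (by omega)
  have h5 : m + 1 ≤ 2 ^ 5 * 2 ^ (2 * q) * (n + 1) ^ 2 := by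
    have e1 : 16 * (n + 1) ^ 2 ≤ 16 * (2 ^ (2 * q) * (n + 1) ^ 2) :=
      Nat.mul_le_mul_left _ (Nat.le_mul_of_pos_left _ (by omega))
    have e2 : 2 ^ (2 * q) ≤ 2 ^ (2 * q) * (n + 1) ^ 2 := Nat.le_mul_of_pos_right _ (by omega)
    have e3 : 1 ≤ 2 ^ (2 * q) * (n + 1) ^ 2 := h3.trans e2
    nlinarith
  have h6 : m + 1 ≤ 2 ^ (7 * q) * (n + 1) ^ 2 := by
    refine h5.trans (Nat.mul_le_mul_right _ ?_)
    rw [← pow_add]
    exact Nat.pow_le_pow_right (by norm_num) (by omega)
  have h7 : (m + 1) ^ D ≤ 2 ^ (7 * q * D) * (n + 1) ^ (2 * D) := by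
    refine (Nat.pow_le_pow_left h6 D).trans ?_
    rw [mul_pow, ← pow_mul, ← pow_mul]
  have h8 : C ≤ 2 ^ (C * q) := by
    have : C < 2 ^ C := Nat.lt_two_pow_self
    refine this.le.trans (Nat.pow_le_pow_right (by norm_num) ?_)
    exact Nat.le_mul_of_pos_right _ (by omega)
  calc C * (m + 1) ^ D ≤ 2 ^ (C * q) * (2 ^ (7 * q * D) * (n + 1) ^ (2 * D)) :=
        Nat.mul_le_mul h8 h7
    _ = 2 ^ (C * q + 7 * q * D) * (n + 1) ^ (2 * D) := by rw [pow_add]; ring
    _ ≤ 2 ^ ((C + 10 * D) * q) * (n + 1) ^ (C + 10 * D) := by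
        refine Nat.mul_le_mul (Nat.pow_le_pow_right (by norm_num) ?_)
          (Nat.pow_le_pow_right (by omega) (by omega))
        nlinarith [Nat.zero_le (q * D)]

open Classical in
theorem saving_machine : ∃ (T : Turing.FinTM2) (i : T.Γ T.k₀ ≃ Bool) (o : T.Γ T.k₁ ≃ Bool) (C : ℕ),
    ∀ (n : ℕ) (G : SimpleGraph (Fin n)) (s : Fin n) (k : ℕ), G.IsTree →
      Outputs T i o (word3 G s k) [decide (Saving G s k)]
        (2 ^ (C * (Nat.sqrt k + 1)) * (n + 1) ^ C) := by
  have hM : MB msS (fun x => sz x) := MB.self.mono fun x => Nat.le_add_right _ _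
  obtain ⟨D, hD⟩ := machine_param hM mt_algS
  obtain ⟨T, i, o, C, hT⟩ := hD ()
  obtain ⟨C', hC'⟩ := time_bound C D
  refine ⟨T, i, o, C', fun n G s k hG => ?_⟩
  have h1 := hT (word3 G s k)
  have hdec : Prog.decM (word3 G s k) = matG G ++ [un s, un k] := Prog.decM_encM _
  have hk : kIn (Prog.decM (word3 G s k)) = k := by
    rw [hdec]
    unfold kIn
    rw [headD_len G s, getD_n1, length_un]
  have h2 : algS ((), word3 G s k) = [decide (Saving G s k)] := by
    unfold algS
    simp only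
    rw [hk, hdec, dp_spec G hG s k _ le_rfl]
  rw [h2] at h1
  refine outputs_mono h1 (hC' n k (jOf k) _ (jOf_le k) ?_)
  unfold msS
  simp only
  rw [hk]
  refine Nat.add_le_add_right ?_ _
  rw [sz_pair]
  have h3 := sz_bools (word3 G s k)
  have h4 := length_word3 G s k
  have h5 : sz () = 1 := rfl
  omega

end Pool.Agent.FFT
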