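import Mathlib
import Pool.Agent.Lib.PolyTime.Lib
import Pool.Agent.CDom.Parse
import Pool.Agent.FFT.Sys

/-!
# MODULE FFT/CnfParse  (MP_4a4383_lc)

Reading formulas.

Proofs.
* `decCnf_rowsCnf`: `rowLit (litRow l) = l`; the fold over the three rows of a clause `C`, started in
  `([], A)`, ends in `([], C :: A)`; induction on `φ` (generalizing `A`).
* `pt_decCnf`: `PolyTime.foldl_add'` (every step adds a bounded amount to the size), `reverse`,
  `headD`, `tail`, `length`.
* `length_wordCnf`: `(encM R).length = (R.map fun r => 2 * r.length + 1).sum`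
  (`Pool.Agent.CDom.Prog.length_row` and induction), the first row has length `N`, the `3 m` rows of
  literals have length `1 + v ≤ N`; total `≤ 2 N + 1 + 3 m (2 N + 1) ≤ 100 (N + m + 1) ^ 2`.
-/

set_option autoImplicit false

namespace Pool.Agent.FFT

open Pool.Agent.Lib.PT

theorem rowLit_litRow (l : ℕ × Bool) : rowLit (litRow l) = l := by
  obtain ⟨v, b⟩ := l
  simp [rowLit, litRow, un]

theorem foldl_clause (C : (ℕ × Bool) × (ℕ × Bool) × (ℕ × Bool)) (A : Cnf3) :
    [litRow C.1, litRow C.2.1, litRow C.2.2].foldl stepCnf ([], A) = ([], C :: A) := by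
  obtain ⟨l1, l2, l3⟩ := C
  simp [stepCnf, rowLit_litRow]

theorem foldl_clauses (φ A : Cnf3) :
    (φ.flatMap fun C => [litRow C.1, litRow C.2.1, litRow C.2.2]).foldl stepCnf ([], A) =
      ([], φ.reverse ++ A) := by
  induction φ generalizing A with
  | nil => rfl
  | cons C φ ih =>
    rw [List.flatMap_cons, List.foldl_append, foldl_clause, ih, List.reverse_cons,
      List.append_assoc]
    rfl

theorem decCnf_rowsCnf (N : ℕ) (φ : Cnf3) : decCnf (rowsCnf N φ) = (N, φ) := by
  unfold decCnf rowsCnf
  rw [List.headD_cons, List.tail_cons, foldl_clauses, List.append_nil, List.reverse_reverse]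
  simp [un]

theorem decCnf_decM (N : ℕ) (φ : Cnf3) :
    decCnf (Pool.Agent.CDom.Prog.decM (wordCnf N φ)) = (N, φ) := by
  rw [wordCnf, Pool.Agent.CDom.Prog.decM_encM, decCnf_rowsCnf]

theorem pt_rowLit {α : Type*} [Enc α] {r : α → List Bool} (hr : PolyTime r) :
    PolyTime (fun a => rowLit (r a)) := by
  unfold rowLit
  exact hr.tail.length.pair (PolyTime.headD hr (PolyTime.const false))

theorem sz_rowLit_le (r : List Bool) : sz (rowLit r) ≤ 2 * sz r + 5 := by
  unfold rowLit
  rw [sz_pair, sz_nat]
  have h1 := sz_bool_le (r.headD false)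
  have h2 := length_lt_sz r
  have h3 : r.tail.length ≤ r.length := by
    rw [List.length_tail]
    exact Nat.sub_le _ _
  omega

theorem sz_stepCnf_le (s : List (ℕ × Bool) × Cnf3) (r : List Bool) :
    sz (stepCnf s r) ≤ sz s + (2 * sz r + 20) := by
  obtain ⟨s1, s2⟩ := s
  have h1 := sz_rowLit_le r
  unfold stepCnf
  rcases hb : decide (2 ≤ s1.length) with _ | _
  · simp only [cond_false, sz_pair, sz_list_cons]
    omega
  · rw [decide_eq_true_eq] at hb
    obtain ⟨a, b, l, rfl⟩ : ∃ a b l, s1 = a :: b :: l := by
      match s1, hb with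
      | a :: b :: l, _ => exact ⟨a, b, l, rfl⟩
    simp only [cond_true, sz_pair, sz_list_cons, sz_list_nil, List.getD_cons_succ,
      List.getD_cons_zero]
    omega

theorem pt_decCnf : PolyTime decCnf := by
  unfold decCnf
  refine PolyTime.pair (PolyTime.headD PolyTime.id (PolyTime.const [])).length ?_
  refine PolyTime.reverse (PolyTime.snd ?_)
  refine PolyTime.foldl_add' (f := fun _ s r => stepCnf s r) PolyTime.id.tail
    (PolyTime.const _) ?_ ?_
  · unfold stepCnf
    refine PolyTime.cond (PolyTime.le (PolyTime.const 2) PolyTime.id.snd.fst.fst.length) ?_ ?_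
    · refine (PolyTime.const []).pair (PolyTime.cons ?_ PolyTime.id.snd.fst.snd)
      exact (PolyTime.getD PolyTime.id.snd.fst.fst (PolyTime.const 1)
        (PolyTime.const (0, false))).pair
          ((PolyTime.getD PolyTime.id.snd.fst.fst (PolyTime.const 0)
            (PolyTime.const (0, false))).pair (pt_rowLit PolyTime.id.snd.snd))
    · exact (PolyTime.cons (pt_rowLit PolyTime.id.snd.snd) PolyTime.id.snd.fst.fst).pair
        PolyTime.id.snd.fst.snd
  · refine ⟨Polynomial.C 2 * Polynomial.X + Polynomial.C 20, fun a x y => ?_⟩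
    rw [Polynomial.eval_add, Polynomial.eval_mul, Polynomial.eval_C, Polynomial.eval_C,
      Polynomial.eval_X]
    have h := sz_stepCnf_le x y
    omega

theorem length_encM_cons (r : List Bool) (R : List (List Bool)) :
    (Pool.Agent.CDom.encM (r :: R)).length =
      2 * r.length + 1 + (Pool.Agent.CDom.encM R).length := by
  unfold Pool.Agent.CDom.encM
  rw [List.flatMap_cons, List.length_append, List.length_append,
    Pool.Agent.CDom.Prog.length_row]
  rfl

theorem length_litRow (l : ℕ × Bool) : (litRow l).length = l.1 + 1 := by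
  simp [litRow, un]

theorem length_wordCnf (N : ℕ) (φ : Cnf3) (h : VarsLt N φ) :
    (wordCnf N φ).length ≤ 100 * (N + φ.length + 1) ^ 2 := by
  have key : (Pool.Agent.CDom.encM
      (φ.flatMap fun C => [litRow C.1, litRow C.2.1, litRow C.2.2])).length ≤
        3 * φ.length * (2 * N + 1) := by
    induction φ with
    | nil => simp [Pool.Agent.CDom.encM]
    | cons C φ ih =>
      have h1 := h C List.mem_cons_self
      have h2 := ih fun D hD => h D (List.mem_cons_of_mem _ hD)
      have h3 : ((C :: φ).flatMap fun C => [litRow C.1, litRow C.2.1, litRow C.2.2]) =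
          litRow C.1 :: litRow C.2.1 :: litRow C.2.2 ::
            (φ.flatMap fun C => [litRow C.1, litRow C.2.1, litRow C.2.2]) := by
        rw [List.flatMap_cons]
        rfl
      rw [h3, length_encM_cons, length_encM_cons, length_encM_cons, length_litRow, length_litRow,
        length_litRow, List.length_cons]
      have h4 : 3 * (φ.length + 1) * (2 * N + 1) =
          3 * φ.length * (2 * N + 1) + 3 * (2 * N + 1) := by ring
      omega
  unfold wordCnf rowsCnf
  rw [length_encM_cons]
  have h1 : (un N).length = N := by simp [un]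
  rw [h1]
  nlinarith

end Pool.Agent.FFT
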