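import Mathlib
import Pool.Agent.FFT.Sys
import Pool.Agent.FFT.Abs

set_option autoImplicit false

/-!
# MODULE FFT/Compl  (MP_4a4383_lc)

Completeness of the reduction: from a run of the program, an admissible set `P` on the levels
`1, ..., 1 + 2 |p|` that lets at most `1 + |Fs| + (2 |Fs| + 1) |p|` vertices burn.

`Sets Q Z`: every vertex below one of the vertices `x f`, `f ∈ Fs`, is below a vertex of `Q` or in
`Z`.  The induction (`main`) constructs `Q` (one vertex at most on each level `l + 1, ...,
l + 2 |r|`) and `Z` with `|Z| ≤ |Fs| + (2 |Fs| + 1) |r|`.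

All vertices come from `Unf.child`; `kid_cases`: a child `w` of `v` has an index
`i < (kids (st v)).length` and is *the* child with this index (`Unf.up`, `Unf.inj`).
`anc_step`: a vertex `w` with `Anc v w` is `v` or is below a child `u` of `v`
(`Rooted.exists_anc w (dep v + 1)`, `Rooted.anc_total`, `Rooted.anc_unique`, `Rooted.anc_iff`).

* `r = []`: `kids (front [] ..) = []`, so only the `x f` themselves: `Q = ∅`, `Z = {x f | f ∈ Fs}`
  (`Finset.image`, `card ≤ Fs.length`).
* `r = choice g :: r'`, with the bit `b`.  Children at level `l + 1`: `y f` (index `0`) for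
  `f ≠ g`; for `g`: the child with bit `b` is called `y g`, the child with bit `!b` is `w`
  (indices `0`, `1`).  Children of the `y f` at level `l + 2`: `z f` (index `0`), state
  `front r' false f (σ' f)`, `σ' = update σ g (b :: σ g)`, and the heavy child `h` (index `1`) of
  `y g`.  By induction (`Run ev r' σ'`) `Q'`, `Z'` for the `z f`.
  `Q = {w, h} ∪ Q'`, `Z = {x f} ∪ {y f} ∪ Z'`, `|Z| ≤ 2 |Fs| + |Z'|`.
  A vertex below `x f` is `x f`, or below a child: `w` (in `Q`) or `y f`; then it is `y f` or below a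
  child: `h` (in `Q`) or `z f`.
* `r = check f1 d1 f2 d2 :: r'`: children at level `l + 1`: `y f` (index `0`), alarms `a1` (child of
  `x f1` with index `1`), `a2` (child of `x f2` with index `1` if `f1 ≠ f2`, else index `2`).  As not
  both conditions hold, one of `a1`, `a2` is in state `fuse`, call it `a`; the other one is `a'`.
  Children at level `l + 2`: `z f` (index `0`) of the `y f`, and the heavy child `h` (index `0`) of
  `a`.  `Q = {a', h} ∪ Q'`, `Z = {x f} ∪ {y f} ∪ {a} ∪ Z'`, `|Z| ≤ 2 |Fs| + 1 + |Z'|`.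
  A vertex below `a` is `a` or below `h`.
* `complete`: children of the root: `heavy` (index `0`), fronts `x (Fs[j])` (index `j + 1`); for
  `f ∈ Fs` let `x f` be the child with index `Fs.idxOf f + 1`.  `P = {heavy child} ∪ Q`,
  `univ \ sav P ⊆ {s} ∪ Z`.  As `Fs` has no duplicates, the child with index `j + 1` is
  `x (Fs[j])` (`List.Nodup.idxOf_getElem`).
In `main`, `x` is a function `Fr → V` with the hypothesis for `f ∈ Fs` only.  `Adm` of a union: the
levels are disjoint.
-/

namespace Pool.Agent.FFT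

open Pool.Agent.Hhelper73.Fire

variable {V : Type} [Fintype V] [DecidableEq V] {G : SimpleGraph V} {s : V} {par : V → V}
  {dep : V → ℕ} {Fs : List Fr} {R : ℕ} {ev : Cond → Fr → List Bool → Bool} {y0 : State}
  {st : V → State} {ix : V → ℕ}

omit [Fintype V] [DecidableEq V] in
theorem anc_step (R : Rooted G s par dep) {v w : V} (h : Anc par dep v w) :
    w = v ∨ ∃ u, u ≠ s ∧ par u = v ∧ Anc par dep u w := by
  have h1 := R.anc_dep h
  rcases Nat.eq_or_lt_of_le h1 with h2 | h2
  · exact Or.inl (R.anc_unique (anc_refl w) h h2.symm)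
  · obtain ⟨u, hu, hd⟩ := R.exists_anc w (dep v + 1) h2
    have hus : u ≠ s := by
      rintro rfl
      rw [R.dep_root] at hd
      omega
    refine Or.inr ⟨u, hus, ?_, hu⟩
    have h3 := R.anc_total h hu (by omega)
    have h4 : v ≠ u := by
      rintro rfl
      omega
    have h5 := ((R.anc_iff hus).mp h3).resolve_left h4
    have h6 := R.dep_par u hus
    exact R.anc_unique (anc_refl _) h5 (by omega)

/-- every vertex below `v` is in `Z` or below a vertex of `Q` -/
def Cov (par : V → V) (dep : V → ℕ) (Q Z : Finset V) (v : V) : Prop :=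
  ∀ w, Anc par dep v w → w ∈ Z ∨ ∃ q ∈ Q, Anc par dep q w

omit [Fintype V] [DecidableEq V] in
theorem cov_mem {Q Z : Finset V} {v : V} (h : v ∈ Q) : Cov par dep Q Z v :=
  fun _ hw => Or.inr ⟨v, h, hw⟩

omit [Fintype V] [DecidableEq V] in
theorem cov_mono {Q Z Q' Z' : Finset V} {v : V} (h : Cov par dep Q Z v) (hQ : Q ⊆ Q')
    (hZ : Z ⊆ Z') : Cov par dep Q' Z' v := fun w hw =>
  (h w hw).imp (fun h1 => hZ h1) fun ⟨q, hq, h1⟩ => ⟨q, hQ hq, h1⟩

omit [Fintype V] [DecidableEq V] in
theorem cov_step (R : Rooted G s par dep) {Q Z : Finset V} {v : V} (hv : v ∈ Z)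
    (h : ∀ u, u ≠ s → par u = v → Cov par dep Q Z u) : Cov par dep Q Z v := by
  intro w hw
  rcases anc_step R hw with h1 | ⟨u, h1, h2, h3⟩
  · rw [h1]
    exact Or.inl hv
  · exact h u h1 h2 w h3

omit [Fintype V] in
theorem set_step {Q' : Finset V} {l n : ℕ} {q1 q2 : V} (h1 : dep q1 = l + 1) (h2 : dep q2 = l + 2)
    (hi : Set.InjOn dep (Q' : Set V)) (hl : ∀ v ∈ Q', l + 2 < dep v ∧ dep v ≤ l + 2 + 2 * n) :
    Set.InjOn dep ((insert q1 (insert q2 Q') : Finset V) : Set V) ∧
      ∀ v ∈ insert q1 (insert q2 Q'), l < dep v ∧ dep v ≤ l + 2 * (n + 1) := by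
  constructor
  · intro a ha b hb hab
    rw [Finset.mem_coe, Finset.mem_insert, Finset.mem_insert] at ha hb
    rcases ha with ha | ha | ha <;> rcases hb with hb | hb | hb
    · rw [ha, hb]
    · rw [ha, hb] at hab
      omega
    · have := hl b hb
      rw [ha] at hab
      omega
    · rw [ha, hb] at hab
      omega
    · rw [ha, hb]
    · have := hl b hb
      rw [ha] at hab
      omega
    · have := hl a ha
      rw [hb] at hab
      omega
    · have := hl a ha
      rw [hb] at hab
      omega
    · exact hi ha hb hab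
  · intro v hv
    rw [Finset.mem_insert, Finset.mem_insert] at hv
    rcases hv with hv | hv | hv
    · rw [hv, h1]
      omega
    · rw [hv, h2]
      omega
    · have := hl v hv
      omega

omit [Fintype V] in
theorem card_step {Z' : Finset V} (x y : Fr → V) {n : ℕ} (a : V)
    (h : Z'.card ≤ Fs.length + (2 * Fs.length + 1) * n) :
    (insert a (Fs.toFinset.image x ∪ Fs.toFinset.image y ∪ Z')).card ≤
      Fs.length + (2 * Fs.length + 1) * (n + 1) := by
  have h1 := Finset.card_insert_le a (Fs.toFinset.image x ∪ Fs.toFinset.image y ∪ Z')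
  have h2 := Finset.card_union_le (Fs.toFinset.image x ∪ Fs.toFinset.image y) Z'
  have h3 := Finset.card_union_le (Fs.toFinset.image x) (Fs.toFinset.image y)
  have h4 : (Fs.toFinset.image x).card ≤ Fs.length :=
    Finset.card_image_le.trans (List.toFinset_card_le Fs)
  have h5 : (Fs.toFinset.image y).card ≤ Fs.length :=
    Finset.card_image_le.trans (List.toFinset_card_le Fs)
  nlinarith

omit [Fintype V] [DecidableEq V] in
/-- a child of `v` is determined by its index, which is smaller than the number of kids -/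
theorem kid_lt (U : Unf (kids Fs R ev) y0 G s par dep st ix) {u v : V} (hu : u ≠ s)
    (hp : par u = v) {L : List State} (hL : kids Fs R ev (st v) = L) : ix u < L.length := by
  have h1 := U.up u hu
  rw [hp, hL] at h1
  exact (List.getElem?_eq_some_iff.mp h1).1

omit [Fintype V] in
theorem main_choice (U : Unf (kids Fs R ev) y0 G s par dep st ix) (g : Fr) (hg : g ∈ Fs)
    (r : List Ins) (l : ℕ) (σ : Fr → List Bool) (x : Fr → V) (b : Bool)
    (hx : ∀ f ∈ Fs, dep (x f) = l ∧ st (x f) = front (choice g :: r) false f (σ f))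
    (ih : ∀ z : Fr → V, (∀ f ∈ Fs, dep (z f) = l + 2 ∧
        st (z f) = front r false f (Function.update σ g (b :: σ g) f)) →
      ∃ Q Z : Finset V, Set.InjOn dep (Q : Set V) ∧
        (∀ v ∈ Q, l + 2 < dep v ∧ dep v ≤ l + 2 + 2 * r.length) ∧
        Z.card ≤ Fs.length + (2 * Fs.length + 1) * r.length ∧
        ∀ f ∈ Fs, Cov par dep Q Z (z f)) :
    ∃ Q Z : Finset V, Set.InjOn dep (Q : Set V) ∧
      (∀ v ∈ Q, l < dep v ∧ dep v ≤ l + 2 * (r.length + 1)) ∧
      Z.card ≤ Fs.length + (2 * Fs.length + 1) * (r.length + 1) ∧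
      ∀ f ∈ Fs, Cov par dep Q Z (x f) := by
  have : Nonempty V := ⟨s⟩
  set σ' := Function.update σ g (b :: σ g) with hσ'
  have hkg : kids Fs R ev (st (x g)) = [front (choice g :: r) true g (false :: σ g),
      front (choice g :: r) true g (true :: σ g)] := by
    rw [(hx g hg).2, kids_front_first, kids1_choice_self]
  have hkf : ∀ f ∈ Fs, f ≠ g → kids Fs R ev (st (x f)) =
      [front (choice g :: r) true f (σ f)] := by
    intro f hf hfg
    rw [(hx f hf).2, kids_front_first, kids1_choice_ne ev hfg]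
  have hy : ∀ f ∈ Fs, ∃ v, v ≠ s ∧ par v = x f ∧ ix v = (if f = g then b.toNat else 0) ∧
      st v = front (choice g :: r) true f (σ' f) ∧ dep v = l + 1 := by
    intro f hf
    by_cases hfg : f = g
    · subst hfg
      rw [if_pos rfl, hσ', Function.update_self, ← (hx f hf).1]
      apply U.child
      rw [hkg]
      cases b <;> rfl
    · rw [if_neg hfg, hσ', Function.update_of_ne hfg, ← (hx f hf).1]
      apply U.child
      rw [hkf f hf hfg]
      rfl
  choose! y hy using hy
  obtain ⟨w, hws, hwp, hwi, hwst, hwd⟩ : ∃ v, v ≠ s ∧ par v = x g ∧ ix v = (!b).toNat ∧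
      st v = front (choice g :: r) true g ((!b) :: σ g) ∧ dep v = dep (x g) + 1 := by
    apply U.child
    rw [hkg]
    cases b <;> rfl
  have hwd' : dep w = l + 1 := by rw [hwd, (hx g hg).1]
  have hxk : ∀ f ∈ Fs, ∀ u, u ≠ s → par u = x f → u = y f ∨ u = w := by
    intro f hf u hu hp
    obtain ⟨h1, h2, h3, h4, h5⟩ := hy f hf
    by_cases hfg : f = g
    · subst hfg
      have h6 := kid_lt U hu hp hkg
      rw [if_pos rfl] at h3
      have h7 : ix u = b.toNat ∨ ix u = (!b).toNat := by
        simp only [List.length_cons, List.length_nil] at h6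
        cases b <;> simp <;> omega
      rcases h7 with h7 | h7
      · exact Or.inl (U.inj _ _ hu h1 (by rw [hp, h2]) (by rw [h7, h3]))
      · exact Or.inr (U.inj _ _ hu hws (by rw [hp, hwp]) (by rw [h7, hwi]))
    · have h6 := kid_lt U hu hp (hkf f hf hfg)
      rw [if_neg hfg] at h3
      simp only [List.length_cons, List.length_nil] at h6
      exact Or.inl (U.inj _ _ hu h1 (by rw [hp, h2]) (by omega))
  -- second half
  have hkg2 : kids Fs R ev (st (y g)) = [front r false g (σ' g), heavy] := by
    rw [(hy g hg).2.2.2.1, kids_front_second, kids2_choice_self]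
  have hkf2 : ∀ f ∈ Fs, f ≠ g → kids Fs R ev (st (y f)) = [front r false f (σ' f)] := by
    intro f hf hfg
    rw [(hy f hf).2.2.2.1, kids_front_second, kids2_choice_ne hfg]
  have hz : ∀ f ∈ Fs, ∃ v, v ≠ s ∧ par v = y f ∧ ix v = 0 ∧
      st v = front r false f (σ' f) ∧ dep v = dep (y f) + 1 := by
    intro f hf
    apply U.child
    by_cases hfg : f = g
    · subst hfg
      rw [hkg2]
      rfl
    · rw [hkf2 f hf hfg]
      rfl
  choose! z hz using hz
  obtain ⟨h, hhs, hhp, hhi, hhst, hhd⟩ : ∃ v, v ≠ s ∧ par v = y g ∧ ix v = 1 ∧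
      st v = heavy ∧ dep v = dep (y g) + 1 := by
    apply U.child
    rw [hkg2]
    rfl
  have hhd' : dep h = l + 2 := by rw [hhd, (hy g hg).2.2.2.2]
  have hyk : ∀ f ∈ Fs, ∀ u, u ≠ s → par u = y f → u = z f ∨ u = h := by
    intro f hf u hu hp
    obtain ⟨h1, h2, h3, h4, h5⟩ := hz f hf
    by_cases hfg : f = g
    · subst hfg
      have h6 := kid_lt U hu hp hkg2
      simp only [List.length_cons, List.length_nil] at h6
      rcases Nat.lt_or_ge (ix u) 1 with h7 | h7
      · exact Or.inl (U.inj _ _ hu h1 (by rw [hp, h2]) (by omega))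
      · exact Or.inr (U.inj _ _ hu hhs (by rw [hp, hhp]) (by omega))
    · have h6 := kid_lt U hu hp (hkf2 f hf hfg)
      simp only [List.length_cons, List.length_nil] at h6
      exact Or.inl (U.inj _ _ hu h1 (by rw [hp, h2]) (by omega))
  obtain ⟨Q', Z', q1, q2, q3, q4⟩ := ih z (fun f hf => ⟨by
    rw [(hz f hf).2.2.2.2, (hy f hf).2.2.2.2], (hz f hf).2.2.2.1⟩)
  obtain ⟨e1, e2⟩ := set_step hwd' hhd' q1 q2
  refine ⟨insert w (insert h Q'),
    insert (x g) (Fs.toFinset.image x ∪ Fs.toFinset.image y ∪ Z'), e1, e2,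
    card_step x y (x g) q3, ?_⟩
  intro f hf
  have hxZ : x f ∈ insert (x g) (Fs.toFinset.image x ∪ Fs.toFinset.image y ∪ Z') := by
    apply Finset.mem_insert_of_mem
    apply Finset.mem_union_left
    apply Finset.mem_union_left
    exact Finset.mem_image_of_mem x (List.mem_toFinset.mpr hf)
  have hyZ : y f ∈ insert (x g) (Fs.toFinset.image x ∪ Fs.toFinset.image y ∪ Z') := by
    apply Finset.mem_insert_of_mem
    apply Finset.mem_union_left
    apply Finset.mem_union_right
    exact Finset.mem_image_of_mem y (List.mem_toFinset.mpr hf)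
  refine cov_step U.rooted hxZ fun u hu hp => ?_
  rcases hxk f hf u hu hp with h1 | h1
  · rw [h1]
    refine cov_step U.rooted hyZ fun u' hu' hp' => ?_
    rcases hyk f hf u' hu' hp' with h2 | h2
    · rw [h2]
      refine cov_mono (q4 f hf) ?_ ?_
      · intro v hv
        exact Finset.mem_insert_of_mem (Finset.mem_insert_of_mem hv)
      · intro v hv
        exact Finset.mem_insert_of_mem (Finset.mem_union_right _ hv)
    · rw [h2]
      exact cov_mem (Finset.mem_insert_of_mem (Finset.mem_insert_self _ _))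
  · rw [h1]
    exact cov_mem (Finset.mem_insert_self _ _)

omit [Fintype V] in
theorem main_check (U : Unf (kids Fs R ev) y0 G s par dep st ix) (f1 : Fr) (d1 : Cond) (f2 : Fr)
    (d2 : Cond) (hf1 : f1 ∈ Fs) (hf2 : f2 ∈ Fs)
    (r : List Ins) (l : ℕ) (σ : Fr → List Bool) (x : Fr → V)
    (hno : ¬ (ev d1 f1 (σ f1) = true ∧ ev d2 f2 (σ f2) = true))
    (hx : ∀ f ∈ Fs, dep (x f) = l ∧ st (x f) = front (check f1 d1 f2 d2 :: r) false f (σ f))
    (ih : ∀ z : Fr → V, (∀ f ∈ Fs, dep (z f) = l + 2 ∧ st (z f) = front r false f (σ f)) →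
      ∃ Q Z : Finset V, Set.InjOn dep (Q : Set V) ∧
        (∀ v ∈ Q, l + 2 < dep v ∧ dep v ≤ l + 2 + 2 * r.length) ∧
        Z.card ≤ Fs.length + (2 * Fs.length + 1) * r.length ∧
        ∀ f ∈ Fs, Cov par dep Q Z (z f)) :
    ∃ Q Z : Finset V, Set.InjOn dep (Q : Set V) ∧
      (∀ v ∈ Q, l < dep v ∧ dep v ≤ l + 2 * (r.length + 1)) ∧
      Z.card ≤ Fs.length + (2 * Fs.length + 1) * (r.length + 1) ∧
      ∀ f ∈ Fs, Cov par dep Q Z (x f) := by
  have : Nonempty V := ⟨s⟩
  have hk : ∀ f ∈ Fs, kids Fs R ev (st (x f)) = front (check f1 d1 f2 d2 :: r) true f (σ f) ::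
        ((bif eqF f f1 then [alarm (ev d1 f (σ f))] else []) ++
          (bif eqF f f2 then [alarm (ev d2 f (σ f))] else [])) := by
    intro f hf
    rw [(hx f hf).2, kids_front_first, kids1_check]
  have hy : ∀ f ∈ Fs, ∃ v, v ≠ s ∧ par v = x f ∧ ix v = 0 ∧
      st v = front (check f1 d1 f2 d2 :: r) true f (σ f) ∧ dep v = l + 1 := by
    intro f hf
    rw [← (hx f hf).1]
    apply U.child
    rw [hk f hf]
    rfl
  choose! y hy using hy
  obtain ⟨a1, ha1s, ha1p, ha1i, ha1st, ha1d⟩ : ∃ v, v ≠ s ∧ par v = x f1 ∧ ix v = 1 ∧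
      st v = alarm (ev d1 f1 (σ f1)) ∧ dep v = dep (x f1) + 1 := by
    apply U.child
    rw [hk f1 hf1, eqF_self]
    rfl
  obtain ⟨a2, ha2s, ha2p, ha2i, ha2st, ha2d⟩ : ∃ v, v ≠ s ∧ par v = x f2 ∧
      ix v = (if f2 = f1 then 2 else 1) ∧
      st v = alarm (ev d2 f2 (σ f2)) ∧ dep v = dep (x f2) + 1 := by
    apply U.child
    by_cases h : f2 = f1
    · subst h
      rw [hk f2 hf2, eqF_self, if_pos rfl]
      rfl
    · rw [hk f2 hf2, eqF_self, if_neg h, eqF_false h]
      rfl
  have hxk : ∀ f ∈ Fs, ∀ u, u ≠ s → par u = x f → u = y f ∨ u = a1 ∨ u = a2 := by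
    intro f hf u hu hp
    obtain ⟨h1, h2, h3, h4, h5⟩ := hy f hf
    have h6 := kid_lt U hu hp (hk f hf)
    rcases Nat.eq_zero_or_pos (ix u) with h7 | h7
    · exact Or.inl (U.inj _ _ hu h1 (by rw [hp, h2]) (by omega))
    · right
      by_cases hff1 : f = f1
      · subst hff1
        rw [eqF_self] at h6
        by_cases hff2 : f = f2
        · subst hff2
          rw [eqF_self] at h6
          simp only [cond_true, List.length_cons, List.length_nil, List.length_append] at h6
          rw [if_pos rfl] at ha2i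
          rcases Nat.lt_or_ge (ix u) 2 with h8 | h8
          · exact Or.inl (U.inj _ _ hu ha1s (by rw [hp, ha1p]) (by omega))
          · exact Or.inr (U.inj _ _ hu ha2s (by rw [hp, ha2p]) (by omega))
        · rw [eqF_false hff2] at h6
          simp only [cond_true, cond_false, List.length_cons, List.length_nil,
            List.length_append] at h6
          exact Or.inl (U.inj _ _ hu ha1s (by rw [hp, ha1p]) (by omega))
      · rw [eqF_false hff1] at h6
        by_cases hff2 : f = f2
        · subst hff2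
          rw [eqF_self] at h6
          simp only [cond_true, cond_false, List.length_cons, List.length_nil,
            List.length_append] at h6
          rw [if_neg hff1] at ha2i
          exact Or.inr (U.inj _ _ hu ha2s (by rw [hp, ha2p]) (by omega))
        · rw [eqF_false hff2] at h6
          simp only [cond_false, List.length_cons, List.length_nil,
            List.length_append] at h6
          omega
  -- the fuse and the other alarm
  obtain ⟨a, a', has, hast, had, had', hxk'⟩ : ∃ a a' : V, a ≠ s ∧ st a = fuse ∧ dep a = l + 1 ∧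
      dep a' = l + 1 ∧ ∀ f ∈ Fs, ∀ u, u ≠ s → par u = x f → u = y f ∨ u = a ∨ u = a' := by
    have d1' : dep a1 = l + 1 := by rw [ha1d, (hx f1 hf1).1]
    have d2' : dep a2 = l + 1 := by rw [ha2d, (hx f2 hf2).1]
    rcases hb : ev d1 f1 (σ f1) with _ | _
    · refine ⟨a1, a2, ha1s, ?_, d1', d2', hxk⟩
      rw [ha1st, hb, alarm_false]
    · have hb2 : ev d2 f2 (σ f2) = false := by
        rcases hb2 : ev d2 f2 (σ f2) with _ | _
        · rfl
        · exact absurd ⟨hb, hb2⟩ hno
      refine ⟨a2, a1, ha2s, ?_, d2', d1', fun f hf u hu hp => ?_⟩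
      · rw [ha2st, hb2, alarm_false]
      · rcases hxk f hf u hu hp with h | h | h
        · exact Or.inl h
        · exact Or.inr (Or.inr h)
        · exact Or.inr (Or.inl h)
  have hka : kids Fs R ev (st a) = [heavy] := by rw [hast, kids_fuse]
  obtain ⟨h, hhs, hhp, hhi, hhst, hhd⟩ : ∃ v, v ≠ s ∧ par v = a ∧ ix v = 0 ∧
      st v = heavy ∧ dep v = dep a + 1 := by
    apply U.child
    rw [hka]
    rfl
  have hhd' : dep h = l + 2 := by rw [hhd, had]
  have hak : ∀ u, u ≠ s → par u = a → u = h := by
    intro u hu hp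
    have h6 := kid_lt U hu hp hka
    simp only [List.length_cons, List.length_nil] at h6
    exact U.inj _ _ hu hhs (by rw [hp, hhp]) (by omega)
  -- second half
  have hk2 : ∀ f ∈ Fs, kids Fs R ev (st (y f)) = [front r false f (σ f)] := by
    intro f hf
    rw [(hy f hf).2.2.2.1, kids_front_second, kids2_check]
  have hz : ∀ f ∈ Fs, ∃ v, v ≠ s ∧ par v = y f ∧ ix v = 0 ∧
      st v = front r false f (σ f) ∧ dep v = dep (y f) + 1 := by
    intro f hf
    apply U.child
    rw [hk2 f hf]
    rfl
  choose! z hz using hz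
  have hyk : ∀ f ∈ Fs, ∀ u, u ≠ s → par u = y f → u = z f := by
    intro f hf u hu hp
    obtain ⟨h1, h2, h3, h4, h5⟩ := hz f hf
    have h6 := kid_lt U hu hp (hk2 f hf)
    simp only [List.length_cons, List.length_nil] at h6
    exact U.inj _ _ hu h1 (by rw [hp, h2]) (by omega)
  obtain ⟨Q', Z', q1, q2, q3, q4⟩ := ih z (fun f hf => ⟨by
    rw [(hz f hf).2.2.2.2, (hy f hf).2.2.2.2], (hz f hf).2.2.2.1⟩)
  obtain ⟨e1, e2⟩ := set_step had' hhd' q1 q2
  refine ⟨insert a' (insert h Q'),
    insert a (Fs.toFinset.image x ∪ Fs.toFinset.image y ∪ Z'), e1, e2,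
    card_step x y a q3, ?_⟩
  intro f hf
  have hxZ : x f ∈ insert a (Fs.toFinset.image x ∪ Fs.toFinset.image y ∪ Z') := by
    apply Finset.mem_insert_of_mem
    apply Finset.mem_union_left
    apply Finset.mem_union_left
    exact Finset.mem_image_of_mem x (List.mem_toFinset.mpr hf)
  have hyZ : y f ∈ insert a (Fs.toFinset.image x ∪ Fs.toFinset.image y ∪ Z') := by
    apply Finset.mem_insert_of_mem
    apply Finset.mem_union_left
    apply Finset.mem_union_right
    exact Finset.mem_image_of_mem y (List.mem_toFinset.mpr hf)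
  refine cov_step U.rooted hxZ fun u hu hp => ?_
  rcases hxk' f hf u hu hp with h1 | h1 | h1
  · rw [h1]
    refine cov_step U.rooted hyZ fun u' hu' hp' => ?_
    rw [hyk f hf u' hu' hp']
    refine cov_mono (q4 f hf) ?_ ?_
    · intro v hv
      exact Finset.mem_insert_of_mem (Finset.mem_insert_of_mem hv)
    · intro v hv
      exact Finset.mem_insert_of_mem (Finset.mem_union_right _ hv)
  · rw [h1]
    refine cov_step U.rooted (Finset.mem_insert_self _ _) fun u' hu' hp' => ?_
    rw [hak u' hu' hp']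
    exact cov_mem (Finset.mem_insert_of_mem (Finset.mem_insert_self _ _))
  · rw [h1]
    exact cov_mem (Finset.mem_insert_self _ _)

omit [Fintype V] in
theorem main (U : Unf (kids Fs R ev) y0 G s par dep st ix) :
    ∀ (r : List Ins), WF Fs r → ∀ (l : ℕ) (σ : Fr → List Bool) (x : Fr → V), Run ev r σ →
      (∀ f ∈ Fs, dep (x f) = l ∧ st (x f) = front r false f (σ f)) →
      ∃ Q Z : Finset V, Set.InjOn dep (Q : Set V) ∧
        (∀ v ∈ Q, l < dep v ∧ dep v ≤ l + 2 * r.length) ∧
        Z.card ≤ Fs.length + (2 * Fs.length + 1) * r.length ∧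
        ∀ f ∈ Fs, ∀ w, Anc par dep (x f) w → w ∈ Z ∨ ∃ v ∈ Q, Anc par dep v w := by
  intro r
  induction r with
  | nil =>
    intro _ l σ x _ hx
    refine ⟨∅, Fs.toFinset.image x, by simp, by simp, ?_, ?_⟩
    · rw [List.length_nil, mul_zero, add_zero]
      exact Finset.card_image_le.trans (List.toFinset_card_le Fs)
    · intro f hf
      refine cov_step (Q := ∅) U.rooted
        (Finset.mem_image_of_mem x (List.mem_toFinset.mpr hf)) fun u hu hp => ?_
      have h1 := kid_lt U hu hp (L := []) (by rw [(hx f hf).2, kids_front_nil])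
      simp at h1
  | cons i r ih =>
    intro hwf l σ x hrun hx
    have hwf' : WF Fs r := fun j hj => hwf j (List.mem_cons_of_mem _ hj)
    obtain ⟨hi, h1, h2⟩ := hwf i (List.mem_cons_self ..)
    rcases hi with ⟨g, rfl⟩ | ⟨f1, d1, f2, d2, rfl⟩
    · obtain ⟨b, hb⟩ := (run_choice ev g r σ).mp hrun
      have h3 := main_choice U g h1 r l σ x b hx (fun z hz => ih hwf' (l + 2) _ z hb hz)
      exact h3
    · obtain ⟨hno, hb⟩ := (run_check ev f1 d1 f2 d2 r σ).mp hrun
      have h3 := main_check U f1 d1 f2 d2 h1 h2 r l σ x hno hx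
        (fun z hz => ih hwf' (l + 2) _ z hb hz)
      exact h3

theorem complete (p : List Ins) (hnd : Fs.Nodup) (hwf : WF Fs p)
    (U : Unf (kids Fs R ev) (root p) G s par dep st ix) (hrun : Run ev p (fun _ => [])) :
    ∃ P : Finset V, Adm dep P ∧ (∀ v ∈ P, dep v ≤ 1 + 2 * p.length) ∧
      (Finset.univ \ sav par dep P).card ≤
        1 + Fs.length + (2 * Fs.length + 1) * p.length := by
  have : Nonempty V := ⟨s⟩
  have hk : kids Fs R ev (st s) = heavy :: Fs.map (fun f => front p false f []) := by
    rw [U.st_root, kids_root]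
  obtain ⟨hv, hvs, hvp, hvi, hvst, hvd⟩ : ∃ v, v ≠ s ∧ par v = s ∧ ix v = 0 ∧
      st v = heavy ∧ dep v = dep s + 1 := by
    apply U.child
    rw [hk]
    rfl
  rw [U.rooted.dep_root, zero_add] at hvd
  have hx : ∀ f ∈ Fs, ∃ v, v ≠ s ∧ par v = s ∧ ix v = Fs.idxOf f + 1 ∧
      st v = front p false f [] ∧ dep v = dep s + 1 := by
    intro f hf
    apply U.child
    rw [hk, List.getElem?_cons_succ, List.getElem?_map]
    have h1 : Fs[Fs.idxOf f]? = some f := by
      rw [List.getElem?_eq_getElem (List.idxOf_lt_length_of_mem hf), List.getElem_idxOf]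
    rw [h1]
    rfl
  choose! x hx using hx
  obtain ⟨Q, Z, q1, q2, q3, q4⟩ := main U p hwf 1 (fun _ => []) x hrun (fun f hf => ⟨by
    rw [(hx f hf).2.2.2.2, U.rooted.dep_root], (hx f hf).2.2.2.1⟩)
  refine ⟨insert hv Q, ⟨?_, ?_⟩, ?_, ?_⟩
  · intro a ha b hb hab
    rw [Finset.mem_coe, Finset.mem_insert] at ha hb
    rcases ha with ha | ha <;> rcases hb with hb | hb
    · rw [ha, hb]
    · have := q2 b hb
      rw [ha] at hab
      omega
    · have := q2 a ha
      rw [hb] at hab
      omega
    · exact q1 ha hb hab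
  · intro v hv'
    rcases Finset.mem_insert.mp hv' with h | h
    · rw [h]
      omega
    · have := q2 v h
      omega
  · intro v hv'
    rcases Finset.mem_insert.mp hv' with h | h
    · rw [h]
      omega
    · have := q2 v h
      omega
  · have hsub : Finset.univ \ sav par dep (insert hv Q) ⊆ insert s Z := by
      intro w hw
      rw [Finset.mem_sdiff, mem_sav] at hw
      rcases anc_step U.rooted (U.rooted.anc_root w) with h1 | ⟨u, h1, h2, h3⟩
      · rw [h1]
        exact Finset.mem_insert_self _ _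
      · apply Finset.mem_insert_of_mem
        have h4 := kid_lt U h1 h2 hk
        rw [List.length_cons, List.length_map] at h4
        rcases hj : ix u with _ | j
        · have h5 : u = hv := U.inj _ _ h1 hvs (by rw [h2, hvp]) (by rw [hj, hvi])
          exact absurd ⟨u, by rw [h5]; exact Finset.mem_insert_self _ _, h3⟩ hw.2
        · have hjl : j < Fs.length := by omega
          have h6 : Fs[j] ∈ Fs := List.getElem_mem hjl
          have h7 : u = x Fs[j] := by
            obtain ⟨g1, g2, g3, g4, g5⟩ := hx _ h6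
            refine U.inj _ _ h1 g1 (by rw [h2, g2]) ?_
            rw [hj, g3, List.Nodup.idxOf_getElem hnd]
          rw [h7] at h3
          rcases q4 _ h6 w h3 with h8 | ⟨q, h8, h9⟩
          · exact h8
          · exact absurd ⟨q, Finset.mem_insert_of_mem h8, h9⟩ hw.2
    have h10 := Finset.card_le_card hsub
    have h11 := Finset.card_insert_le s Z
    omega

end Pool.Agent.FFT
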