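import Mathlib
import Pool.Agent.FFT.Sys

/-!
# MODULE FFT/Count  (MP_4a4383_lc)

Bounds for the number of nodes of an unfolding, and the height and the potential of front systems.

Proofs.
* `sum_lev`: with `S l = ((lev l).map fun a => Φ a.2).sum` and `N l = ∑ i < l, (lev i).length`,
  induction on `l` gives `S l + N l ≤ Φ x0`: the sum of `Φ` over `kidsN (p, x)` is
  `((kids x).map Φ).sum ≤ Φ x - 1`.
* `length_lev_le`, `length_nodes_le`: `Φ ≥ 1`, so `(lev l).length ≤ S l`; `nodes` has
  `N (D + 1)` elements.
* `levC_eq`, `nodesC_eq`: induction on `l`, `List.take_of_length_le` with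
  `(lev (l + 1)).length ≤ cap`.
* `hgt_kids`, `pot_kids`: cases `x.1 = 1, 2, 3, 4` and other tags (`kids` gives `[]`); for tag `3`
  cases on the program `x.2.1.1` and the half `x.2.1.2`, then `i.1` and the two tests `eqF` in
  `kids1`, `kids2` (here `i` is an arbitrary triple, not necessarily `choice` or `check`).
  Potential: first half, `i.1 = true`, `f` equal: `1 + 2 (R + 2 + 2^c' X') ≤ 2^(c' + 1) (X' + 3R + 7)`
  where `X' = 1 + (3R + 7) |r|`; not equal: `1 + (R + 2 + 2^c' X') ≤ 2^c' (X' + 3R + 7)`;
  `i.1 = false`: `1 + (R + 2 + 2^c' X') + 2 (R + 2) ≤ 2^c' (X' + 3R + 7)`;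
  second half: `1 + 2^c' X' + (R + 1) = R + 2 + 2^c' X'`.
* `pot_root_le`: `pot3 R p false f = 2 ^ cnt f p * (1 + (3R + 7) |p|)` and `cnt f p ≤ m`.
-/

set_option autoImplicit false

namespace Pool.Agent.FFT

section

variable {X : Type} {kd : X → List X} {x0 : X}

theorem map_range_getD (l : List X) (d : X) :
    (List.range l.length).map (fun i => l.getD i d) = l := by
  apply List.ext_getElem
  · simp
  · intro i h1 h2
    simp only [List.getElem_map, List.getElem_range]
    rw [List.getD_eq_getElem _ _ h2]

theorem sum_kidsN (Φ : X → ℕ) (a : List ℕ × X) :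
    ((kidsN kd x0 a).map fun a => Φ a.2).sum = ((kd a.2).map Φ).sum := by
  unfold kidsN
  rw [List.map_map]
  have : (List.range (kd a.2).length).map
      ((fun a : List ℕ × X => Φ a.2) ∘ fun i => (i :: a.1, (kd a.2).getD i x0)) =
      ((List.range (kd a.2).length).map (fun i => (kd a.2).getD i x0)).map Φ := by
    rw [List.map_map]; rfl
  rw [this, map_range_getD]

theorem sum_flat (Φ : X → ℕ) (hΦ : ∀ x, 1 + ((kd x).map Φ).sum ≤ Φ x) (L : List (List ℕ × X)) :
    ((L.flatMap (kidsN kd x0)).map fun a => Φ a.2).sum + L.length ≤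
      (L.map fun a => Φ a.2).sum := by
  induction L with
  | nil => simp
  | cons a L ih =>
    simp only [List.flatMap_cons, List.map_append, List.sum_append, List.map_cons, List.sum_cons,
      List.length_cons]
    rw [sum_kidsN]
    have := hΦ a.2
    omega

theorem sum_lev (Φ : X → ℕ) (hΦ : ∀ x, 1 + ((kd x).map Φ).sum ≤ Φ x) (l : ℕ) :
    ((lev kd x0 l).map fun a => Φ a.2).sum +
      ∑ i ∈ Finset.range l, (lev kd x0 i).length ≤ Φ x0 := by
  induction l with
  | zero => simp [lev]
  | succ l ih =>
    rw [Finset.sum_range_succ]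
    have := sum_flat (x0 := x0) Φ hΦ (lev kd x0 l)
    have h2 : lev kd x0 (l + 1) = (lev kd x0 l).flatMap (kidsN kd x0) := rfl
    rw [h2]
    omega

theorem length_le_sum (Φ : X → ℕ) (hΦ : ∀ x, 1 + ((kd x).map Φ).sum ≤ Φ x)
    (L : List (List ℕ × X)) : L.length ≤ (L.map fun a => Φ a.2).sum := by
  induction L with
  | nil => simp
  | cons a L ih =>
    simp only [List.map_cons, List.sum_cons, List.length_cons]
    have := hΦ a.2
    omega

theorem length_lev_le (Φ : X → ℕ) (hΦ : ∀ x, 1 + ((kd x).map Φ).sum ≤ Φ x) (l : ℕ) :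
    (lev kd x0 l).length ≤ Φ x0 := by
  have h1 := sum_lev (x0 := x0) Φ hΦ l
  have h2 := length_le_sum Φ hΦ (lev kd x0 l)
  omega

theorem length_nodes_aux (D : ℕ) (f : ℕ → List (List ℕ × X)) :
    ((List.range D).flatMap f).length = ∑ i ∈ Finset.range D, (f i).length := by
  induction D with
  | zero => simp
  | succ D ih =>
    rw [List.range_succ, List.flatMap_append, List.length_append, ih, Finset.sum_range_succ]
    simp

theorem length_nodes_le (Φ : X → ℕ) (hΦ : ∀ x, 1 + ((kd x).map Φ).sum ≤ Φ x) (D : ℕ) :
    (nodes kd x0 D).length ≤ Φ x0 := by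
  have h1 := sum_lev (x0 := x0) Φ hΦ (D + 1)
  unfold nodes
  rw [length_nodes_aux]
  omega

theorem levC_eq (cap : ℕ) (h : ∀ l, (lev kd x0 l).length ≤ cap) (l : ℕ) :
    levC kd x0 cap l = lev kd x0 l := by
  induction l with
  | zero => rfl
  | succ l ih =>
    have h1 : levC kd x0 cap (l + 1) =
        ((levC kd x0 cap l).flatMap (kidsN kd x0)).take cap := by
      unfold levC
      rw [Function.iterate_succ_apply']
    rw [h1, ih]
    exact List.take_of_length_le (h (l + 1))

theorem nodesC_eq (cap : ℕ) (h : ∀ l, (lev kd x0 l).length ≤ cap) (D : ℕ) :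
    nodesC kd x0 cap D = nodes kd x0 D := by
  unfold nodesC nodes
  congr 1
  funext l
  exact levC_eq cap h l

end

theorem hgt_front (r : List Ins) (h : Bool) (f : Fr) (σ : List Bool) :
    hgt (front r h f σ) = if r = [] then 0 else 2 * r.length + bif h then 0 else 1 := rfl

theorem hgt_alarm (b : Bool) : hgt (alarm b) ≤ 2 := by
  cases b
  · exact le_of_eq rfl
  · show (1 : ℕ) ≤ 2
    norm_num

theorem hgt_kids1 (ev : Cond → Fr → List Bool → Bool) (i : Ins) (r : List Ins) (f : Fr)
    (σ : List Bool) (y : State) (h : y ∈ kids1 ev i r f σ) : hgt y < 2 * (r.length + 1) + 1 := by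
  have hf : ∀ τ, hgt (front (i :: r) true f τ) < 2 * (r.length + 1) + 1 := by
    intro τ
    rw [hgt_front]
    simp
  have ha : ∀ b, hgt (alarm b) < 2 * (r.length + 1) + 1 := by
    intro b
    have := hgt_alarm b
    omega
  unfold kids1 at h
  rcases hi : i.1 with _ | _
  · rw [hi] at h
    simp only [cond_false, List.mem_cons, List.mem_append] at h
    rcases h with h | h | h
    · rw [h]; exact hf σ
    · rcases hb : eqF f i.2.1.1 with _ | _
      · rw [hb] at h; simp at h
      · rw [hb] at h
        simp only [cond_true, List.mem_singleton] at h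
        rw [h]; exact ha _
    · rcases hb : eqF f i.2.2.1 with _ | _
      · rw [hb] at h; simp at h
      · rw [hb] at h
        simp only [cond_true, List.mem_singleton] at h
        rw [h]; exact ha _
  · rw [hi] at h
    simp only [cond_true] at h
    rcases hb : eqF f i.2.1.1 with _ | _
    · rw [hb] at h
      simp only [cond_false, List.mem_singleton] at h
      rw [h]; exact hf σ
    · rw [hb] at h
      simp only [cond_true, List.mem_cons, List.not_mem_nil, or_false] at h
      rcases h with h | h
      · rw [h]; exact hf _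
      · rw [h]; exact hf _

theorem hgt_kids2 (i : Ins) (r : List Ins) (f : Fr)
    (σ : List Bool) (y : State) (h : y ∈ kids2 i r f σ) : hgt y < 2 * (r.length + 1) := by
  unfold kids2 at h
  rw [List.mem_cons] at h
  rcases h with h | h
  · rw [h, hgt_front]
    split_ifs
    · omega
    · simp only [cond_false]; omega
  · rcases hb : (i.1 && eqF f i.2.1.1) with _ | _
    · rw [hb] at h; simp at h
    · rw [hb] at h
      simp only [cond_true, List.mem_singleton] at h
      rw [h]
      have : hgt heavy = 1 := rfl
      omega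

theorem hgt_kids (Fs : List Fr) (R : ℕ) (ev : Cond → Fr → List Bool → Bool) (x y : State)
    (h : y ∈ kids Fs R ev x) : hgt y < hgt x := by
  obtain ⟨tag, ⟨r, hf⟩, ⟨f, σ⟩⟩ := x
  by_cases h1 : tag = 1
  · subst h1
    have h' : y ∈ List.replicate R leaf := h
    rw [List.mem_replicate] at h'
    rw [h'.2]
    show (0 : ℕ) < 1
    norm_num
  by_cases h2 : tag = 2
  · subst h2
    have h' : y ∈ [heavy] := h
    rw [List.mem_singleton] at h'
    rw [h']
    show (1 : ℕ) < 2
    norm_num
  by_cases h3 : tag = 3
  · subst h3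
    have h' : y ∈ kids Fs R ev (front r hf f σ) := h
    show hgt y < hgt (front r hf f σ)
    cases r with
    | nil => rw [kids_front_nil] at h'; simp at h'
    | cons i r =>
      rw [hgt_front]
      cases hf with
      | false =>
        rw [kids_front_first] at h'
        simpa using hgt_kids1 ev i r f σ y h'
      | true =>
        rw [kids_front_second] at h'
        simpa using hgt_kids2 i r f σ y h'
  by_cases h4 : tag = 4
  · subst h4
    have h' : y ∈ heavy :: Fs.map (fun f => front r false f []) := h
    have hx : hgt (4, (r, hf), (f, σ)) = 2 * r.length + 2 := rfl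
    rw [hx]
    rw [List.mem_cons] at h'
    rcases h' with h' | h'
    · rw [h']
      have : hgt heavy = 1 := rfl
      omega
    · rw [List.mem_map] at h'
      obtain ⟨g, _, rfl⟩ := h'
      rw [hgt_front]
      split_ifs
      · omega
      · simp only [cond_false]; omega
  · exfalso
    have : kids Fs R ev (tag, (r, hf), (f, σ)) = [] := by
      unfold kids
      simp [h1, h2, h3, h4]
    rw [this] at h
    simp at h

theorem pot_front (Fs : List Fr) (R : ℕ) (r : List Ins) (h : Bool) (f : Fr) (σ : List Bool) :
    pot Fs R (front r h f σ) = pot3 R r h f := rfl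

theorem pot_heavy (Fs : List Fr) (R : ℕ) : pot Fs R heavy = R + 1 := rfl

theorem pot_alarm (Fs : List Fr) (R : ℕ) (b : Bool) : pot Fs R (alarm b) ≤ R + 2 := by
  cases b
  · exact le_of_eq rfl
  · show R + 1 ≤ R + 2
    omega

theorem cnt_cons (f : Fr) (i : Ins) (r : List Ins) :
    cnt f (i :: r) = cnt f r + bif (i.1 && eqF f i.2.1.1) then 1 else 0 := by
  unfold cnt
  rcases hb : (i.1 && eqF f i.2.1.1) with _ | _
  · rw [List.filter_cons_of_neg (by simp [hb])]
    simp
  · rw [List.filter_cons_of_pos (by simp [hb])]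
    simp

theorem pot_kids1 (Fs : List Fr) (R : ℕ) (ev : Cond → Fr → List Bool → Bool) (i : Ins)
    (r : List Ins) (f : Fr) (σ : List Bool) :
    1 + ((kids1 ev i r f σ).map (pot Fs R)).sum ≤ pot3 R (i :: r) false f := by
  have h0 : pot3 R (i :: r) false f = 2 ^ cnt f (i :: r) * (1 + (3 * R + 7) * (r.length + 1)) := rfl
  have hf : ∀ τ, pot Fs R (front (i :: r) true f τ) =
      R + 2 + 2 ^ cnt f r * (1 + (3 * R + 7) * r.length) := fun τ => rfl
  have hpos : 1 ≤ 2 ^ cnt f r := Nat.one_le_two_pow
  rw [h0, cnt_cons]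
  set A := 2 ^ cnt f r with hA
  have hexp : A * (1 + (3 * R + 7) * (r.length + 1)) =
      A * (1 + (3 * R + 7) * r.length) + A * (3 * R + 7) := by ring
  have hge : 3 * R + 7 ≤ A * (3 * R + 7) := Nat.le_mul_of_pos_left _ hpos
  unfold kids1
  rcases hi : i.1 with _ | _
  · simp only [cond_false, List.map_cons, List.sum_cons, List.map_append, List.sum_append,
      Bool.false_and, add_zero]
    rw [hf, ← hA, hexp]
    have h1 : ((bif eqF f i.2.1.1 then [alarm (ev i.2.1.2 f σ)] else []).map (pot Fs R)).sum
        ≤ R + 2 := by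
      rcases eqF f i.2.1.1 with _ | _
      · simp
      · simpa using pot_alarm Fs R _
    have h2 : ((bif eqF f i.2.2.1 then [alarm (ev i.2.2.2 f σ)] else []).map (pot Fs R)).sum
        ≤ R + 2 := by
      rcases eqF f i.2.2.1 with _ | _
      · simp
      · simpa using pot_alarm Fs R _
    omega
  · rcases hb : eqF f i.2.1.1 with _ | _
    · simp only [cond_true, cond_false, List.map_cons, List.map_nil, List.sum_cons, List.sum_nil,
        Bool.true_and, add_zero]
      rw [hf, ← hA, hexp]
      omega
    · simp only [cond_true, List.map_cons, List.map_nil, List.sum_cons, List.sum_nil,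
        Bool.true_and, add_zero]
      rw [hf, hf, pow_succ, ← hA]
      have : A * 2 * (1 + (3 * R + 7) * (r.length + 1)) =
        2 * (A * (1 + (3 * R + 7) * r.length)) + 2 * (A * (3 * R + 7)) := by ring
      rw [this]
      omega

theorem pot_kids2 (Fs : List Fr) (R : ℕ) (i : Ins)
    (r : List Ins) (f : Fr) (σ : List Bool) :
    1 + ((kids2 i r f σ).map (pot Fs R)).sum ≤ pot3 R (i :: r) true f := by
  have h0 : pot3 R (i :: r) true f = R + 2 + 2 ^ cnt f r * (1 + (3 * R + 7) * r.length) := rfl
  have hf : pot Fs R (front r false f σ) = 2 ^ cnt f r * (1 + (3 * R + 7) * r.length) := rfl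
  rw [h0]
  unfold kids2
  rcases (i.1 && eqF f i.2.1.1) with _ | _
  · simp only [cond_false, List.map_cons, List.map_nil, List.sum_cons, List.sum_nil, add_zero]
    rw [hf]
    omega
  · simp only [cond_true, List.map_cons, List.map_nil, List.sum_cons, List.sum_nil, add_zero]
    rw [hf, pot_heavy]
    omega

theorem pot_kids (Fs : List Fr) (R : ℕ) (ev : Cond → Fr → List Bool → Bool) (x : State) :
    1 + ((kids Fs R ev x).map (pot Fs R)).sum ≤ pot Fs R x := by
  obtain ⟨tag, ⟨r, hf⟩, ⟨f, σ⟩⟩ := x
  by_cases h1 : tag = 1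
  · subst h1
    have h' : kids Fs R ev (1, (r, hf), (f, σ)) = List.replicate R leaf := rfl
    have h'' : pot Fs R (1, (r, hf), (f, σ)) = R + 1 := rfl
    have h3 : pot Fs R leaf = 1 := rfl
    rw [h', h'', List.map_replicate, List.sum_replicate, h3]
    simp
    omega
  by_cases h2 : tag = 2
  · subst h2
    have h' : kids Fs R ev (2, (r, hf), (f, σ)) = [heavy] := rfl
    have h'' : pot Fs R (2, (r, hf), (f, σ)) = R + 2 := rfl
    rw [h', h'']
    simp only [List.map_cons, List.map_nil, List.sum_cons, List.sum_nil, pot_heavy]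
    omega
  by_cases h3 : tag = 3
  · subst h3
    show 1 + ((kids Fs R ev (front r hf f σ)).map (pot Fs R)).sum ≤ pot Fs R (front r hf f σ)
    rw [pot_front]
    cases r with
    | nil =>
      rw [kids_front_nil]
      cases hf with
      | false => simp [pot3, cnt]
      | true => simp [pot3, cnt]
    | cons i r =>
      cases hf with
      | false =>
        rw [kids_front_first]
        exact pot_kids1 Fs R ev i r f σ
      | true =>
        rw [kids_front_second]
        exact pot_kids2 Fs R i r f σ
  by_cases h4 : tag = 4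
  · subst h4
    have h' : kids Fs R ev (4, (r, hf), (f, σ)) =
        heavy :: Fs.map (fun f => front r false f []) := rfl
    have h'' : pot Fs R (4, (r, hf), (f, σ)) = R + 2 + (Fs.map fun f => pot3 R r false f).sum := rfl
    have h5 : (Fs.map (fun f => front r false f [])).map (pot Fs R) =
        Fs.map fun f => pot3 R r false f := by
      rw [List.map_map]; rfl
    rw [h', h'', List.map_cons, List.sum_cons, h5, pot_heavy]
    omega
  · have h' : kids Fs R ev (tag, (r, hf), (f, σ)) = [] := by
      unfold kids
      simp [h1, h2, h3, h4]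
    have h'' : pot Fs R (tag, (r, hf), (f, σ)) = 1 := by
      unfold pot
      simp [h1, h2, h3, h4]
    rw [h', h'']
    simp

theorem hgt_root (p : List Ins) : hgt (root p) = 2 * p.length + 2 := rfl

theorem pot_root_le (Fs : List Fr) (R : ℕ) (p : List Ins) (m : ℕ) (h : ∀ f, cnt f p ≤ m) :
    pot Fs R (root p) ≤ R + 2 + Fs.length * (2 ^ m * (1 + (3 * R + 7) * p.length)) := by
  have h'' : pot Fs R (root p) = R + 2 + (Fs.map fun f => pot3 R p false f).sum := rfl
  rw [h'']
  apply Nat.add_le_add_left
  have h1 : ∀ f, pot3 R p false f ≤ 2 ^ m * (1 + (3 * R + 7) * p.length) := by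
    intro f
    have : pot3 R p false f = 2 ^ cnt f p * (1 + (3 * R + 7) * p.length) := rfl
    rw [this]
    exact Nat.mul_le_mul_right _ (Nat.pow_le_pow_right (by norm_num) (h f))
  induction Fs with
  | nil => simp
  | cons a L ih =>
    simp only [List.map_cons, List.sum_cons, List.length_cons]
    have h2 := h1 a
    have h3 : (L.length + 1) * (2 ^ m * (1 + (3 * R + 7) * p.length)) =
        L.length * (2 ^ m * (1 + (3 * R + 7) * p.length)) +
          2 ^ m * (1 + (3 * R + 7) * p.length) := by ring
    rw [h3]
    have h4 : pot L R (root p) = R + 2 + (L.map fun f => pot3 R p false f).sum := rfl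
    have h5 := ih h4
    omega

end Pool.Agent.FFT
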