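import Mathlib
import Pool.Agent.FFT.Sys

/-!
# MODULE FFT/Enum  (MP_4a4383_lc)

The list `nodes kids x0 D` (all nodes of the unfolding, level by level) gives the unfolding on
`Fin (nodes kids x0 D).length`, if the unfolding has at most `D` levels below the root.

`StAt p x`: the path `p` (last index first) leads from `x0` to the state `x`.

Proofs.
* `eqL_iff`, `adjb_iff`: unfold; for lists of equal length `(x.zip y).all (p.1 = p.2) ↔ x = y`
  (induction).
* `stAt_unique`: induction on `p`.
* `mem_kidsN`: `(p', y) ∈ kidsN kids x0 (p, x) ↔ ∃ i, p' = i :: p ∧ (kids x)[i]? = some y`.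
* `mem_lev`: induction on `l`.
* `nodup_lev`: the first components are pairwise different (`List.nodup_flatMap`, or
  `Nodup ((lev l).map Prod.fst)`): different paths at level `l` give different children paths.
* `stAt_hgt`: `h x + p.length ≤ h x0` along a path, so every path has length `≤ h x0 ≤ D`.
* `mem_nodes`: `a ∈ nodes kids x0 D ↔ StAt a.1 a.2` (with the bound on the length).
* `enum`: `L = nodes kids x0 D`, `s = ⟨0, _⟩` (`nodes` starts with `([], x0)`), `st v = (L.get v).2`,
  `ix v = (L.get v).1.headD 0`, `dep v = (L.get v).1.length`, `par v` = the position of the node with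
  path `(L.get v).1.tail` (it exists by `mem_nodes`, unique by `nodup`; choose it, and `s` if the
  path is empty).
  `Rooted`: `dep_root`, `dep_par` clear; `adj_iff`: `adjb_iff`.
  `st_root`; `up`: `StAt (i :: p) y` means `StAt p x` and `(kids x)[i]? = some y`, `stAt_unique`;
  `down`: `(i :: p, y)` with `y = (kids x)[i]` is in `nodes`; `inj`: equal paths.
-/

set_option autoImplicit false

namespace Pool.Agent.FFT

open Pool.Agent.Hhelper73.Fire

section

variable {X : Type} (kd : X → List X) (x0 : X)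

/-- the path `p` leads to the state `x` -/
def StAt : List ℕ → X → Prop
  | [], x => x = x0
  | i :: p, y => ∃ x, StAt p x ∧ (kd x)[i]? = some y

end

theorem zip_all_iff : ∀ (x y : List ℕ), x.length = y.length →
    ((x.zip y).all (fun p => decide (p.1 = p.2)) = true ↔ x = y)
  | [], [], _ => by simp
  | [], b :: y, h => by simp at h
  | a :: x, [], h => by simp at h
  | a :: x, b :: y, h => by
    have := zip_all_iff x y (by simpa using h)
    simp only [List.zip_cons_cons, List.all_cons, Bool.and_eq_true, decide_eq_true_eq, this,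
      List.cons.injEq]

theorem eqL_iff (x y : List ℕ) : eqL x y = true ↔ x = y := by
  unfold eqL
  rw [Bool.and_eq_true, decide_eq_true_eq]
  constructor
  · rintro ⟨h1, h2⟩
    exact (zip_all_iff x y h1).1 h2
  · rintro rfl
    exact ⟨rfl, (zip_all_iff x x rfl).2 rfl⟩

theorem adjb_half (a b : List ℕ) :
    (a.length = b.length + 1 ∧ a.tail = b) ↔ (a ≠ [] ∧ a.tail = b) := by
  constructor
  · rintro ⟨h1, h2⟩
    refine ⟨?_, h2⟩
    rintro rfl
    simp at h1
  · rintro ⟨h1, h2⟩
    refine ⟨?_, h2⟩
    cases a with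
    | nil => exact absurd rfl h1
    | cons i a =>
      simp only [List.tail_cons] at h2
      subst h2
      simp

theorem adjb_iff (a b : List ℕ) : adjb a b = true ↔ (a ≠ [] ∧ a.tail = b) ∨ (b ≠ [] ∧ b.tail = a) := by
  unfold adjb
  rw [Bool.or_eq_true, Bool.and_eq_true, Bool.and_eq_true, decide_eq_true_eq, decide_eq_true_eq,
    eqL_iff, eqL_iff, adjb_half, adjb_half]

variable {X : Type} {kd : X → List X} {x0 : X}

theorem stAt_unique {p : List ℕ} {x y : X} (hx : StAt kd x0 p x) (hy : StAt kd x0 p y) : x = y := by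
  induction p generalizing x y with
  | nil =>
    have h1 : x = x0 := hx
    have h2 : y = x0 := hy
    rw [h1, h2]
  | cons i p ih =>
    obtain ⟨x', h1, h2⟩ := hx
    obtain ⟨y', h3, h4⟩ := hy
    have h5 := ih h1 h3
    subst h5
    rw [h2] at h4
    exact Option.some.inj h4

theorem mem_kidsN (a b : List ℕ × X) : b ∈ kidsN kd x0 a ↔
    ∃ i, b.1 = i :: a.1 ∧ (kd a.2)[i]? = some b.2 := by
  unfold kidsN
  rw [List.mem_map]
  constructor
  · rintro ⟨i, hi, rfl⟩
    rw [List.mem_range] at hi
    refine ⟨i, rfl, ?_⟩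
    simp only
    rw [List.getD_eq_getElem _ _ hi, List.getElem?_eq_getElem hi]
  · rintro ⟨i, h1, h2⟩
    obtain ⟨hi, h3⟩ := List.getElem?_eq_some_iff.1 h2
    refine ⟨i, List.mem_range.2 hi, ?_⟩
    rw [List.getD_eq_getElem _ _ hi, h3, ← h1]

theorem mem_lev (l : ℕ) (a : List ℕ × X) :
    a ∈ lev kd x0 l ↔ a.1.length = l ∧ StAt kd x0 a.1 a.2 := by
  induction l generalizing a with
  | zero =>
    obtain ⟨p, x⟩ := a
    simp only [lev, List.mem_singleton]
    constructor
    · intro h
      obtain ⟨rfl, rfl⟩ := Prod.mk.inj h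
      exact ⟨rfl, rfl⟩
    · rintro ⟨h1, h2⟩
      have h3 : p = [] := List.length_eq_zero_iff.1 h1
      subst h3
      have h4 : x = x0 := h2
      rw [h4]
  | succ l ih =>
    obtain ⟨p, x⟩ := a
    simp only [lev, List.mem_flatMap]
    constructor
    · rintro ⟨b, hb, hk⟩
      obtain ⟨i, h1, h2⟩ := (mem_kidsN b (p, x)).1 hk
      obtain ⟨h3, h4⟩ := (ih b).1 hb
      simp only at h1 h2
      subst h1
      refine ⟨?_, b.2, h4, h2⟩
      simp [h3]
    · rintro ⟨h1, h2⟩
      cases p with
      | nil => simp at h1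
      | cons i p =>
        obtain ⟨y, h3, h4⟩ := h2
        refine ⟨(p, y), (ih (p, y)).2 ⟨by simpa using h1, h3⟩, ?_⟩
        exact (mem_kidsN (p, y) (i :: p, x)).2 ⟨i, rfl, h4⟩

theorem nodup_lev (l : ℕ) : ((lev kd x0 l).map Prod.fst).Nodup := by
  induction l with
  | zero => simp [lev]
  | succ l ih =>
    simp only [lev]
    rw [List.map_flatMap, List.nodup_flatMap]
    constructor
    · intro a _
      unfold kidsN
      rw [List.map_map]
      refine List.Nodup.map ?_ List.nodup_range
      intro i j hij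
      simp only [Function.comp_apply, List.cons.injEq, and_true] at hij
      exact hij
    · have h1 : (lev kd x0 l).Pairwise (fun a b => a.1 ≠ b.1) := List.pairwise_map.1 ih
      refine h1.imp ?_
      intro a b hab
      intro p hp hq
      obtain ⟨c, hc, rfl⟩ := List.mem_map.1 hp
      obtain ⟨d, hd, hcd⟩ := List.mem_map.1 hq
      obtain ⟨i, h2, -⟩ := (mem_kidsN a c).1 hc
      obtain ⟨j, h3, -⟩ := (mem_kidsN b d).1 hd
      rw [h2, h3] at hcd
      exact hab (List.cons.inj hcd).2.symm

theorem stAt_hgt (h : X → ℕ) (hh : ∀ x, ∀ y ∈ kd x, h y < h x) (p : List ℕ) (x : X)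
    (hx : StAt kd x0 p x) : h x + p.length ≤ h x0 := by
  induction p generalizing x with
  | nil =>
    have h1 : x = x0 := hx
    rw [h1]
    simp
  | cons i p ih =>
    obtain ⟨y, h1, h2⟩ := hx
    have h3 := ih y h1
    have h4 := hh y x (List.mem_of_getElem? h2)
    simp only [List.length_cons]
    omega

theorem mem_nodes (h : X → ℕ) (hh : ∀ x, ∀ y ∈ kd x, h y < h x) (D : ℕ) (hD : h x0 ≤ D)
    (a : List ℕ × X) : a ∈ nodes kd x0 D ↔ StAt kd x0 a.1 a.2 := by
  unfold nodes
  rw [List.mem_flatMap]
  constructor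
  · rintro ⟨l, _, h1⟩
    exact ((mem_lev l a).1 h1).2
  · intro h1
    have h2 := stAt_hgt h hh a.1 a.2 h1
    exact ⟨a.1.length, List.mem_range.2 (by omega), (mem_lev _ a).2 ⟨rfl, h1⟩⟩

theorem nodup_nodes (D : ℕ) : ((nodes kd x0 D).map Prod.fst).Nodup := by
  unfold nodes
  rw [List.map_flatMap, List.nodup_flatMap]
  constructor
  · intro l _
    exact nodup_lev l
  · have h1 : (List.range (D + 1)).Pairwise (fun a b => a ≠ b) := List.nodup_range
    refine h1.imp ?_
    intro l m hlm
    intro p hp hq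
    obtain ⟨c, hc, rfl⟩ := List.mem_map.1 hp
    obtain ⟨d, hd, hcd⟩ := List.mem_map.1 hq
    have h2 := ((mem_lev l c).1 hc).1
    have h3 := ((mem_lev m d).1 hd).1
    apply hlm
    rw [← h2, ← h3, hcd]

theorem nodes_eq_cons (D : ℕ) : ∃ L', nodes kd x0 D = ([], x0) :: L' := by
  unfold nodes
  rw [List.range_succ_eq_map, List.flatMap_cons]
  exact ⟨_, rfl⟩

/-- a list of all nodes gives the unfolding -/
theorem enum_list (L : List (List ℕ × X)) (h1 : ∀ a, a ∈ L ↔ StAt kd x0 a.1 a.2)
    (h2 : (L.map Prod.fst).Nodup) (h3 : ∃ L', L = ([], x0) :: L') :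
    ∃ (s : Fin L.length) (par : Fin L.length → Fin L.length) (dep : Fin L.length → ℕ)
      (st : Fin L.length → X) (ix : Fin L.length → ℕ),
      Unf kd x0 (graphN L) s par dep st ix ∧ (s : ℕ) = 0 := by
  have hlen : 0 < L.length := by
    obtain ⟨L', rfl⟩ := h3
    simp
  obtain ⟨s, hs⟩ : ∃ s : Fin L.length, s = ⟨0, hlen⟩ := ⟨_, rfl⟩
  have hgs : L.get s = ([], x0) := by
    subst hs
    obtain ⟨L', rfl⟩ := h3
    rfl
  have hinj : ∀ u v : Fin L.length, (L.get u).1 = (L.get v).1 → u = v := by
    intro u v huv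
    have h4 := List.nodup_iff_injective_get.1 h2
    have hl : (L.map Prod.fst).length = L.length := List.length_map _
    have h5 : (L.map Prod.fst).get (Fin.cast hl.symm u) =
        (L.map Prod.fst).get (Fin.cast hl.symm v) := by
      simpa using huv
    have h6 := h4 h5
    exact Fin.cast_injective _ h6
  have hmem : ∀ v : Fin L.length, StAt kd x0 (L.get v).1 (L.get v).2 := fun v =>
    (h1 _).1 (List.get_mem L v)
  have hex : ∀ p x, StAt kd x0 p x → ∃ v : Fin L.length, L.get v = (p, x) := by
    intro p x hpx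
    have h4 : (p, x) ∈ L := (h1 (p, x)).2 hpx
    exact List.mem_iff_get.1 h4
  have hpar : ∀ v : Fin L.length, ∃ w : Fin L.length, (L.get w).1 = (L.get v).1.tail := by
    intro v
    have h4 := hmem v
    cases hp : (L.get v).1 with
    | nil =>
      refine ⟨s, ?_⟩
      rw [hgs]
      rfl
    | cons i p =>
      rw [hp] at h4
      obtain ⟨y, h5, -⟩ := h4
      obtain ⟨w, hw⟩ := hex p y h5
      refine ⟨w, ?_⟩
      rw [hw]
      rfl
  choose par hpar using hpar
  have hne : ∀ v : Fin L.length, v ≠ s ↔ (L.get v).1 ≠ [] := by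
    intro v
    constructor
    · intro h4 h5
      apply h4
      apply hinj
      rw [h5, hgs]
    · rintro h4 rfl
      apply h4
      rw [hgs]
  have hpe : ∀ u v : Fin L.length, par v = u ↔ (L.get v).1.tail = (L.get u).1 := by
    intro u v
    rw [← hpar v]
    exact ⟨fun h4 => by rw [h4], fun h4 => hinj _ _ h4⟩
  refine ⟨s, par, fun v => (L.get v).1.length, fun v => (L.get v).2,
    fun v => (L.get v).1.headD 0, ⟨⟨?_, ?_, ?_⟩, ?_, ?_, ?_, ?_⟩, ?_⟩
  · simp only [hgs, List.length_nil]
  · intro v hv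
    have h4 := (hne v).1 hv
    rw [hpar v, List.length_tail]
    have h5 := List.length_pos_iff.2 h4
    omega
  · intro u v
    have h4 : (graphN L).Adj u v ↔ adjb (L.get u).1 (L.get v).1 = true := Iff.rfl
    rw [h4, adjb_iff, hne, hne, hpe, hpe]
    exact or_comm
  · simp only [hgs]
  · intro w hw
    have h4 := (hne w).1 hw
    have h5 := hmem w
    have h6 := hmem (par w)
    rw [hpar w] at h6
    cases hp : (L.get w).1 with
    | nil => exact absurd hp h4
    | cons i p =>
      rw [hp] at h5 h6
      obtain ⟨y, h7, h8⟩ := h5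
      rw [List.tail_cons] at h6
      have h9 := stAt_unique h6 h7
      rw [h9]
      exact h8
  · intro v i hi
    have h4 : StAt kd x0 (i :: (L.get v).1) ((kd (L.get v).2)[i]) :=
      ⟨(L.get v).2, hmem v, List.getElem?_eq_getElem hi⟩
    obtain ⟨w, hw⟩ := hex _ _ h4
    refine ⟨w, ?_, ?_, ?_⟩
    · rw [hne, hw]
      simp
    · rw [hpe, hw]
      rfl
    · simp only [hw]
      rfl
  · intro w w' hw hw' hpp hix
    have h4 := (hne w).1 hw
    have h5 := (hne w').1 hw'
    have h6 : (L.get w).1.tail = (L.get w').1.tail := by rw [← hpar w, ← hpar w', hpp]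
    apply hinj
    cases hp : (L.get w).1 with
    | nil => exact absurd hp h4
    | cons i p =>
      cases hp' : (L.get w').1 with
      | nil => exact absurd hp' h5
      | cons j p' =>
        rw [hp, hp'] at h6 hix
        simp only [List.tail_cons] at h6
        simp only [List.headD_cons] at hix
        rw [h6, hix]
  · rw [hs]

theorem enum (h : X → ℕ) (hh : ∀ x, ∀ y ∈ kd x, h y < h x) (D : ℕ) (hD : h x0 ≤ D) :
    ∃ (s : Fin (nodes kd x0 D).length) (par : Fin (nodes kd x0 D).length →
      Fin (nodes kd x0 D).length) (dep : Fin (nodes kd x0 D).length → ℕ)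
      (st : Fin (nodes kd x0 D).length → X) (ix : Fin (nodes kd x0 D).length → ℕ),
      Unf kd x0 (graphN (nodes kd x0 D)) s par dep st ix ∧ (s : ℕ) = 0 :=
  enum_list (nodes kd x0 D) (mem_nodes h hh D hD) (nodup_nodes D) (nodes_eq_cons D)

end Pool.Agent.FFT
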