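import Mathlib
import Pool.Agent.Lib.PolyTime.Lib
import Pool.Agent.FFT.Sys

/-!
# MODULE FFT/PTSys  (MP_4a4383_lc)

The ingredients of the reduction are polynomial-time (part 1): tests, transition system, rows.

Proofs: closure lemmas of `Pool/Agent/Lib/PolyTime/Lib.lean` (`PolyTime.cond`, `and`, `or`,
`eqNat`, `lt`, `le`, `map`, `flatMap`, `filter`, `any`, `all`, `range`, `replicate`, `getD`,
`headD`, `tail`, `isEmpty`, `append`, `cons`, `zip`, `length`, `pair`, ...), with `.comp
PolyTime.id.fst` to pass to a context with one more variable; see `Pool/Agent/CDom/PT1.lean` for the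
style.  All definitions are in `Sys.lean` (they use `bif` and `decide`).
`pt_ev`: `ev q φ c f σ = bif c.1 then viol q φ f σ else (σ.getD c.2.1 false == c.2.2)`.
`pt_kids`: `kids (Fs b) (kOf b q + 1) (ev q φ)` with `Fs`, `R` as arbitrary polynomial-time
arguments.
-/

set_option autoImplicit false

namespace Pool.Agent.FFT

open Pool.Agent.Lib.PT

variable {α : Type} [Enc α]

theorem pt_eqF {f g : α → Fr} (hf : PolyTime f) (hg : PolyTime g) :
    PolyTime (fun a => eqF (f a) (g a)) := by
  unfold eqF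
  exact (hf.fst.eqNat hg.fst).and ((hf.snd.fst.eqNat hg.snd.fst).and (hf.snd.snd.eqNat hg.snd.snd))

theorem pt_front {r : α → List Ins} {h : α → Bool} {f : α → Fr} {σ : α → List Bool}
    (hr : PolyTime r) (hh : PolyTime h) (hf : PolyTime f) (hσ : PolyTime σ) :
    PolyTime (fun a => front (r a) (h a) (f a) (σ a)) := by
  unfold front
  exact (PolyTime.const 3).pair ((hr.pair hh).pair (hf.pair hσ))

theorem pt_alarm {b : α → Bool} (hb : PolyTime b) : PolyTime (fun a => alarm (b a)) := by
  unfold alarm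
  exact hb.cond (PolyTime.const heavy) (PolyTime.const fuse)

theorem pt_slot {t : α → ℕ} {f : α → Fr} (ht : PolyTime t) (hf : PolyTime f) :
    PolyTime (fun a => slot (t a) (f a)) := by
  unfold slot
  exact (ht.eqNat (PolyTime.const 0)).cond hf.fst
    ((ht.eqNat (PolyTime.const 1)).cond hf.snd.fst hf.snd.snd)

theorem pt_fals {q : α → ℕ} {f : α → Fr} {σ : α → List Bool} {l : α → ℕ × Bool}
    (hq : PolyTime q) (hf : PolyTime f) (hσ : PolyTime σ) (hl : PolyTime l) :
    PolyTime (fun a => fals (q a) (f a) (σ a) (l a)) := by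
  unfold fals
  have h1 : PolyTime (fun z : α × ℕ => slot z.2 (f z.1) * q z.1) :=
    (pt_slot PolyTime.id.snd (hf.comp PolyTime.id.fst)).mul (hq.comp PolyTime.id.fst)
  have h2 : PolyTime (fun z : α × ℕ => (l z.1).1) := (hl.comp PolyTime.id.fst).fst
  have h3 : PolyTime (fun z : α × ℕ => (l z.1).2) := (hl.comp PolyTime.id.fst).snd
  exact PolyTime.any (f := fun a t => decide (slot t (f a) * q a ≤ (l a).1) &&
      (decide ((l a).1 < slot t (f a) * q a + q a) &&
      ((σ a).getD (t * q a + ((l a).1 - slot t (f a) * q a)) false == !(l a).2)))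
    (PolyTime.range (PolyTime.const 3))
    ((h1.le h2).and ((h2.lt (h1.add (hq.comp PolyTime.id.fst))).and
      (PolyTime.beqBool (PolyTime.getD (hσ.comp PolyTime.id.fst)
        ((PolyTime.id.snd.mul (hq.comp PolyTime.id.fst)).add (h2.sub h1))
        (PolyTime.const false)) h3.not)))

theorem pt_viol {q : α → ℕ} {φ : α → Cnf3} {f : α → Fr} {σ : α → List Bool}
    (hq : PolyTime q) (hφ : PolyTime φ) (hf : PolyTime f) (hσ : PolyTime σ) :
    PolyTime (fun a => viol (q a) (φ a) (f a) (σ a)) := by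
  unfold viol
  have hq' : PolyTime (fun z : α × ((ℕ × Bool) × (ℕ × Bool) × (ℕ × Bool)) => q z.1) :=
    hq.comp PolyTime.id.fst
  have hf' : PolyTime (fun z : α × ((ℕ × Bool) × (ℕ × Bool) × (ℕ × Bool)) => f z.1) :=
    hf.comp PolyTime.id.fst
  have hσ' : PolyTime (fun z : α × ((ℕ × Bool) × (ℕ × Bool) × (ℕ × Bool)) => σ z.1) :=
    hσ.comp PolyTime.id.fst
  exact PolyTime.any (f := fun a C => fals (q a) (f a) (σ a) C.1 &&
      (fals (q a) (f a) (σ a) C.2.1 && fals (q a) (f a) (σ a) C.2.2)) hφ
    ((pt_fals hq' hf' hσ' PolyTime.id.snd.fst).and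
      ((pt_fals hq' hf' hσ' PolyTime.id.snd.snd.fst).and
        (pt_fals hq' hf' hσ' PolyTime.id.snd.snd.snd)))

theorem pt_ev {q : α → ℕ} {φ : α → Cnf3} {c : α → Cond} {f : α → Fr} {σ : α → List Bool}
    (hq : PolyTime q) (hφ : PolyTime φ) (hc : PolyTime c) (hf : PolyTime f) (hσ : PolyTime σ) :
    PolyTime (fun a => ev (q a) (φ a) (c a) (f a) (σ a)) := by
  unfold ev
  exact hc.fst.cond (pt_viol hq hφ hf hσ)
    ((PolyTime.getD hσ hc.snd.fst (PolyTime.const false)).beqBool hc.snd.snd)

theorem pt_kids1 {q : α → ℕ} {φ : α → Cnf3} {i : α → Ins} {r : α → List Ins} {f : α → Fr}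
    {σ : α → List Bool} (hq : PolyTime q) (hφ : PolyTime φ) (hi : PolyTime i) (hr : PolyTime r)
    (hf : PolyTime f) (hσ : PolyTime σ) :
    PolyTime (fun a => kids1 (ev (q a) (φ a)) (i a) (r a) (f a) (σ a)) := by
  unfold kids1
  have hir : PolyTime (fun a => i a :: r a) := hi.cons hr
  refine hi.fst.cond ?_ ?_
  · refine (pt_eqF hf hi.snd.fst.fst).cond ?_ ?_
    · exact (pt_front hir (PolyTime.const true) hf ((PolyTime.const false).cons hσ)).cons
        ((pt_front hir (PolyTime.const true) hf ((PolyTime.const true).cons hσ)).cons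
          (PolyTime.const []))
    · exact (pt_front hir (PolyTime.const true) hf hσ).cons (PolyTime.const [])
  · refine (pt_front hir (PolyTime.const true) hf hσ).cons (PolyTime.append ?_ ?_)
    · exact (pt_eqF hf hi.snd.fst.fst).cond
        ((pt_alarm (pt_ev hq hφ hi.snd.fst.snd hf hσ)).cons (PolyTime.const []))
        (PolyTime.const [])
    · exact (pt_eqF hf hi.snd.snd.fst).cond
        ((pt_alarm (pt_ev hq hφ hi.snd.snd.snd hf hσ)).cons (PolyTime.const []))
        (PolyTime.const [])

theorem pt_kids2 {i : α → Ins} {r : α → List Ins} {f : α → Fr}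
    {σ : α → List Bool} (hi : PolyTime i) (hr : PolyTime r)
    (hf : PolyTime f) (hσ : PolyTime σ) :
    PolyTime (fun a => kids2 (i a) (r a) (f a) (σ a)) := by
  unfold kids2
  exact (pt_front hr (PolyTime.const false) hf hσ).cons
    ((hi.fst.and (pt_eqF hf hi.snd.fst.fst)).cond (PolyTime.const [heavy]) (PolyTime.const []))

theorem pt_kids {F : α → List Fr} {R q : α → ℕ} {φ : α → Cnf3} {x : α → State}
    (hF : PolyTime F) (hR : PolyTime R) (hq : PolyTime q) (hφ : PolyTime φ) (hx : PolyTime x) :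
    PolyTime (fun a => kids (F a) (R a) (ev (q a) (φ a)) (x a)) := by
  unfold kids kidsF
  have hr : PolyTime (fun a => (x a).2.1.1) := hx.snd.fst.fst
  have hf : PolyTime (fun a => (x a).2.2.1) := hx.snd.snd.fst
  have hσ : PolyTime (fun a => (x a).2.2.2) := hx.snd.snd.snd
  have hi : PolyTime (fun a => (x a).2.1.1.headD (choice f0)) :=
    PolyTime.headD hr (PolyTime.const (choice f0))
  refine (hx.fst.eqNat (PolyTime.const 1)).cond (PolyTime.replicate hR (PolyTime.const leaf)) ?_
  refine (hx.fst.eqNat (PolyTime.const 2)).cond (PolyTime.const [heavy]) ?_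
  refine (hx.fst.eqNat (PolyTime.const 3)).cond ?_ ?_
  · refine hr.isEmpty.cond (PolyTime.const []) ?_
    exact hx.snd.fst.snd.cond (pt_kids2 hi hr.tail hf hσ) (pt_kids1 hq hφ hi hr.tail hf hσ)
  · refine (hx.fst.eqNat (PolyTime.const 4)).cond ?_ (PolyTime.const [])
    exact (PolyTime.const heavy).cons (PolyTime.map (f := fun a f => front (x a).2.1.1 false f [])
      hF (pt_front (hr.comp PolyTime.id.fst) (PolyTime.const false) PolyTime.id.snd
        (PolyTime.const [])))

theorem pt_eqL {x y : α → List ℕ} (hx : PolyTime x) (hy : PolyTime y) :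
    PolyTime (fun a => eqL (x a) (y a)) := by
  unfold eqL
  exact (hx.length.eqNat hy.length).and
    (PolyTime.all (f := fun _ p => decide (p.1 = p.2)) (hx.zip hy)
      (PolyTime.id.snd.fst.eqNat PolyTime.id.snd.snd))

theorem pt_adjb {x y : α → List ℕ} (hx : PolyTime x) (hy : PolyTime y) :
    PolyTime (fun a => adjb (x a) (y a)) := by
  unfold adjb
  exact ((hx.length.eqNat (hy.length.add (PolyTime.const 1))).and (pt_eqL hx.tail hy)).or
    ((hy.length.eqNat (hx.length.add (PolyTime.const 1))).and (pt_eqL hy.tail hx))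

theorem pt_rowsN {L : α → List (List ℕ × State)} (hL : PolyTime L) :
    PolyTime (fun a => rowsN (L a)) := by
  unfold rowsN
  refine PolyTime.map (f := fun a (u : List ℕ × State) => (L a).map fun v => adjb u.1 v.1) hL ?_
  exact PolyTime.map (f := fun (q : α × (List ℕ × State)) (v : List ℕ × State) => adjb q.2.1 v.1)
    (hL.comp PolyTime.id.fst) (pt_adjb PolyTime.id.fst.snd.fst PolyTime.id.snd.fst)

end Pool.Agent.FFT
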