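import Mathlib
import Pool.Agent.Lib.PolyTime.Lib
import Pool.Agent.FFT.Sys
import Pool.Agent.FFT.PTSys

/-!
# MODULE FFT/PTLev  (MP_4a4383_lc)

The ingredients of the reduction are polynomial-time (part 2): levels and nodes of the tree.

Proofs.
* `pt_kidsN`: `PolyTime.map`, `PolyTime.range`, `PolyTime.getD`, `pt_kids`.
* `sz_kids_le`: for `y ∈ kids F R (ev q φ) x`: `sz y ≤ sz x + sz F + 100`: all children are
  `leaf`, `heavy`, `fuse` (constant size), or `front r h f σ` with `r` the program of `x` or its tail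
  (or, at the root, the program of `x` and `f ∈ F`) and at most one more bit in `σ`.
  (Tags: `sz (3 : ℕ) = 7`, `sz (4 : ℕ) = 9`.)
* `sz_kidsN_le`: the index `i < (kids x).length ≤ R + F.length + 4`, so
  `sz a' ≤ sz a + (2 R + 2 F.length + ...) + sz F + 200` for `a' ∈ kidsN a`; the default
  `x0` in `getD` is not reached for `i < length`.
* `pt_levC`: `PolyTime.iterate`; after `i` steps the list has at most `cap + 1` elements (`take`, and
  the start `[([], x0)]`), each of size at most `sz ([], x0) + i * (bound of the previous item)`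
  (invariant by induction on `i`), `sz_le_of_length`; with `R`, `F`, `x0`, `cap`, `l`, `q`, `φ`
  polynomial-time functions of `a` all of this is polynomially bounded.
* `pt_nodesC`: `PolyTime.flatMap` over `PolyTime.range`.
-/

set_option autoImplicit false

namespace Pool.Agent.FFT

open Pool.Agent.Lib.PT

variable {α : Type} [Enc α]

theorem pt_kidsN {F : α → List Fr} {R q : α → ℕ} {φ : α → Cnf3} {x0 : α → State}
    {a : α → List ℕ × State} (hF : PolyTime F) (hR : PolyTime R) (hq : PolyTime q)
    (hφ : PolyTime φ) (h0 : PolyTime x0) (ha : PolyTime a) :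
    PolyTime (fun z => kidsN (kids (F z) (R z) (ev (q z) (φ z))) (x0 z) (a z)) := by
  have hk : PolyTime (fun z => kids (F z) (R z) (ev (q z) (φ z)) (a z).2) :=
    pt_kids hF hR hq hφ ha.snd
  exact PolyTime.map (l := fun z => List.range (kids (F z) (R z) (ev (q z) (φ z)) (a z).2).length)
    (f := fun z i => (i :: (a z).1, (kids (F z) (R z) (ev (q z) (φ z)) (a z).2).getD i (x0 z)))
    hk.length.range
    ((PolyTime.id.snd.cons (ha.fst.comp PolyTime.id.fst)).pair
      (PolyTime.getD (hk.comp PolyTime.id.fst) PolyTime.id.snd (h0.comp PolyTime.id.fst)))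

theorem ptl_sz_front (r : List Ins) (h : Bool) (f : Fr) (σ : List Bool) :
    sz (front r h f σ) = sz r + sz h + sz f + sz σ + 11 := by
  simp only [front, sz_pair, sz_nat]
  omega

theorem ptl_sz_heavy : sz heavy = 15 := by
  simp [heavy, f0]

theorem ptl_sz_fuse : sz fuse = 17 := by
  simp [fuse, f0]

theorem ptl_sz_leaf : sz leaf = 13 := by
  simp [leaf, f0]

theorem ptl_sz_alarm (b : Bool) : sz (alarm b) ≤ 17 := by
  cases b
  · rw [alarm_false, ptl_sz_fuse]
  · rw [alarm_true, ptl_sz_heavy]; norm_num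

theorem ptl_kids1 (ev : Cond → Fr → List Bool → Bool) (i : Ins) (r : List Ins) (f : Fr)
    (σ : List Bool) : (∀ y ∈ kids1 ev i r f σ, sz y ≤ sz (i :: r) + sz f + sz σ + 30) ∧
      (kids1 ev i r f σ).length ≤ 3 := by
  have hb : ∀ b : Bool, sz b ≤ 3 := sz_bool_le
  have e1 : ∀ σ' : List Bool, sz σ' ≤ sz σ + 4 →
      sz (front (i :: r) true f σ') ≤ sz (i :: r) + sz f + sz σ + 30 := by
    intro σ' hσ'
    rw [ptl_sz_front, sz_true]
    omega
  have e2 : ∀ b, sz (alarm b) ≤ sz (i :: r) + sz f + sz σ + 30 := by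
    intro b
    have := ptl_sz_alarm b
    omega
  have e3 : ∀ b : Bool, sz (b :: σ) ≤ sz σ + 4 := by
    intro b
    rw [sz_list_cons]
    have := hb b
    omega
  unfold kids1
  cases h1 : i.1
  · cases h2 : eqF f i.2.1.1 <;> cases h3 : eqF f i.2.2.1 <;>
      simp only [cond_true, cond_false, List.mem_cons, List.mem_append, List.not_mem_nil,
        or_false, List.append_nil, List.nil_append, List.length_cons, List.length_nil,
        List.cons_append, forall_eq_or_imp, forall_eq]
    · exact ⟨e1 σ (by omega), by norm_num⟩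
    · exact ⟨⟨e1 σ (by omega), e2 _⟩, by norm_num⟩
    · exact ⟨⟨e1 σ (by omega), e2 _⟩, by norm_num⟩
    · exact ⟨⟨e1 σ (by omega), e2 _, e2 _⟩, by norm_num⟩
  · cases h2 : eqF f i.2.1.1 <;>
      simp only [cond_true, cond_false, List.mem_cons, List.not_mem_nil,
        or_false, List.length_cons, List.length_nil, forall_eq_or_imp, forall_eq]
    · exact ⟨e1 σ (by omega), by norm_num⟩
    · exact ⟨⟨e1 _ (e3 _), e1 _ (e3 _)⟩, by norm_num⟩

theorem ptl_kids2 (i : Ins) (r : List Ins) (f : Fr)
    (σ : List Bool) : (∀ y ∈ kids2 i r f σ, sz y ≤ sz r + sz f + sz σ + 30) ∧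
      (kids2 i r f σ).length ≤ 3 := by
  have e1 : sz (front r false f σ) ≤ sz r + sz f + sz σ + 30 := by
    rw [ptl_sz_front, sz_false]
    omega
  have e2 : sz heavy ≤ sz r + sz f + sz σ + 30 := by
    rw [ptl_sz_heavy]
    omega
  unfold kids2
  cases h1 : (i.1 && eqF f i.2.1.1)
  · simp only [cond_false, List.mem_cons, List.not_mem_nil,
        or_false, List.length_cons, List.length_nil, forall_eq]
    exact ⟨e1, by norm_num⟩
  · simp only [cond_true, List.mem_cons, List.not_mem_nil,
        or_false, List.length_cons, List.length_nil, forall_eq_or_imp, forall_eq]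
    exact ⟨⟨e1, e2⟩, by norm_num⟩

theorem ptl_kidsF (ev : Cond → Fr → List Bool → Bool) (r : List Ins) (h : Bool) (f : Fr)
    (σ : List Bool) : (∀ y ∈ kidsF ev r h f σ, sz y ≤ sz r + sz f + sz σ + 30) ∧
      (kidsF ev r h f σ).length ≤ 3 := by
  cases r with
  | nil => simp [kidsF]
  | cons i r =>
    have hd : (i :: r).headD (choice f0) = i := rfl
    have ht : (i :: r).tail = r := rfl
    have he : (i :: r).isEmpty = false := rfl
    unfold kidsF
    rw [hd, ht, he]
    cases h
    · simp only [cond_false]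
      exact ptl_kids1 ev i r f σ
    · simp only [cond_false, cond_true]
      obtain ⟨h1, h2⟩ := ptl_kids2 i r f σ
      refine ⟨fun y hy => ?_, h2⟩
      have h3 := h1 y hy
      rw [sz_list_cons]
      omega

theorem sz_kids_le (F : List Fr) (R q : ℕ) (φ : Cnf3) (x y : State)
    (h : y ∈ kids F R (ev q φ) x) : sz y ≤ sz x + sz F + 100 := by
  obtain ⟨t, ⟨r, b⟩, ⟨f, σ⟩⟩ := x
  have hx : sz ((t, (r, b), (f, σ)) : State) = 2 * t + sz r + sz b + sz f + sz σ + 5 := by
    simp only [sz_pair, sz_nat]
    omega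
  rw [hx]
  unfold kids at h
  simp only at h
  by_cases h1 : t = 1
  · rw [decide_eq_true h1, cond_true] at h
    rw [List.eq_of_mem_replicate h, ptl_sz_leaf]
    omega
  rw [decide_eq_false h1, cond_false] at h
  by_cases h2 : t = 2
  · rw [decide_eq_true h2, cond_true, List.mem_singleton] at h
    rw [h, ptl_sz_heavy]
    omega
  rw [decide_eq_false h2, cond_false] at h
  by_cases h3 : t = 3
  · rw [decide_eq_true h3, cond_true] at h
    have := (ptl_kidsF (ev q φ) r b f σ).1 y h
    omega
  rw [decide_eq_false h3, cond_false] at h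
  by_cases h4 : t = 4
  · rw [decide_eq_true h4, cond_true, List.mem_cons, List.mem_map] at h
    rcases h with rfl | ⟨g, hg, rfl⟩
    · rw [ptl_sz_heavy]
      omega
    · have := sz_mem_lt hg
      rw [ptl_sz_front, sz_false, sz_list_nil]
      omega
  · rw [decide_eq_false h4, cond_false] at h
    simp at h

theorem length_kids_le (F : List Fr) (R q : ℕ) (φ : Cnf3) (x : State) :
    (kids F R (ev q φ) x).length ≤ R + F.length + 4 := by
  obtain ⟨t, ⟨r, b⟩, ⟨f, σ⟩⟩ := x
  unfold kids
  simp only
  by_cases h1 : t = 1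
  · rw [decide_eq_true h1, cond_true, List.length_replicate]
    omega
  rw [decide_eq_false h1, cond_false]
  by_cases h2 : t = 2
  · rw [decide_eq_true h2, cond_true, List.length_singleton]
    omega
  rw [decide_eq_false h2, cond_false]
  by_cases h3 : t = 3
  · rw [decide_eq_true h3, cond_true]
    have := (ptl_kidsF (ev q φ) r b f σ).2
    omega
  rw [decide_eq_false h3, cond_false]
  by_cases h4 : t = 4
  · rw [decide_eq_true h4, cond_true, List.length_cons, List.length_map]
    omega
  · rw [decide_eq_false h4, cond_false]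
    simp

/-- the increment of the size of a node per level -/
def ptlK (F : List Fr) (R : ℕ) : ℕ := 2 * (R + F.length + 4) + sz F + 102

theorem ptl_kidsN_le (F : List Fr) (R q : ℕ) (φ : Cnf3) (x0 : State) (a a' : List ℕ × State)
    (h : a' ∈ kidsN (kids F R (ev q φ)) x0 a) : sz a' ≤ sz a + ptlK F R := by
  unfold kidsN at h
  rw [List.mem_map] at h
  obtain ⟨i, hi, rfl⟩ := h
  rw [List.mem_range] at hi
  have h1 := length_kids_le F R q φ a.2
  have h2 : (kids F R (ev q φ) a.2).getD i x0 ∈ kids F R (ev q φ) a.2 := by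
    rw [List.getD_eq_getElem _ _ hi]
    exact List.getElem_mem hi
  have h3 := sz_kids_le F R q φ _ _ h2
  obtain ⟨p, x⟩ := a
  simp only [sz_pair, sz_list_cons, sz_nat, ptlK] at h3 ⊢
  simp only at h1 hi
  omega

theorem ptl_levC_sz (F : List Fr) (R q : ℕ) (φ : Cnf3) (x0 : State) (cap i : ℕ) :
    (levC (kids F R (ev q φ)) x0 cap i).length ≤ cap + 1 ∧
      ∀ a ∈ levC (kids F R (ev q φ)) x0 cap i, sz a ≤ sz x0 + 2 + i * ptlK F R := by
  induction i with
  | zero =>
    simp only [levC, Function.iterate_zero, id, List.length_singleton, List.mem_singleton,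
      forall_eq, sz_pair, sz_list_nil]
    constructor <;> omega
  | succ i ih =>
    have e : levC (kids F R (ev q φ)) x0 cap (i + 1) =
        ((levC (kids F R (ev q φ)) x0 cap i).flatMap
          (kidsN (kids F R (ev q φ)) x0)).take cap := by
      unfold levC
      rw [Function.iterate_succ_apply']
    rw [e]
    refine ⟨(List.length_take_le _ _).trans (by omega), fun a ha => ?_⟩
    have h1 := List.mem_of_mem_take ha
    rw [List.mem_flatMap] at h1
    obtain ⟨b, hb, hab⟩ := h1
    have h2 := ptl_kidsN_le F R q φ x0 b a hab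
    have h3 := ih.2 b hb
    rw [Nat.succ_mul]
    omega

theorem pt_levC {F : α → List Fr} {R q : α → ℕ} {φ : α → Cnf3} {x0 : α → State}
    {cap l : α → ℕ} (hF : PolyTime F) (hR : PolyTime R) (hq : PolyTime q)
    (hφ : PolyTime φ) (h0 : PolyTime x0) (hc : PolyTime cap) (hl : PolyTime l) :
    PolyTime (fun z => levC (kids (F z) (R z) (ev (q z) (φ z))) (x0 z) (cap z) (l z)) := by
  have hf : PolyTime (fun p : α × List (List ℕ × State) =>
      (p.2.flatMap (kidsN (kids (F p.1) (R p.1) (ev (q p.1) (φ p.1))) (x0 p.1))).take (cap p.1)) :=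
    PolyTime.take (hc.comp PolyTime.id.fst)
      (PolyTime.flatMap (l := fun p : α × List (List ℕ × State) => p.2)
        (f := fun p => kidsN (kids (F p.1) (R p.1) (ev (q p.1) (φ p.1))) (x0 p.1))
        PolyTime.id.snd
        (pt_kidsN (hF.comp PolyTime.id.fst.fst) (hR.comp PolyTime.id.fst.fst)
          (hq.comp PolyTime.id.fst.fst) (hφ.comp PolyTime.id.fst.fst)
          (h0.comp PolyTime.id.fst.fst) PolyTime.id.snd))
  have hn : ∀ {g : α → ℕ}, PolyTime g → PB g := fun hg =>
    hg.size_bdd.mono fun a => by rw [sz_nat]; omega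
  have hK : PB (fun z => ptlK (F z) (R z)) := by
    have hlen : PB (fun z => (F z).length) := hF.size_bdd.mono fun a => (length_lt_sz _).le
    exact (((PB.const 2).mul (((hn hR).add hlen).add (PB.const 4))).add hF.size_bdd).add
      (PB.const 102)
  have hB : PB (fun z => (cap z + 1) * ((sz (x0 z) + 2 + l z * ptlK (F z) (R z)) + 1) + 1) :=
    (((hn hc).add (PB.const 1)).mul
      (((h0.size_bdd.add (PB.const 2)).add ((hn hl).mul hK)).add (PB.const 1))).add (PB.const 1)
  obtain ⟨p, hp⟩ := hB
  refine PolyTime.iterate (n := l) (b := fun z => [([], x0 z)])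
    (f := fun z L => (L.flatMap (kidsN (kids (F z) (R z) (ev (q z) (φ z))) (x0 z))).take (cap z))
    hl (((PolyTime.const []).pair h0).cons (PolyTime.const [])) hf ⟨p, fun a i hi => ?_⟩
  refine le_trans ?_ (hp a)
  obtain ⟨h1, h2⟩ := ptl_levC_sz (F a) (R a) (q a) (φ a) (x0 a) (cap a) i
  refine sz_le_of_length (n := cap a + 1) (B := sz (x0 a) + 2 + l a * ptlK (F a) (R a)) h1 ?_
  intro b hb
  refine (h2 b hb).trans ?_
  have := Nat.mul_le_mul_right (ptlK (F a) (R a)) hi
  omega

theorem pt_nodesC {F : α → List Fr} {R q : α → ℕ} {φ : α → Cnf3} {x0 : α → State}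
    {cap D : α → ℕ} (hF : PolyTime F) (hR : PolyTime R) (hq : PolyTime q)
    (hφ : PolyTime φ) (h0 : PolyTime x0) (hc : PolyTime cap) (hD : PolyTime D) :
    PolyTime (fun z => nodesC (kids (F z) (R z) (ev (q z) (φ z))) (x0 z) (cap z) (D z)) :=
  PolyTime.flatMap (l := fun z => List.range (D z + 1))
    (f := fun z l => levC (kids (F z) (R z) (ev (q z) (φ z))) (x0 z) (cap z) l)
    hD.succ.range
    (pt_levC (hF.comp PolyTime.id.fst) (hR.comp PolyTime.id.fst) (hq.comp PolyTime.id.fst)
      (hφ.comp PolyTime.id.fst) (h0.comp PolyTime.id.fst) (hc.comp PolyTime.id.fst)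
      PolyTime.id.snd)

end Pool.Agent.FFT
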