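import Mathlib
import Pool.Agent.Lib.PolyTime.Lib
import Pool.Agent.CDom.Parse
import Pool.Agent.FFT.Sys
import Pool.Agent.FFT.PTSys
import Pool.Agent.FFT.PTLev

/-!
# MODULE FFT/PTBuild  (MP_4a4383_lc)

The reductions `build2`, `build3` are polynomial-time in their input `(b, (N, φ), p)`.

Proofs: closure lemmas.  `Fs`: three nested `flatMap`/`map` over `range`.  `progC`:
`PolyTime.flatMap` with `PolyTime.replicate`; `progE`: nested `flatMap`; `eqIns`, `choice`, `check`:
pairs.  `qOf`: `PolyTime.filter`, `PolyTime.le`, `PolyTime.mul`.  `kOf`, `tOf`, `padOf`: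
`PolyTime.add`, `PolyTime.mul`, `PolyTime.length`.  `treeIn`: `pt_nodesC` with
`x0 = root (prog b q)`.  `un`: `PolyTime.replicate`.  `encM`: `Pool.Agent.CDom.Prog.pt_encM`.
-/

set_option autoImplicit false

namespace Pool.Agent.FFT

open Pool.Agent.Lib.PT

variable {α : Type} [Enc α]

theorem pt_Fs {b : α → ℕ} (hb : PolyTime b) : PolyTime (fun a => Fs (b a)) := by
  refine PolyTime.flatMap (l := fun a => List.range (b a))
    (f := fun (a : α) (x : ℕ) => (List.range (b a)).flatMap fun y =>
      (List.range (b a)).map fun z => ((x, y, z) : Fr)) hb.range ?_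
  refine PolyTime.flatMap (α := α × ℕ) (l := fun a => List.range (b a.1))
    (f := fun (a : α × ℕ) (y : ℕ) =>
      (List.range (b a.1)).map fun z => ((a.2, y, z) : Fr))
    (hb.comp PolyTime.id.fst).range ?_
  refine PolyTime.map (α := (α × ℕ) × ℕ) (l := fun a => List.range (b a.1.1))
    (f := fun (a : (α × ℕ) × ℕ) (z : ℕ) => ((a.1.2, a.2, z) : Fr))
    (hb.comp PolyTime.id.fst.fst).range ?_
  exact PolyTime.id.fst.fst.snd.pair (PolyTime.id.fst.snd.pair PolyTime.id.snd)

theorem pt_choice {g : α → Fr} (hg : PolyTime g) : PolyTime (fun a => choice (g a)) :=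
  (PolyTime.const true).pair
    ((hg.pair (PolyTime.const c0)).pair (hg.pair (PolyTime.const c0)))

theorem pt_check {f1 f2 : α → Fr} {d1 d2 : α → Cond} (h1 : PolyTime f1) (e1 : PolyTime d1)
    (h2 : PolyTime f2) (e2 : PolyTime d2) :
    PolyTime (fun a => check (f1 a) (d1 a) (f2 a) (d2 a)) :=
  (PolyTime.const false).pair ((h1.pair e1).pair (h2.pair e2))

theorem pt_eqIns {q t i : α → ℕ} {f : α → Fr} {v : α → Bool} (hq : PolyTime q) (hf : PolyTime f)
    (ht : PolyTime t) (hi : PolyTime i) (hv : PolyTime v) :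
    PolyTime (fun a => eqIns (q a) (f a) (t a) (i a) (v a)) := by
  refine pt_check hf ((PolyTime.const false).pair (((ht.mul hq).add hi).pair hv)) ?_
    ((PolyTime.const false).pair (hi.pair hv.not))
  exact (pt_slot ht hf).pair ((pt_slot ht hf).pair (pt_slot ht hf))

theorem pt_progC {b q : α → ℕ} (hb : PolyTime b) (hq : PolyTime q) :
    PolyTime (fun a => progC (b a) (q a)) := by
  refine PolyTime.flatMap (l := fun a => Fs (b a))
    (f := fun (a : α) (f : Fr) => List.replicate (3 * q a) (choice f)) (pt_Fs hb) ?_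
  exact ((PolyTime.const 3).mul (hq.comp PolyTime.id.fst)).replicate (pt_choice PolyTime.id.snd)

theorem pt_progE {b q : α → ℕ} (hb : PolyTime b) (hq : PolyTime q) :
    PolyTime (fun a => progE (b a) (q a)) := by
  refine PolyTime.flatMap (l := fun a => Fs (b a))
    (f := fun (a : α) (f : Fr) => (List.range 3).flatMap fun t => (List.range (q a)).flatMap fun i =>
      [eqIns (q a) f t i true, eqIns (q a) f t i false]) (pt_Fs hb) ?_
  refine PolyTime.flatMap (α := α × Fr) (l := fun _ => List.range 3)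
    (f := fun (a : α × Fr) (t : ℕ) => (List.range (q a.1)).flatMap fun i =>
      [eqIns (q a.1) a.2 t i true, eqIns (q a.1) a.2 t i false]) (PolyTime.const 3).range ?_
  refine PolyTime.flatMap (α := (α × Fr) × ℕ) (l := fun a => List.range (q a.1.1))
    (f := fun (a : (α × Fr) × ℕ) (i : ℕ) =>
      [eqIns (q a.1.1) a.1.2 a.2 i true, eqIns (q a.1.1) a.1.2 a.2 i false])
    (hq.comp PolyTime.id.fst.fst).range ?_
  have h := hq.comp (β := α) (α := ((α × Fr) × ℕ) × ℕ) (f := fun x => x.1.1.1)
    PolyTime.id.fst.fst.fst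
  exact (pt_eqIns h PolyTime.id.fst.fst.snd PolyTime.id.fst.snd PolyTime.id.snd
    (PolyTime.const true)).cons ((pt_eqIns h PolyTime.id.fst.fst.snd PolyTime.id.fst.snd
      PolyTime.id.snd (PolyTime.const false)).cons (PolyTime.const []))

theorem pt_progV {b : α → ℕ} (hb : PolyTime b) : PolyTime (fun a => progV (b a)) := by
  refine PolyTime.map (l := fun a => Fs (b a))
    (f := fun (_ : α) (f : Fr) => check f (true, 0, false) f (true, 0, false)) (pt_Fs hb) ?_
  exact pt_check PolyTime.id.snd (PolyTime.const _) PolyTime.id.snd (PolyTime.const _)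

theorem pt_prog {b q : α → ℕ} (hb : PolyTime b) (hq : PolyTime q) :
    PolyTime (fun a => prog (b a) (q a)) :=
  (pt_progC hb hq).append ((pt_progE hb hq).append (pt_progV hb))

theorem pt_qOf {b N : α → ℕ} (hb : PolyTime b) (hN : PolyTime N) :
    PolyTime (fun a => qOf (b a) (N a)) := by
  refine PolyTime.length ?_
  refine PolyTime.filter (l := fun a => List.range (N a + 1))
    (f := fun (a : α) (i : ℕ) => decide (i * b a ≤ N a)) hN.succ.range ?_
  exact (PolyTime.id.snd.mul (hb.comp PolyTime.id.fst)).le (hN.comp PolyTime.id.fst)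

theorem pt_kOf {b q : α → ℕ} (hb : PolyTime b) (hq : PolyTime q) :
    PolyTime (fun a => kOf (b a) (q a)) :=
  ((PolyTime.const 1).add (pt_Fs hb).length).add
    ((((PolyTime.const 2).mul (pt_Fs hb).length).add (PolyTime.const 1)).mul
      (pt_prog hb hq).length)

theorem pt_tOf {b q : α → ℕ} (hb : PolyTime b) (hq : PolyTime q) :
    PolyTime (fun a => tOf (b a) (q a)) :=
  (PolyTime.const 1).add ((PolyTime.const 2).mul (pt_prog hb hq).length)

theorem pt_padOf {b q p : α → ℕ} (hb : PolyTime b) (hq : PolyTime q) (hp : PolyTime p) :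
    PolyTime (fun a => padOf (b a) (q a) (p a)) :=
  ((pt_kOf hb hq).succ.add (PolyTime.const 2)).add
    ((pt_Fs hb).length.mul (hp.mul ((PolyTime.const 1).add
      ((((PolyTime.const 3).mul (pt_kOf hb hq).succ).add (PolyTime.const 7)).mul
        (pt_prog hb hq).length))))

theorem pt_root {r : α → List Ins} (hr : PolyTime r) : PolyTime (fun a => root (r a)) :=
  (PolyTime.const 4).pair ((hr.pair (PolyTime.const false)).pair (PolyTime.const (f0, [])))

theorem pt_treeOf {b q cap : α → ℕ} {φ : α → Cnf3} (hb : PolyTime b) (hq : PolyTime q)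
    (hφ : PolyTime φ) (hc : PolyTime cap) :
    PolyTime (fun a => treeOf (b a) (q a) (φ a) (cap a)) :=
  pt_nodesC (F := fun a => Fs (b a)) (R := fun a => kOf (b a) (q a) + 1) (q := q) (φ := φ)
    (x0 := fun a => root (prog (b a) (q a))) (cap := cap)
    (D := fun a => 2 * (prog (b a) (q a)).length + 2)
    (pt_Fs hb) (pt_kOf hb hq).succ hq hφ (pt_root (pt_prog hb hq)) hc
    (((PolyTime.const 2).mul (pt_prog hb hq).length).add (PolyTime.const 2))

theorem pt_in1 : PolyTime (fun x : ℕ × (ℕ × Cnf3) × ℕ => x.1) := PolyTime.id.fst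

theorem pt_in2 : PolyTime (fun x : ℕ × (ℕ × Cnf3) × ℕ => qOf x.1 x.2.1.1) :=
  pt_qOf PolyTime.id.fst PolyTime.id.snd.fst.fst

theorem pt_treeIn : PolyTime treeIn :=
  pt_treeOf (b := fun x : ℕ × (ℕ × Cnf3) × ℕ => x.1) (q := fun x => qOf x.1 x.2.1.1)
    (φ := fun x => x.2.1.2) (cap := fun x => padOf x.1 (qOf x.1 x.2.1.1) x.2.2)
    pt_in1 pt_in2 PolyTime.id.snd.fst.snd (pt_padOf pt_in1 pt_in2 PolyTime.id.snd.snd)

theorem pt_un {n : α → ℕ} (hn : PolyTime n) : PolyTime (fun a => un (n a)) :=
  hn.replicate (PolyTime.const true)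

theorem pt_build2 : PolyTime build2 := by
  refine PolyTime.pair ?_ (pt_treeIn.length.pair (pt_kOf pt_in1 pt_in2))
  refine Pool.Agent.CDom.Prog.pt_encM.comp ?_
  exact (pt_rowsN pt_treeIn).append ((PolyTime.const (un 0)).cons
    ((pt_un (pt_kOf pt_in1 pt_in2)).cons (PolyTime.const [])))

theorem pt_build3 : PolyTime build3 := by
  refine PolyTime.pair ?_ (pt_treeIn.length.pair (pt_tOf pt_in1 pt_in2))
  refine Pool.Agent.CDom.Prog.pt_encM.comp ?_
  exact (pt_rowsN pt_treeIn).append ((PolyTime.const (un 0)).cons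
    ((pt_un (pt_tOf pt_in1 pt_in2)).cons
      ((pt_un (pt_treeIn.length.sub (pt_kOf pt_in1 pt_in2))).cons (PolyTime.const []))))

end Pool.Agent.FFT
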