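import Mathlib
import Pool.Agent.FFT.Sys

/-!
# MODULE FFT/ProgLem  (MP_4a4383_lc)

Numbers for the program of a formula.

Proofs.
* `length_Fs`, `nodup_Fs`, `mem_Fs`: `List.length_flatMap`, `List.nodup_flatMap`, ...
* `length_prog`: choices `B * 3 q`, equality checks `B * 3 * q * 2`, violation checks `B`.
* `wf_prog`: `f ∈ Fs b`, reference front `(slot t f, slot t f, slot t f) ∈ Fs b` as `slot t f < b`.
* `cnt_prog`: checks have `i.1 = false`; the choices of `f`: only the block of `f` counts, at most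
  once (`nodup_Fs`), `3 * q` instructions.  (Induct on a list `F` without duplicates in place of
  `Fs b`.)
* `qOf_eq`: `i * b ≤ N ↔ i ≤ N / b` (`Nat.le_div_iff_mul_le`), and `N / b ≤ N`.
* `le_mul_qOf`: `N < b * (N / b + 1)`.
* `kOf_le`: `B = b ^ 3`, `q = N / b + 1 ≤ N + 1`, `|p| ≤ 10 b ^ 3 (N + 1)`,
  `kOf ≤ 1 + b ^ 3 + 3 b ^ 3 * 10 b ^ 3 (N + 1) ≤ 32 b ^ 6 (N + 1)`.
* `tOf_le_kOf`: `B ≥ 0`: `1 + 2 |p| ≤ 1 + B + (2 B + 1) |p|` as `B ≥ 1` (for `b ≥ 1`).
-/

set_option autoImplicit false
set_option linter.all false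

namespace Pool.Agent.FFT

theorem Fs_eq (b : ℕ) :
    Fs b = List.range b ×ˢ (List.range b ×ˢ List.range b) := by
  show Fs b = (List.range b).product ((List.range b).product (List.range b))
  simp [Fs, List.product, List.map_flatMap, List.map_map, Function.comp_def]

theorem length_Fs (b : ℕ) : (Fs b).length = b ^ 3 := by
  rw [Fs_eq, List.length_product, List.length_product, List.length_range]
  ring

theorem nodup_Fs (b : ℕ) : (Fs b).Nodup := by
  rw [Fs_eq]
  exact List.nodup_range.product (List.nodup_range.product List.nodup_range)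

theorem mem_Fs (b : ℕ) (f : Fr) : f ∈ Fs b ↔ f.1 < b ∧ f.2.1 < b ∧ f.2.2 < b := by
  obtain ⟨x, y, z⟩ := f
  rw [Fs_eq, List.mem_product, List.mem_product, List.mem_range, List.mem_range, List.mem_range]

theorem slot_lt {b : ℕ} {f : Fr} (h : f ∈ Fs b) (t : ℕ) : slot t f < b := by
  rw [mem_Fs] at h
  unfold slot
  by_cases h0 : t = 0
  · simp [h0, h.1]
  · by_cases h1 : t = 1
    · simp [h1, h.2.1]
    · simp [h0, h1, h.2.2]

theorem length_flatMap_const {α β : Type*} (l : List α) (g : α → List β) (c : ℕ)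
    (h : ∀ x, (g x).length = c) : (l.flatMap g).length = l.length * c := by
  induction l with
  | nil => simp
  | cons a l ih => rw [List.flatMap_cons, List.length_append, ih, h, List.length_cons]; ring

theorem length_prog (b q : ℕ) : (prog b q).length = 9 * b ^ 3 * q + b ^ 3 := by
  have h1 : (progC b q).length = b ^ 3 * (3 * q) := by
    rw [progC, length_flatMap_const _ _ (3 * q) (fun f => List.length_replicate), length_Fs]
  have h2 : (progE b q).length = b ^ 3 * (3 * (q * 2)) := by
    rw [progE, length_flatMap_const _ _ (3 * (q * 2)), length_Fs]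
    intro f
    rw [length_flatMap_const _ _ (q * 2), List.length_range]
    intro t
    rw [length_flatMap_const _ _ 2, List.length_range]
    intro i
    rfl
  have h3 : (progV b).length = b ^ 3 := by
    rw [progV, List.length_map, length_Fs]
  rw [prog, List.length_append, List.length_append, h1, h2, h3]
  ring

theorem ref_mem {b : ℕ} {f : Fr} (h : f ∈ Fs b) (t : ℕ) :
    ((slot t f, slot t f, slot t f) : Fr) ∈ Fs b := by
  rw [mem_Fs]
  exact ⟨slot_lt h t, slot_lt h t, slot_lt h t⟩

theorem wf_prog (b q : ℕ) : WF (Fs b) (prog b q) := by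
  intro i hi
  rw [prog, List.mem_append, List.mem_append] at hi
  rcases hi with hi | hi | hi
  · rw [progC, List.mem_flatMap] at hi
    obtain ⟨f, hf, hi⟩ := hi
    obtain rfl := List.eq_of_mem_replicate hi
    exact ⟨Or.inl ⟨f, rfl⟩, hf, hf⟩
  · rw [progE, List.mem_flatMap] at hi
    obtain ⟨f, hf, hi⟩ := hi
    rw [List.mem_flatMap] at hi
    obtain ⟨t, -, hi⟩ := hi
    rw [List.mem_flatMap] at hi
    obtain ⟨j, -, hi⟩ := hi
    rw [List.mem_cons, List.mem_singleton] at hi
    rcases hi with rfl | rfl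
    · exact ⟨Or.inr ⟨_, _, _, _, rfl⟩, hf, ref_mem hf t⟩
    · exact ⟨Or.inr ⟨_, _, _, _, rfl⟩, hf, ref_mem hf t⟩
  · rw [progV, List.mem_map] at hi
    obtain ⟨f, hf, rfl⟩ := hi
    exact ⟨Or.inr ⟨_, _, _, _, rfl⟩, hf, hf⟩

theorem cnt_append (f : Fr) (r s : List Ins) : cnt f (r ++ s) = cnt f r + cnt f s := by
  rw [cnt, cnt, cnt, List.filter_append, List.length_append]

theorem cnt_eq_zero (f : Fr) (r : List Ins) (h : ∀ i ∈ r, (i.1 && eqF f i.2.1.1) = false) :
    cnt f r = 0 := by
  rw [cnt, List.length_eq_zero_iff, List.filter_eq_nil_iff]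
  intro i hi
  rw [h i hi]
  exact Bool.false_ne_true

theorem cnt_replicate_self (f : Fr) (m : ℕ) : cnt f (List.replicate m (choice f)) = m := by
  rw [cnt, List.filter_replicate, if_pos (by simp [choice]), List.length_replicate]

theorem cnt_replicate_ne {f g : Fr} (h : f ≠ g) (m : ℕ) :
    cnt f (List.replicate m (choice g)) = 0 := by
  apply cnt_eq_zero
  intro i hi
  obtain rfl := List.eq_of_mem_replicate hi
  simp [choice, eqF_false h]

theorem cnt_blocks (f : Fr) (m : ℕ) (F : List Fr) (hF : F.Nodup) :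
    cnt f (F.flatMap fun g => List.replicate m (choice g)) = if f ∈ F then m else 0 := by
  induction F with
  | nil => rfl
  | cons g F ih =>
    rw [List.nodup_cons] at hF
    rw [List.flatMap_cons, cnt_append, ih hF.2]
    by_cases h : f = g
    · subst h
      rw [cnt_replicate_self, if_neg hF.1, if_pos List.mem_cons_self, add_zero]
    · rw [cnt_replicate_ne h, zero_add]
      simp [List.mem_cons, h]

theorem cnt_prog (b q : ℕ) (f : Fr) : cnt f (prog b q) ≤ 3 * q := by
  have h1 : cnt f (progC b q) ≤ 3 * q := by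
    rw [progC, cnt_blocks f (3 * q) (Fs b) (nodup_Fs b)]
    split_ifs <;> omega
  have h2 : cnt f (progE b q) = 0 := by
    apply cnt_eq_zero
    intro i hi
    rw [progE, List.mem_flatMap] at hi
    obtain ⟨g, hg, hi⟩ := hi
    rw [List.mem_flatMap] at hi
    obtain ⟨t, -, hi⟩ := hi
    rw [List.mem_flatMap] at hi
    obtain ⟨j, -, hi⟩ := hi
    rw [List.mem_cons, List.mem_singleton] at hi
    rcases hi with rfl | rfl <;> rfl
  have h3 : cnt f (progV b) = 0 := by
    apply cnt_eq_zero
    intro i hi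
    rw [progV, List.mem_map] at hi
    obtain ⟨g, hg, rfl⟩ := hi
    rfl
  rw [prog, cnt_append, cnt_append, h2, h3]
  omega

theorem length_filter_lt (m n : ℕ) :
    ((List.range n).filter fun i => decide (i < m)).length = min m n := by
  induction n with
  | zero => simp
  | succ n ih =>
    rw [List.range_succ, List.filter_append, List.length_append, ih]
    by_cases h : n < m
    · rw [List.filter_cons_of_pos (by simpa using h)]
      simp
      omega
    · rw [List.filter_cons_of_neg (by simpa using h)]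
      simp
      omega

theorem qOf_eq (b N : ℕ) (hb : 1 ≤ b) : qOf b N = N / b + 1 := by
  have h1 : (fun i : ℕ => decide (i * b ≤ N)) = fun i => decide (i < N / b + 1) := by
    funext i
    rw [decide_eq_decide, ← Nat.le_div_iff_mul_le (by omega), Nat.lt_succ_iff]
  rw [qOf, h1, length_filter_lt]
  have h2 : N / b ≤ N := Nat.div_le_self N b
  omega

theorem le_mul_qOf (b N : ℕ) (hb : 1 ≤ b) : N ≤ b * qOf b N := by
  rw [qOf_eq b N hb]
  exact (Nat.lt_mul_div_succ N (by omega)).le

theorem kOf_le (b N : ℕ) (hb : 1 ≤ b) : kOf b (qOf b N) ≤ 100 * b ^ 6 * (N + 1) := by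
  have hq : qOf b N ≤ N + 1 := by
    rw [qOf_eq b N hb]
    have := Nat.div_le_self N b
    omega
  rw [kOf, length_Fs, length_prog]
  have hB : 1 ≤ b ^ 3 := Nat.one_le_pow _ _ hb
  have h6 : b ^ 6 = b ^ 3 * b ^ 3 := by ring
  rw [h6]
  generalize qOf b N = q at hq
  generalize b ^ 3 = B at hB
  have hM : 1 ≤ N + 1 := by omega
  generalize N + 1 = M at hq hM
  have h1 : 9 * B * q + B ≤ 10 * B * M := by nlinarith [Nat.mul_le_mul_left B hq]
  have h2 : (2 * B + 1) * (9 * B * q + B) ≤ (3 * B) * (10 * B * M) :=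
    Nat.mul_le_mul (by omega) h1
  have h3 : B ≤ B * B * M := by
    calc B = B * 1 * 1 := by ring
      _ ≤ B * B * M := Nat.mul_le_mul (Nat.mul_le_mul le_rfl hB) hM
  have h4 : 1 ≤ B * B * M := hB.trans h3
  calc 1 + B + (2 * B + 1) * (9 * B * q + B) ≤ B * B * M + B * B * M + (3 * B) * (10 * B * M) := by
        omega
    _ = 32 * (B * B * M) := by ring
    _ ≤ 100 * (B * B * M) := Nat.mul_le_mul_right _ (by norm_num)
    _ = 100 * (B * B) * M := by ring

theorem tOf_le_kOf (b q : ℕ) (hb : 1 ≤ b) : tOf b q ≤ kOf b q := by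
  rw [kOf, tOf, length_Fs]
  have hB : 1 ≤ b ^ 3 := Nat.one_le_pow _ _ hb
  have h1 : 2 * (prog b q).length ≤ (2 * b ^ 3 + 1) * (prog b q).length :=
    Nat.mul_le_mul_right _ (by omega)
  omega

end Pool.Agent.FFT
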