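import Mathlib
import Pool.Agent.Lib.PolyTime.FromTM2
import Pool.Agent.CDom.StmtDefs

/-!
# MODULE FFT/Sim  (MP_4a4383_lc)

Simulation of a Turing machine of Mathlib by a polynomial-time program with a time budget: the
program gets the input word and a number `u` (in unary) and returns the output word, if the machine
halts within `u` steps.

Model: `Pool/Agent/Lib/PolyTime/FromTM2.lean`.  Proof: repeat `Cells.exists_automaton_fun` and
`polyTime_of_TM2` with the time `B * u` instead of `T.eval w.length`:
* the automaton (`A`, `δ`, `s0`, `sI`, `sB`, `out`) is built from the machine only; the statement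
  `hfinal` becomes: if `Outputs T i o w w' t` and `t ≤ u`, then
  `(estep M)^[B * u] (c₀ w) = ⟨none, tm.initialState, (haltList tm (w'.map o.symm)).stk⟩`
  (`exists_iterate_step M hB _ n _ hn'`, `iterate_halted`), hence
  `out (traj δ s0 sI sB w (B * u) (i + 1)) = w'[i]?` and `w'.length ≤ w.length + B * u`.
* the program: `N = w.length + B * u`, `W = N + B * u + 2`, initial row `initRow A s0 sI sB w W`,
  `B * u` times `stepRow tab`, output by `look` in `A.map fun s => (out s).toList` at the cells
  `1, ..., N`, exactly as in `polyTime_of_TM2`; all closure lemmas are the same, now for functions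
  of `x : List Bool × ℕ` (`PolyTime.mul (PolyTime.const B) PolyTime.id.snd` for the time).
The `out` and the bound on `(w').length` are only used when the machine halts in time.
-/

set_option autoImplicit false

namespace Pool.Agent.FFT

open Pool.Agent.Lib.PT Pool.Agent.CDom

section Automaton

open Turing Turing.TM2 Turing.TM2.Stmt Function Pool.Agent.Lib.PT.Cells

/-- the cell automaton of a machine, with a time budget -/
theorem exists_automaton_sim (tm : Turing.FinTM2) (eI : tm.Γ tm.k₀ ≃ Bool)
    (eO : tm.Γ tm.k₁ ≃ Bool) :
    ∃ (S : Type) (A : Finset S) (δ : S → S → S → S → S) (s0 : S) (sI : Bool → S) (sB : S)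
      (out : S → Option Bool) (B : ℕ),
      (∀ w t i, traj δ s0 sI sB w t i ∈ A) ∧
      ∀ (w w' : List Bool) (t u : ℕ), Outputs tm eI eO w w' t → t ≤ u →
        (∀ i, out (traj δ s0 sI sB w (B * u) (i + 1)) = w'[i]?) ∧
        w'.length ≤ w.length + B * u := by
  classical
  let _ := tm.kFin
  let _ := tm.ΛFin
  let _ := tm.σFin
  let _ := tm.Γk₀Fin
  let M := tm.m
  obtain ⟨B, hB⟩ : ∃ B, ∀ l, ssize (M l) ≤ B :=
    ⟨Finset.univ.sup fun l => ssize (M l), fun l =>
      Finset.le_sup (f := fun l => ssize (M l)) (Finset.mem_univ l)⟩
  let I : ∀ k, Set (tm.Γ k) := fun k => if k = tm.k₀ then Set.univ else ∅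
  have hI : ∀ k, (I k).Finite := by
    intro k
    by_cases h : k = tm.k₀
    · subst h
      simp only [I, if_true]
      exact Set.finite_univ
    · simp only [I, if_neg h]
      exact Set.finite_empty
  let c₀ : List Bool → ECfg tm.Γ tm.Λ tm.σ := fun w =>
    emb M (initList tm (w.map eI.symm))
  let sI : Bool → Cell tm.Γ tm.Λ tm.σ := fun b => .col (update (fun _ => none) tm.k₀
    (some (eI.symm b)))
  let sB : Cell tm.Γ tm.Λ tm.σ := .col (fun _ => none)
  let s0 : Cell tm.Γ tm.Λ tm.σ := .ctl (some (M tm.main)) tm.initialState
  let out : Cell tm.Γ tm.Λ tm.σ → Option Bool := fun c => (c.get tm.k₁).map eO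
  have hstk : ∀ w k, (c₀ w).stk k = update (fun _ => []) tm.k₀ (w.map eI.symm) k := by
    intro w k
    by_cases h : k = tm.k₀
    · subst h
      simp [c₀, emb, initList]
    · simp [c₀, emb, initList, h]
  have htraj : ∀ w t, traj (Cell.trans M) s0 sI sB w t = cells ((estep M)^[t] (c₀ w)) := by
    intro w t
    induction t with
    | zero =>
      funext i
      cases i with
      | zero => rfl
      | succ i =>
        simp only [traj, row0, iterate_zero, id_eq, cells]
        cases h : w[i]? with
        | none =>
          simp only [sB]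
          congr 1
          funext k
          rw [hstk]
          by_cases hk : k = tm.k₀
          · subst hk
            simp [h]
          · simp [update_of_ne hk]
        | some b =>
          simp only [sI]
          congr 1
          funext k
          rw [hstk]
          by_cases hk : k = tm.k₀
          · subst hk
            simp [h]
          · simp [update_of_ne hk]
    | succ t ih =>
      funext i
      simp only [traj]
      rw [ih, iterate_succ_apply', cells_estep]
  have hgood : ∀ w t, Good M I ((estep M)^[t] (c₀ w)) := by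
    intro w t
    induction t with
    | zero =>
      refine ⟨mem_stmts_label M _, fun k x hx => ?_⟩
      simp only [iterate_zero, id_eq] at hx
      rw [hstk] at hx
      by_cases hk : k = tm.k₀
      · subst hk
        left
        simp [I]
      · simp [update_of_ne hk] at hx
    | succ t ih =>
      rw [iterate_succ_apply']
      exact ih.estep
  have hfinal : ∀ (w w' : List Bool) (t u : ℕ), Outputs tm eI eO w w' t → t ≤ u →
      (estep M)^[B * u] (c₀ w) =
        ⟨none, tm.initialState, (haltList tm (w'.map eO.symm)).stk⟩ := by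
    intro w w' t u hout hu
    obtain ⟨⟨n, hn⟩, hle⟩ := hout
    simp only at hn hle
    have hn' : (flip bind (TM2.step M))^[n] (some (initList tm (w.map eI.symm))) =
        some (haltList tm (w'.map eO.symm)) := hn
    obtain ⟨m, hm, h1⟩ := exists_iterate_step M hB _ n _ hn'
    have h2 : m ≤ B * u := hm.trans (Nat.mul_le_mul_left _ (hle.trans hu))
    obtain ⟨d, hd⟩ := Nat.exists_eq_add_of_le' h2
    rw [hd, iterate_add_apply]
    have h3 : (estep M)^[m] (c₀ w) = emb M (haltList tm (w'.map eO.symm)) := h1
    rw [h3]
    have h4 : emb M (haltList tm (w'.map eO.symm)) =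
      ⟨none, tm.initialState, (haltList tm (w'.map eO.symm)).stk⟩ := rfl
    rw [h4, iterate_halted]
  have hk1 : ∀ w' : List Bool,
      (haltList tm (w'.map eO.symm)).stk tm.k₁ = w'.map eO.symm := by
    intro w
    simp [haltList]
  refine ⟨Cell tm.Γ tm.Λ tm.σ, (finite_Used M I hI).toFinset, Cell.trans M, s0, sI, sB, out,
    B, ?_, fun w w' t u hout hu => ⟨?_, ?_⟩⟩
  · intro w t i
    rw [Set.Finite.mem_toFinset, htraj]
    exact (hgood w t).cells i
  · intro i
    rw [htraj, hfinal w w' t u hout hu]
    simp only [out, cells, Cell.get, hk1]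
    simp
  · have h1 := length_estep_iterate M (c₀ w) tm.k₁ (B * u)
    rw [hfinal w w' t u hout hu] at h1
    simp only [hk1, List.length_map] at h1
    refine h1.trans (Nat.add_le_add_right ?_ _)
    rw [hstk]
    by_cases hk : tm.k₁ = tm.k₀
    · rw [hk, update_self, List.length_map]
    · rw [update_of_ne hk]; simp

end Automaton

theorem exists_sim (T : Turing.FinTM2) (i : T.Γ T.k₀ ≃ Bool) (o : T.Γ T.k₁ ≃ Bool) :
    ∃ sim : List Bool × ℕ → List Bool, PolyTime sim ∧
      ∀ (w w' : List Bool) (t u : ℕ), Outputs T i o w w' t → t ≤ u → sim (w, u) = w' := by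
  classical
  obtain ⟨S, A', δ, s0, sI, sB, out, B, hA', hout⟩ := exists_automaton_sim T i o
  set A := A'.toList with hAdef
  have hA : ∀ w t i, traj δ s0 sI sB w t i ∈ A := fun w t i => by
    rw [hAdef, Finset.mem_toList]; exact hA' w t i
  set tab := mkTab A δ
  -- numbers
  have hw : PolyTime (fun x : List Bool × ℕ => x.1) := PolyTime.id.fst
  have hT : PolyTime (fun x : List Bool × ℕ => B * x.2) := (PolyTime.const B).mul PolyTime.id.snd
  set N : List Bool × ℕ → ℕ := fun x => x.1.length + B * x.2 with hNdef
  have hN : PolyTime N := hw.length.add hT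
  set W : List Bool × ℕ → ℕ := fun x => N x + B * x.2 + 2 with hWdef
  have hW : PolyTime W := (hN.add hT).add (PolyTime.const 2)
  -- initial row
  have hinit : PolyTime (fun x : List Bool × ℕ => initRow A s0 sI sB x.1 (W x)) := by
    refine (PolyTime.const _).cons (PolyTime.append (PolyTime.map
      (f := fun (_ : List Bool × ℕ) b =>
      bif b then A.idxOf (sI true) else A.idxOf (sI false)) hw ?_) ?_)
    · exact PolyTime.id.snd.cond (PolyTime.const _) (PolyTime.const _)
    · exact hW.replicate (PolyTime.const _)
  -- final row
  have hfin : PolyTime (fun x : List Bool × ℕ => (stepRow tab)^[B * x.2]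
      (initRow A s0 sI sB x.1 (W x))) := by
    refine PolyTime.iterate (f := fun (_ : List Bool × ℕ) => stepRow tab) hT hinit
      (PolyTime.stepRow tab PolyTime.id.snd) ?_
    obtain ⟨p, hp⟩ := hW.sz_le
    refine ⟨(Polynomial.X + p + 1) * Polynomial.C (2 * A.length + 2) + 1, fun x i _ => ?_⟩
    refine (sz_initRow_iterate A δ s0 sI sB x.1 (W x) i).trans ?_
    have h1 := hp x
    rw [sz_nat] at h1
    have h2 := length_lt_sz x.1
    have h3 : sz x = sz x.1 + sz x.2 + 1 := rfl
    simp only [Polynomial.eval_add, Polynomial.eval_mul, Polynomial.eval_X, Polynomial.eval_C,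
      Polynomial.eval_one]
    refine Nat.add_le_add_right (Nat.mul_le_mul_right _ ?_) _
    omega
  -- output
  have hres : PolyTime (fun x : List Bool × ℕ => (List.range (N x)).flatMap fun i =>
      (A.map fun s => (out s).toList).getD (((stepRow tab)^[B * x.2]
        (initRow A s0 sI sB x.1 (W x))).getD (i + 1) 0) []) := by
    refine PolyTime.flatMap (f := fun (x : List Bool × ℕ) i =>
      (A.map fun s => (out s).toList).getD (((stepRow tab)^[B * x.2]
        (initRow A s0 sI sB x.1 (W x))).getD (i + 1) 0) []) hN.range ?_
    exact (PolyTime.const _).getD ((hfin.comp PolyTime.id.fst).getD PolyTime.id.snd.succ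
      (PolyTime.const 0)) (PolyTime.const [])
  refine ⟨_, hres, fun w w' t u h1 h2 => ?_⟩
  obtain ⟨ho, hlen⟩ := hout w w' t u h1 h2
  have key : ∀ i ∈ List.range (N (w, u)), (A.map fun s => (out s).toList).getD
      (((stepRow tab)^[B * u] (initRow A s0 sI sB w (W (w, u)))).getD (i + 1) 0) [] =
        (w'[i]?).toList := by
    intro i hi
    rw [List.mem_range] at hi
    rw [stepRow_iterate_getD A δ s0 sI sB hA w (W (w, u)) (B * u) (i + 1) (by
      simp only [hWdef]; omega)]
    have hmem := hA w (B * u) (i + 1)
    have h := List.idxOf_lt_length_iff.2 hmem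
    rw [List.getD_eq_getElem _ _ (by simpa using h), List.getElem_map, List.getElem_idxOf h,
      ho]
  show (List.range (N (w, u))).flatMap (fun i => (A.map fun s => (out s).toList).getD
      (((stepRow tab)^[B * u] (initRow A s0 sI sB w (W (w, u)))).getD (i + 1) 0) []) = w'
  rw [List.flatMap_congr key]
  exact range_flatMap_getElem? _ _ hlen

end Pool.Agent.FFT
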