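import Mathlib
import Pool.Agent.Lib.PolyTime.Lib
import Pool.Agent.CDom.Parse
import Pool.Agent.FFT.MT
import Pool.Agent.FFT.MachP
import Pool.Agent.FFT.Sim
import Pool.Agent.FFT.Sys
import Pool.Agent.FFT.ProgLem
import Pool.Agent.FFT.PTBuild
import Pool.Agent.FFT.CnfParse

/-!
# MODULE FFT/HardA  (MP_4a4383_lc)

The machine for 3-SAT from a reduction `bld` and a machine `T` for the target problem.  The exponent
`D` does not depend on `b`, `e`, `A`.

Proof of `algo_machine`.  Let `sim` be the simulation of `T` (`exists_sim`).  For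
`a = ((b, e, A), w)` put `x = decCnf (decM w)`, `p1 = 2 ^ (3 * qOf b x.1)`,
`y = bld (b, x, p1)`, `p2 = 2 ^ (qOf e y.2.2 + A)` and
`algo a = sim (y.1, p2 * (y.2.1 + 1) ^ c)`; measure `M a = sz a + p1 + p2`.
`MT M algo`: with `hM : MB M sz` (`MB.self.mono`):
* `F1 a = (a, p1)`: `MT.pair` of `MT.of_pt PolyTime.id` and `MT.two_pow` (exponent: polynomial-time by
  `pt_qOf`, `pt_decCnf`, `Pool.Agent.CDom.Prog.pt_decM`; `p1 ≤ M a`);
* `F2 a = (a, y)`: `MT.comp_pt` with the polynomial-time `(a, p) ↦ (a, bld (b, x, p))`;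
* `F3 a = (F2 a, p2)`: `MT.pair`, `MT.two_pow` (exponent: `MT.comp_pt` of the polynomial-time
  `(a, y) ↦ qOf e y.2.2 + A` after `F2`; `p2 ≤ M a`);
* `algo = MT.comp_pt` of the polynomial-time `((a, y), p) ↦ sim (y.1, p * (y.2.1 + 1) ^ c)` after
  `F3` (the power with the fixed exponent `c`: `PolyTime.polyEval` with `Polynomial.X ^ c`).
`machine_param` gives `D` (from `M` and `algo`) and for `a = (b, e, A)` a machine `T'` with
`Outputs T' i' o' w (algo (a, w)) (C * (M (a, w) + 1) ^ D)`.  For `w = wordCnf N φ`: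
`decCnf (decM w) = (N, φ)` (`decCnf_decM`), `qOf b N = N / b + 1`, `qOf e k = k / e + 1` (`qOf_eq`),
so `p2 = 2 ^ (k / e + 1 + A)`, and `algo (a, w) = [β]` by the property of `sim`; finally
`M (a, w) ≤ K * (w.length + 2 ^ .. + 2 ^ .. + 1)` for a constant `K` depending on `b`, `e`, `A`
(`sz w ≤ 4 * w.length + 1`, `sz_bools`); take `C' = C * (K + 1) ^ D` and `outputs_mono`.
-/

set_option autoImplicit false

namespace Pool.Agent.FFT

open Pool.Agent.Lib.PT Pool.Agent.CDom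

/-- the formula of the word -/
def xF (a : (ℕ × ℕ × ℕ) × List Bool) : ℕ × Cnf3 := decCnf (Pool.Agent.CDom.Prog.decM a.2)

/-- the first power of two -/
def p1F (a : (ℕ × ℕ × ℕ) × List Bool) : ℕ := 2 ^ (3 * qOf a.1.1 (xF a).1)

/-- the instance of the target problem -/
def yF (bld : ℕ × (ℕ × Cnf3) × ℕ → List Bool × ℕ × ℕ) (a : (ℕ × ℕ × ℕ) × List Bool) :
    List Bool × ℕ × ℕ := bld (a.1.1, xF a, p1F a)

/-- the second power of two -/
def p2F (bld : ℕ × (ℕ × Cnf3) × ℕ → List Bool × ℕ × ℕ) (a : (ℕ × ℕ × ℕ) × List Bool) : ℕ :=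
  2 ^ (qOf a.1.2.1 (yF bld a).2.2 + a.1.2.2)

/-- the measure -/
def MF (bld : ℕ × (ℕ × Cnf3) × ℕ → List Bool × ℕ × ℕ) (a : (ℕ × ℕ × ℕ) × List Bool) : ℕ :=
  sz a + p1F a + p2F bld a

theorem pt_xF : PolyTime xF :=
  pt_decCnf.comp (Pool.Agent.CDom.Prog.pt_decM.comp (PolyTime.snd PolyTime.id))

theorem mt_algo (bld : ℕ × (ℕ × Cnf3) × ℕ → List Bool × ℕ × ℕ) (hb : PolyTime bld)
    (sim : List Bool × ℕ → List Bool) (hs : PolyTime sim) (c : ℕ) :
    MT (MF bld) (fun a => sim ((yF bld a).1, p2F bld a * ((yF bld a).2.1 + 1) ^ c)) := by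
  have hM : MB (MF bld) (fun a => sz a) := MB.self.mono fun a => by
    simp only [MF]; omega
  have h1 : MT (MF bld) p1F := by
    refine MT.two_pow (m := fun a => 3 * qOf a.1.1 (xF a).1) ?_ (MB.self.mono fun a => ?_)
    · refine MT.of_pt hM ?_
      exact PolyTime.mul (PolyTime.const 3)
        (pt_qOf (PolyTime.fst (PolyTime.fst PolyTime.id)) (PolyTime.fst pt_xF))
    · simp only [MF, p1F]; omega
  have hF1 : MT (MF bld) (fun a => (a, p1F a)) := MT.pair hM (MT.of_pt hM PolyTime.id) h1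
  have hy : MT (MF bld) (yF bld) := by
    have hg : PolyTime (fun p : ((ℕ × ℕ × ℕ) × List Bool) × ℕ => bld (p.1.1.1, xF p.1, p.2)) := by
      refine PolyTime.comp (g := bld) hb ?_
      exact PolyTime.pair (PolyTime.fst (PolyTime.fst (PolyTime.fst PolyTime.id)))
        (PolyTime.pair (PolyTime.comp (g := xF) pt_xF (PolyTime.fst PolyTime.id))
          (PolyTime.snd PolyTime.id))
    exact MT.comp_pt (g := fun p : ((ℕ × ℕ × ℕ) × List Bool) × ℕ =>
      bld (p.1.1.1, xF p.1, p.2)) hM hg hF1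
  have hF2 : MT (MF bld) (fun a => (a, yF bld a)) := MT.pair hM (MT.of_pt hM PolyTime.id) hy
  have h2 : MT (MF bld) (p2F bld) := by
    refine MT.two_pow (m := fun a => qOf a.1.2.1 (yF bld a).2.2 + a.1.2.2) ?_
      (MB.self.mono fun a => ?_)
    · have hg : PolyTime (fun p : ((ℕ × ℕ × ℕ) × List Bool) × (List Bool × ℕ × ℕ) =>
          qOf p.1.1.2.1 p.2.2.2 + p.1.1.2.2) := by
        refine PolyTime.add (pt_qOf ?_ ?_) ?_
        · exact PolyTime.fst (PolyTime.snd (PolyTime.fst (PolyTime.fst PolyTime.id)))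
        · exact PolyTime.snd (PolyTime.snd (PolyTime.snd PolyTime.id))
        · exact PolyTime.snd (PolyTime.snd (PolyTime.fst (PolyTime.fst PolyTime.id)))
      exact MT.comp_pt hM hg hF2
    · simp only [MF, p2F]; omega
  have hF3 : MT (MF bld) (fun a => (yF bld a, p2F bld a)) := MT.pair hM hy h2
  have hg : PolyTime (fun p : (List Bool × ℕ × ℕ) × ℕ => sim (p.1.1, p.2 * (p.1.2.1 + 1) ^ c)) := by
    refine PolyTime.comp (g := sim) hs (PolyTime.pair (PolyTime.fst (PolyTime.fst PolyTime.id)) ?_)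
    refine PolyTime.mul (PolyTime.snd PolyTime.id) ?_
    have h := PolyTime.polyEval (Polynomial.X ^ c) (PolyTime.succ (PolyTime.fst (PolyTime.snd
      (PolyTime.fst (PolyTime.id (α := (List Bool × ℕ × ℕ) × ℕ))))))
    refine h.congr fun a => ?_
    simp
  exact (MT.comp_pt (g := fun p : (List Bool × ℕ × ℕ) × ℕ => sim (p.1.1, p.2 * (p.1.2.1 + 1) ^ c))
    hM hg hF3)

theorem algo_machine (bld : ℕ × (ℕ × Cnf3) × ℕ → List Bool × ℕ × ℕ) (hb : PolyTime bld)
    (T : Turing.FinTM2) (i : T.Γ T.k₀ ≃ Bool) (o : T.Γ T.k₁ ≃ Bool) (c : ℕ) :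
    ∃ D : ℕ, ∀ b e A : ℕ, 1 ≤ b → 1 ≤ e →
      ∃ (T' : Turing.FinTM2) (i' : T'.Γ T'.k₀ ≃ Bool) (o' : T'.Γ T'.k₁ ≃ Bool) (C : ℕ),
        ∀ (N : ℕ) (φ : Cnf3) (β : Bool) (t : ℕ),
          Outputs T i o (bld (b, (N, φ), 2 ^ (3 * qOf b N))).1 [β] t →
          t ≤ 2 ^ ((bld (b, (N, φ), 2 ^ (3 * qOf b N))).2.2 / e + 1 + A) *
            ((bld (b, (N, φ), 2 ^ (3 * qOf b N))).2.1 + 1) ^ c →
          Outputs T' i' o' (wordCnf N φ) [β] (C * ((wordCnf N φ).length +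
            2 ^ (3 * (N / b + 1)) +
            2 ^ ((bld (b, (N, φ), 2 ^ (3 * qOf b N))).2.2 / e + 1 + A) + 1) ^ D) := by
  obtain ⟨sim, hs, hsim⟩ := exists_sim T i o
  obtain ⟨D, hD⟩ := machine_param (M := MF bld)
    (g := fun a => sim ((yF bld a).1, p2F bld a * ((yF bld a).2.1 + 1) ^ c))
    (MB.self.mono fun a => by simp only [MF]; omega) (mt_algo bld hb sim hs c)
  refine ⟨D, fun b e A hb1 he1 => ?_⟩
  obtain ⟨T', i', o', C, hT'⟩ := hD (b, e, A)
  refine ⟨T', i', o', C * (sz (b, e, A) + 4) ^ D, fun N φ β t hout ht => ?_⟩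
  have hx : xF ((b, e, A), wordCnf N φ) = (N, φ) := decCnf_decM N φ
  have hp1 : p1F ((b, e, A), wordCnf N φ) = 2 ^ (3 * qOf b N) := by
    simp only [p1F, hx]
  have hy : yF bld ((b, e, A), wordCnf N φ) = bld (b, (N, φ), 2 ^ (3 * qOf b N)) := by
    simp only [yF, hx, hp1]
  have hp2 : p2F bld ((b, e, A), wordCnf N φ) =
      2 ^ ((bld (b, (N, φ), 2 ^ (3 * qOf b N))).2.2 / e + 1 + A) := by
    simp only [p2F, hy]
    rw [qOf_eq _ _ he1]
  have hval := hsim _ _ t _ hout ht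
  have h := hT' (wordCnf N φ)
  simp only [hy, hp2] at h
  rw [hval] at h
  refine outputs_mono h ?_
  rw [mul_assoc, ← mul_pow]
  refine Nat.mul_le_mul_left _ (Nat.pow_le_pow_left ?_ _)
  have h1 : sz (wordCnf N φ) ≤ 4 * (wordCnf N φ).length + 1 := sz_bools _
  have h2 : sz ((b, e, A), wordCnf N φ) = sz (b, e, A) + sz (wordCnf N φ) + 1 := rfl
  have h3 : (2 : ℕ) ^ (3 * (N / b + 1)) = p1F ((b, e, A), wordCnf N φ) := by
    rw [hp1, qOf_eq _ _ hb1]
  rw [h3, ← hp2]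
  simp only [MF]
  rw [h2]
  have h4 : 0 < p2F bld ((b, e, A), wordCnf N φ) := by rw [hp2]; positivity
  have h5 : 0 < p1F ((b, e, A), wordCnf N φ) := by rw [hp1]; positivity
  set P := p1F ((b, e, A), wordCnf N φ)
  set Q := p2F bld ((b, e, A), wordCnf N φ)
  set L := (wordCnf N φ).length
  set Z := sz (b, e, A)
  have h6 : (Z + 4) * (L + P + Q + 1) = Z * (L + P + Q) + Z + 4 * L + 4 * P + 4 * Q + 4 := by ring
  rw [h6]
  have h7 : 0 ≤ Z * (L + P + Q) := Nat.zero_le _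
  omega

end Pool.Agent.FFT
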