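import Mathlib
import Pool.Agent.FFT.StmtDefs

/-!
# MODULE FFT/HardB  (MP_4a4383_lc)

Arithmetic of the running times.

Proofs.
* `littleO_bound`: with `k0` for `q = e`: `e * f k ≤ k` gives `f k ≤ k / e` for `k ≥ k0`
  (`Nat.le_div_iff_mul_le`); `A = ∑ k < k0, f k` (or a `Finset.sup`).
* `exp_bound`: `X = D * (3 * (N / b))`, `Y = D * (k / e)` with `b = 6 (D+1) (d+1)`,
  `e = 200 (D+1) (d+1) b ^ 6`: `2 (d+1) X ≤ b * (N / b) ≤ N`, and
  `e * (k / e) ≤ k ≤ 100 b ^ 6 (N + 1)` gives `2 (D+1) (d+1) (k / e) ≤ N + 1`, so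
  `2 (d+1) Y ≤ N + 1`.  So `2 (d+1) (X + Y) ≤ 2 N + 1`, i.e. `(d+1) (X + Y) ≤ N`,
  `X + Y ≤ N / (d+1)`.
* `final_bound`: `L + 2^u + 2^v + 1 ≤ 4 (L + 1) 2^u 2^v`, so the `D`-th power is at most
  `4^D (L+1)^D 2^(D (u + v))` and `D (u + v) = X + Y + D (4 + A)` for `u = 3 (N / b + 1)`,
  `v = k / e + 1 + A`; `(L + 1)^D ≤ (200 (N + m + 1)^2)^D = 200^D (N + m + 1)^(2D)`;
  `c' = C * 4^D * 200^D * 2^(D (4 + A)) + 2 D` and `(N + m + 1)^(2D) ≤ (N + m + 1)^c'`.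
-/

set_option autoImplicit false

namespace Pool.Agent.FFT

theorem littleO_bound (f : ℕ → ℕ) (hf : LittleO f) (e : ℕ) (he : 1 ≤ e) :
    ∃ A : ℕ, ∀ k : ℕ, f k ≤ k / e + A := by
  obtain ⟨k0, hk0⟩ := hf e
  refine ⟨∑ j ∈ Finset.range k0, f j, ?_⟩
  intro k
  by_cases hk : k0 ≤ k
  · have h1 : f k ≤ k / e := by
      rw [Nat.le_div_iff_mul_le (by omega)]
      have := hk0 k hk
      rwa [mul_comm]
    exact le_trans h1 (Nat.le_add_right _ _)
  · have h1 : f k ≤ ∑ j ∈ Finset.range k0, f j :=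
      Finset.single_le_sum (f := f) (fun _ _ => Nat.zero_le _) (Finset.mem_range.2 (by omega))
    exact le_trans h1 (Nat.le_add_left _ _)

theorem exp_bound (D d b e N k : ℕ) (hb : b = 6 * (D + 1) * (d + 1))
    (he : e = 200 * (D + 1) * (d + 1) * b ^ 6) (hk : k ≤ 100 * b ^ 6 * (N + 1)) :
    D * (3 * (N / b)) + D * (k / e) ≤ N / (d + 1) := by
  have hbpos : 0 < b := by rw [hb]; positivity
  have h1 : b * (N / b) ≤ N := Nat.mul_div_le N b
  have h2 : e * (k / e) ≤ k := Nat.mul_div_le k e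
  have h3 : 2 * (d + 1) * (D * (3 * (N / b))) ≤ N := by
    refine le_trans ?_ h1
    calc 2 * (d + 1) * (D * (3 * (N / b))) = (6 * D * (d + 1)) * (N / b) := by ring
      _ ≤ b * (N / b) := by
          apply Nat.mul_le_mul_right
          rw [hb]
          apply Nat.mul_le_mul_right
          omega
  have h4 : 2 * (d + 1) * (D * (k / e)) ≤ N + 1 := by
    have h5 : (100 * b ^ 6) * (2 * (D + 1) * (d + 1) * (k / e)) ≤ (100 * b ^ 6) * (N + 1) := by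
      refine le_trans ?_ hk
      refine le_trans (le_of_eq ?_) h2
      rw [he]
      generalize k / (200 * (D + 1) * (d + 1) * b ^ 6) = t
      ring
    have h6 : 2 * (D + 1) * (d + 1) * (k / e) ≤ N + 1 :=
      Nat.le_of_mul_le_mul_left h5 (by positivity)
    refine le_trans ?_ h6
    calc 2 * (d + 1) * (D * (k / e)) = 2 * D * (d + 1) * (k / e) := by ring
      _ ≤ 2 * (D + 1) * (d + 1) * (k / e) := by
          apply Nat.mul_le_mul_right
          apply Nat.mul_le_mul_right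
          omega
  rw [Nat.le_div_iff_mul_le (by omega)]
  have h7 : 2 * ((D * (3 * (N / b)) + D * (k / e)) * (d + 1)) ≤ 2 * N + 1 := by
    calc 2 * ((D * (3 * (N / b)) + D * (k / e)) * (d + 1))
        = 2 * (d + 1) * (D * (3 * (N / b))) + 2 * (d + 1) * (D * (k / e)) := by ring
      _ ≤ N + (N + 1) := Nat.add_le_add h3 h4
      _ = 2 * N + 1 := by ring
  omega

theorem final_bound (D d b e A C : ℕ) (hb : b = 6 * (D + 1) * (d + 1))
    (he : e = 200 * (D + 1) * (d + 1) * b ^ 6) :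
    ∃ c' : ℕ, ∀ N m k L : ℕ, k ≤ 100 * b ^ 6 * (N + 1) → L ≤ 100 * (N + m + 1) ^ 2 →
      C * (L + 2 ^ (3 * (N / b + 1)) + 2 ^ (k / e + 1 + A) + 1) ^ D ≤
        c' * 2 ^ (N / (d + 1)) * (N + m + 1) ^ c' := by
  refine ⟨C * 4 ^ D * 200 ^ D * 2 ^ (D * (4 + A)) + 2 * D, ?_⟩
  intro N m k L hk hL
  have hexp := exp_bound D d b e N k hb he hk
  generalize N / b = p at *
  generalize k / e = q at *
  generalize N / (d + 1) = r at *
  have h1 : L + 2 ^ (3 * (p + 1)) + 2 ^ (q + 1 + A) + 1 ≤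
      4 * (L + 1) * (2 ^ (3 * (p + 1)) * 2 ^ (q + 1 + A)) := by
    have hu : 1 ≤ 2 ^ (3 * (p + 1)) := Nat.one_le_two_pow
    have hv : 1 ≤ 2 ^ (q + 1 + A) := Nat.one_le_two_pow
    generalize 2 ^ (3 * (p + 1)) = U at *
    generalize 2 ^ (q + 1 + A) = V at *
    have hUV : 1 ≤ U * V := Nat.mul_pos hu hv
    have hU : U ≤ U * V := Nat.le_mul_of_pos_right U hv
    have hV : V ≤ U * V := Nat.le_mul_of_pos_left V hu
    have hL1 : L ≤ L * (U * V) := Nat.le_mul_of_pos_right L hUV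
    nlinarith
  have h2 : (L + 2 ^ (3 * (p + 1)) + 2 ^ (q + 1 + A) + 1) ^ D ≤
      4 ^ D * (L + 1) ^ D * 2 ^ (D * (3 * (p + 1) + (q + 1 + A))) := by
    calc (L + 2 ^ (3 * (p + 1)) + 2 ^ (q + 1 + A) + 1) ^ D
        ≤ (4 * (L + 1) * (2 ^ (3 * (p + 1)) * 2 ^ (q + 1 + A))) ^ D := Nat.pow_le_pow_left h1 D
      _ = 4 ^ D * (L + 1) ^ D * 2 ^ (D * (3 * (p + 1) + (q + 1 + A))) := by
          rw [← pow_add, mul_pow, mul_pow, ← pow_mul, mul_comm (3 * (p + 1) + (q + 1 + A)) D]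
  have h3 : 2 ^ (D * (3 * (p + 1) + (q + 1 + A))) ≤ 2 ^ r * 2 ^ (D * (4 + A)) := by
    rw [← pow_add]
    apply Nat.pow_le_pow_right (by norm_num)
    calc D * (3 * (p + 1) + (q + 1 + A)) = (D * (3 * p) + D * q) + D * (4 + A) := by ring
      _ ≤ r + D * (4 + A) := Nat.add_le_add_right hexp _
  have h4 : (L + 1) ^ D ≤ 200 ^ D * (N + m + 1) ^ (2 * D) := by
    calc (L + 1) ^ D ≤ (200 * (N + m + 1) ^ 2) ^ D := by
          apply Nat.pow_le_pow_left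
          have h5 : 1 ≤ (N + m + 1) ^ 2 := Nat.one_le_pow _ _ (by omega)
          omega
      _ = 200 ^ D * (N + m + 1) ^ (2 * D) := by rw [mul_pow, ← pow_mul]
  have h6 : (N + m + 1) ^ (2 * D) ≤
      (N + m + 1) ^ (C * 4 ^ D * 200 ^ D * 2 ^ (D * (4 + A)) + 2 * D) :=
    Nat.pow_le_pow_right (by omega) (by omega)
  calc C * (L + 2 ^ (3 * (p + 1)) + 2 ^ (q + 1 + A) + 1) ^ D
      ≤ C * (4 ^ D * (200 ^ D * (N + m + 1) ^ (2 * D)) * (2 ^ r * 2 ^ (D * (4 + A)))) := by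
        apply Nat.mul_le_mul_left
        refine le_trans h2 ?_
        exact Nat.mul_le_mul (Nat.mul_le_mul_left _ h4) h3
    _ = (C * 4 ^ D * 200 ^ D * 2 ^ (D * (4 + A))) * 2 ^ r * (N + m + 1) ^ (2 * D) := by ring
    _ ≤ (C * 4 ^ D * 200 ^ D * 2 ^ (D * (4 + A)) + 2 * D) * 2 ^ r *
        (N + m + 1) ^ (C * 4 ^ D * 200 ^ D * 2 ^ (D * (4 + A)) + 2 * D) := by
        apply Nat.mul_le_mul _ h6
        apply Nat.mul_le_mul_right
        omega

end Pool.Agent.FFT
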