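import Mathlib
import Pool.Agent.FFT.HardA
import Pool.Agent.FFT.HardB

/-!
# FFT/Hard  (MP_4a4383_lc): a subexponential algorithm for the target problem refutes ETH
-/

set_option autoImplicit false

namespace Pool.Agent.FFT

open Pool.Agent.Lib.PT Pool.Agent.CDom

open Classical in
theorem hard (bld : ℕ × (ℕ × Cnf3) × ℕ → List Bool × ℕ × ℕ) (hb : PolyTime bld)
    (f : ℕ → ℕ) (hf : LittleO f) (c : ℕ)
    (T : Turing.FinTM2) (i : T.Γ T.k₀ ≃ Bool) (o : T.Γ T.k₁ ≃ Bool)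
    (h : ∀ (b N : ℕ) (φ : Cnf3), 1 ≤ b → VarsLt N φ →
      Outputs T i o (bld (b, (N, φ), 2 ^ (3 * qOf b N))).1 [decide (Sat φ)]
        (2 ^ f (bld (b, (N, φ), 2 ^ (3 * qOf b N))).2.2 *
          ((bld (b, (N, φ), 2 ^ (3 * qOf b N))).2.1 + 1) ^ c))
    (hk : ∀ (b N : ℕ) (φ : Cnf3) (p : ℕ), 1 ≤ b →
      (bld (b, (N, φ), p)).2.2 ≤ 100 * b ^ 6 * (N + 1)) : ETHFails := by
  intro d
  obtain ⟨D, hD⟩ := algo_machine bld hb T i o c
  obtain ⟨b, hbd⟩ : ∃ b, b = 6 * (D + 1) * (d + 1) := ⟨_, rfl⟩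
  obtain ⟨e, hed⟩ : ∃ e, e = 200 * (D + 1) * (d + 1) * b ^ 6 := ⟨_, rfl⟩
  have hb1 : 1 ≤ b := by rw [hbd]; exact Nat.succ_le_of_lt (by positivity)
  have he1 : 1 ≤ e := by rw [hed]; exact Nat.succ_le_of_lt (by positivity)
  obtain ⟨A, hA⟩ := littleO_bound f hf e he1
  obtain ⟨T', i', o', C, hT'⟩ := hD b e A hb1 he1
  obtain ⟨c', hc'⟩ := final_bound D d b e A C hbd hed
  refine ⟨T', i', o', c', fun N φ hφ => ?_⟩
  have h1 := hT' N φ (decide (Sat φ)) _ (h b N φ hb1 hφ) (by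
    refine Nat.mul_le_mul_right _ (Nat.pow_le_pow_right (by norm_num) ?_)
    exact (hA _).trans (by omega))
  exact outputs_mono h1 (hc' N φ.length _ _ (hk b N φ _ hb1) (length_wordCnf N φ hφ))

end Pool.Agent.FFT
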