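import Mathlib
import Pool.Agent.FFT.Sys
import Pool.Agent.FFT.ProgLem

/-!
# MODULE FFT/SatRun  (MP_4a4383_lc)

The program `prog b q` of the formula `φ` has a run if and only if `φ` is satisfiable, when all
variables are smaller than `b * q`: the variable `g * q + i` is the `i`-th variable of the group `g`.

Proofs.
* `run_choices`: `Run ev (replicate m (choice g) ++ r) σ ↔ ∃ l, l.length = m ∧
  Run ev r (update σ g (l ++ σ g))`: induction on `m`; a list of length `m + 1` is `l ++ [b]`, the
  first choice is the last entry.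
* `run_progC_aux`: for a list `F` of fronts without duplicates,
  `Run ev (F.flatMap (replicate (3q) (choice f)) ++ r) σ ↔ ∃ τ : Fr → List Bool,
  (∀ f ∈ F, (τ f).length = 3 q) ∧ Run ev r (fun f => if f ∈ F then τ f ++ σ f else σ f)`.
  (Only the direction needed may be simpler; both are used below.)
* `run_checks`: if all instructions of `p` are checks, `Run ev p σ ↔ ∀ i ∈ p,
  ¬ (ev i.2.1.2 i.2.1.1 (σ i.2.1.1) ∧ ev i.2.2.2 i.2.2.1 (σ i.2.2.1))`.
* So `Run (ev q φ) (prog b q) (fun _ => [])` iff there is `τ` with `(τ f).length = 3 q` for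
  `f ∈ Fs b` and (E) for `f ∈ Fs b`, `t < 3`, `i < q`, `v`: not (`(τ f).getD (t q + i) false = v` and
  `(τ (g, g, g)).getD i false = !v`), `g = slot t f`, i.e. the two bits are equal; and
  (V) `viol q φ f (τ f) = false` for `f ∈ Fs b`.  This is `run_prog_iff`.
* `run_of_sat`: `τ f = (List.range (3 * q)).map fun p => a (slot (p / q) f * q + p % q)`; then for
  `t < 3`, `i < q` the bit `t q + i` of `τ f` is `a (slot t f * q + i)`.  (E) is clear (`slot 0` of
  the reference front is `g`).  (V): a clause `C` has a true literal `l`, `a l.1 = l.2`; if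
  `fals q f (τ f) l = true` then for some slot `t`: `slot t f * q ≤ l.1 < slot t f * q + q` and the
  bit `t q + (l.1 - slot t f * q)`, which is `a l.1`, is `!l.2`: contradiction.
* `sat_of_run`: `a v = (τ (v / q, v / q, v / q)).getD (v % q) false`.  If all three literals of
  `C ∈ φ` are false, take `f = (l1.1 / q, l2.1 / q, l3.1 / q)`, it is in `Fs b` as
  `v < N ≤ b * q`.  By (E) the bit `t q + l.1 % q` of `τ f` is `a l.1 = !l.2` for the literal `l` in
  the slot `t` (`l.1 = (l.1 / q) * q + l.1 % q`), so `fals` holds for the three literals and `viol`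
  holds: contradiction to (V).
  (`q = 0` is impossible here when `φ` has a clause, as `N ≤ b * q`.)
-/

set_option autoImplicit false

namespace Pool.Agent.FFT

theorem run_choices (ev : Cond → Fr → List Bool → Bool) (g : Fr) (r : List Ins) (m : ℕ)
    (σ : Fr → List Bool) : Run ev (List.replicate m (choice g) ++ r) σ ↔
      ∃ l : List Bool, l.length = m ∧ Run ev r (Function.update σ g (l ++ σ g)) := by
  induction m generalizing σ with
  | zero =>
    constructor
    · intro h
      refine ⟨[], rfl, ?_⟩
      simpa using h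
    · rintro ⟨l, hl, h⟩
      have : l = [] := List.length_eq_zero_iff.1 hl
      subst this
      simpa using h
  | succ m ih =>
    rw [List.replicate_succ, List.cons_append, run_choice]
    constructor
    · rintro ⟨b, hb⟩
      rw [ih] at hb
      obtain ⟨l, hl, h⟩ := hb
      refine ⟨l ++ [b], by simp [hl], ?_⟩
      simpa using h
    · rintro ⟨l, hl, h⟩
      have hne : l ≠ [] := by
        rintro rfl
        simp at hl
      refine ⟨l.getLast hne, ?_⟩
      rw [ih]
      refine ⟨l.dropLast, by simp [hl], ?_⟩
      have e : l = l.dropLast ++ [l.getLast hne] := (List.dropLast_append_getLast hne).symm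
      rw [e] at h
      simpa using h

open Classical in
theorem run_progC_aux (ev : Cond → Fr → List Bool → Bool) (n : ℕ) (F : List Fr) (hF : F.Nodup)
    (r : List Ins) (σ : Fr → List Bool) :
    Run ev (F.flatMap (fun f => List.replicate n (choice f)) ++ r) σ ↔
      ∃ τ : Fr → List Bool, (∀ f ∈ F, (τ f).length = n) ∧
        Run ev r (fun f => if f ∈ F then τ f ++ σ f else σ f) := by
  induction F generalizing σ with
  | nil => simp
  | cons g F ih =>
    rw [List.nodup_cons] at hF
    obtain ⟨hg, hF⟩ := hF
    rw [List.flatMap_cons, List.append_assoc, run_choices]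
    have key : ∀ (l : List Bool) (τ : Fr → List Bool), τ g = l → 
        (fun f => if f ∈ g :: F then τ f ++ σ f else σ f) =
        (fun f => if f ∈ F then τ f ++ (Function.update σ g (l ++ σ g)) f else
          (Function.update σ g (l ++ σ g)) f) := by
      intro l τ hl
      funext f
      by_cases hf : f = g
      · subst hf
        simp [hg, hl]
      · simp [hf]
    constructor
    · rintro ⟨l, hl, h⟩
      rw [ih hF] at h
      obtain ⟨τ, hτ, h⟩ := h
      refine ⟨Function.update τ g l, ?_, ?_⟩
      · intro f hf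
        rw [List.mem_cons] at hf
        by_cases hfg : f = g
        · subst hfg
          simp [hl]
        · rw [Function.update_of_ne hfg]
          exact hτ f (hf.resolve_left hfg)
      · rw [key l (Function.update τ g l) (by simp)]
        convert h using 1
        funext f
        by_cases hf : f ∈ F
        · have hfg : f ≠ g := fun e => hg (e ▸ hf)
          simp [hf, hfg]
        · simp [hf]
    · rintro ⟨τ, hτ, h⟩
      refine ⟨τ g, hτ g (by simp), ?_⟩
      rw [ih hF]
      refine ⟨τ, fun f hf => hτ f (by simp [hf]), ?_⟩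
      rwa [key (τ g) τ rfl] at h

theorem run_checks (ev : Cond → Fr → List Bool → Bool) (p : List Ins) (hp : ∀ i ∈ p, i.1 = false)
    (σ : Fr → List Bool) : Run ev p σ ↔ ∀ i ∈ p,
      ¬ (ev i.2.1.2 i.2.1.1 (σ i.2.1.1) = true ∧ ev i.2.2.2 i.2.2.1 (σ i.2.2.1) = true) := by
  induction p with
  | nil => simp
  | cons i p ih =>
    have h1 : i.1 = false := hp i (by simp)
    have h2 := ih (fun j hj => hp j (by simp [hj]))
    rw [List.forall_mem_cons, ← h2, Run, h1]
    simp

theorem ref_mem_Fs {b : ℕ} {f : Fr} (h : f ∈ Fs b) (t : ℕ) :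
    ((slot t f, slot t f, slot t f) : Fr) ∈ Fs b := by
  have := slot_lt h t
  rw [mem_Fs]
  exact ⟨this, this, this⟩

theorem run_EV_iff (b q : ℕ) (φ : Cnf3) (τ σ : Fr → List Bool) (hσ : ∀ f ∈ Fs b, σ f = τ f) :
    Run (ev q φ) (progE b q ++ progV b) σ ↔
      (∀ f ∈ Fs b, ∀ t < 3, ∀ i < q, (τ f).getD (t * q + i) false =
        (τ (slot t f, slot t f, slot t f)).getD i false) ∧
      ∀ f ∈ Fs b, viol q φ f (τ f) = false := by
  have hchk : ∀ i ∈ progE b q ++ progV b, i.1 = false := by
    intro i hi
    rw [List.mem_append] at hi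
    rcases hi with hi | hi
    · simp only [progE, List.mem_flatMap, List.mem_cons, List.not_mem_nil, or_false] at hi
      obtain ⟨f, -, t, -, j, -, h | h⟩ := hi <;> subst h <;> rfl
    · simp only [progV, List.mem_map] at hi
      obtain ⟨f, -, h⟩ := hi
      subst h
      rfl
  rw [run_checks _ _ hchk]
  constructor
  · intro H
    constructor
    · intro f hf t ht i hi
      have h1 := H (eqIns q f t i true) (by
        rw [List.mem_append]
        left
        simp only [progE, List.mem_flatMap, List.mem_cons, List.not_mem_nil, or_false,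
          List.mem_range]
        exact ⟨f, hf, t, ht, i, hi, Or.inl rfl⟩)
      have h2 := H (eqIns q f t i false) (by
        rw [List.mem_append]
        left
        simp only [progE, List.mem_flatMap, List.mem_cons, List.not_mem_nil, or_false,
          List.mem_range]
        exact ⟨f, hf, t, ht, i, hi, Or.inr rfl⟩)
      simp only [eqIns, check, ev, cond_false, hσ f hf, hσ _ (ref_mem_Fs hf t)] at h1 h2
      revert h1 h2
      generalize (τ f).getD (t * q + i) false = x
      generalize (τ (slot t f, slot t f, slot t f)).getD i false = y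
      cases x <;> cases y <;> simp
    · intro f hf
      have h1 := H (check f (true, 0, false) f (true, 0, false)) (by
        rw [List.mem_append]
        right
        simp only [progV, List.mem_map]
        exact ⟨f, hf, rfl⟩)
      simp only [check, ev, cond_true, hσ f hf, and_self, Bool.not_eq_true] at h1
      exact h1
  · rintro ⟨HE, HV⟩ i hi
    rw [List.mem_append] at hi
    rcases hi with hi | hi
    · simp only [progE, List.mem_flatMap, List.mem_cons, List.not_mem_nil, or_false,
        List.mem_range] at hi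
      obtain ⟨f, hf, t, ht, j, hj, h⟩ := hi
      have he := HE f hf t ht j hj
      rcases h with h | h <;> subst h <;>
        simp only [eqIns, check, ev, cond_false, hσ f hf, hσ _ (ref_mem_Fs hf t), he] <;>
        generalize (τ (slot t f, slot t f, slot t f)).getD j false = y <;>
        cases y <;> simp
    · simp only [progV, List.mem_map] at hi
      obtain ⟨f, hf, h⟩ := hi
      subst h
      simp only [check, ev, cond_true, hσ f hf, HV f hf]
      simp

theorem run_prog_iff (b q : ℕ) (φ : Cnf3) : Run (ev q φ) (prog b q) (fun _ => []) ↔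
    ∃ τ : Fr → List Bool, (∀ f ∈ Fs b, (τ f).length = 3 * q) ∧
      (∀ f ∈ Fs b, ∀ t < 3, ∀ i < q, (τ f).getD (t * q + i) false =
        (τ (slot t f, slot t f, slot t f)).getD i false) ∧
      ∀ f ∈ Fs b, viol q φ f (τ f) = false := by
  classical
  rw [prog, progC, run_progC_aux _ _ _ (nodup_Fs b)]
  refine exists_congr fun τ => and_congr_right fun _ => ?_
  exact run_EV_iff b q φ τ _ (fun f hf => by simp [hf])

/-- the bits of a front under an assignment -/
def tauOf (q : ℕ) (a : ℕ → Bool) (f : Fr) : List Bool :=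
  (List.range (3 * q)).map fun p => a (slot (p / q) f * q + p % q)

theorem tauOf_getD {q : ℕ} (a : ℕ → Bool) (f : Fr) {t i : ℕ} (ht : t < 3) (hi : i < q) :
    (tauOf q a f).getD (t * q + i) false = a (slot t f * q + i) := by
  have hq : 0 < q := by omega
  have hlt : t * q + i < 3 * q := by
    have : t * q ≤ 2 * q := Nat.mul_le_mul_right q (by omega)
    omega
  have h1 : (t * q + i) / q = t := by
    rw [Nat.div_eq_iff hq]
    constructor
    · linarith
    · omega
  have h2 : (t * q + i) % q = i := by
    rw [Nat.mul_comm, Nat.mul_add_mod, Nat.mod_eq_of_lt hi]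
  rw [tauOf, List.getD_eq_getElem?_getD, List.getElem?_map, List.getElem?_range hlt]
  simp only [Option.map_some, Option.getD_some, h1, h2]

theorem fals_tauOf {q : ℕ} {a : ℕ → Bool} {f : Fr} {l : ℕ × Bool}
    (h : fals q f (tauOf q a f) l = true) : a l.1 = !l.2 := by
  simp only [fals, List.any_eq_true, List.mem_range, Bool.and_eq_true, decide_eq_true_eq,
    beq_iff_eq] at h
  obtain ⟨t, ht, h1, h2, h3⟩ := h
  rw [tauOf_getD a f ht (by omega)] at h3
  rwa [show slot t f * q + (l.1 - slot t f * q) = l.1 by omega] at h3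

theorem run_of_sat (b q N : ℕ) (φ : Cnf3) (hN : N ≤ b * q) (hφ : VarsLt N φ) (h : Sat φ) :
    Run (ev q φ) (prog b q) (fun _ => []) := by
  obtain ⟨a, ha⟩ := h
  rw [run_prog_iff]
  refine ⟨tauOf q a, ?_, ?_, ?_⟩
  · intro f _
    simp [tauOf]
  · intro f hf t ht i hi
    rw [tauOf_getD a f ht hi]
    have := tauOf_getD (q := q) a (slot t f, slot t f, slot t f) (t := 0) (i := i) (by omega) hi
    rw [zero_mul, zero_add] at this
    rw [this]
    rfl
  · intro f hf
    rw [Bool.eq_false_iff]
    intro hv
    simp only [viol, List.any_eq_true, Bool.and_eq_true] at hv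
    obtain ⟨C, hC, h1, h2, h3⟩ := hv
    have e1 := fals_tauOf h1
    have e2 := fals_tauOf h2
    have e3 := fals_tauOf h3
    rcases ha C hC with h | h | h
    · rw [h] at e1
      simp at e1
    · rw [h] at e2
      simp at e2
    · rw [h] at e3
      simp at e3

theorem fals_of_eq {q : ℕ} {f : Fr} {τ : Fr → List Bool} {t : ℕ} (ht : t < 3) (hq : 0 < q)
    {l : ℕ × Bool} (hs : slot t f = l.1 / q)
    (hE : ∀ i < q, (τ f).getD (t * q + i) false =
        (τ (slot t f, slot t f, slot t f)).getD i false)
    (ha : (τ (l.1 / q, l.1 / q, l.1 / q)).getD (l.1 % q) false = !l.2) :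
    fals q f (τ f) l = true := by
  simp only [fals, List.any_eq_true, List.mem_range, Bool.and_eq_true, decide_eq_true_eq,
    beq_iff_eq]
  have hdm := Nat.div_add_mod l.1 q
  have hml := Nat.mod_lt l.1 hq
  have hc : q * (l.1 / q) = slot t f * q := by rw [hs, Nat.mul_comm]
  refine ⟨t, ht, by omega, by omega, ?_⟩
  rw [show l.1 - slot t f * q = l.1 % q by omega, hE _ hml, hs, ha]

theorem sat_of_run (b q N : ℕ) (φ : Cnf3) (hN : N ≤ b * q) (hφ : VarsLt N φ)
    (h : Run (ev q φ) (prog b q) (fun _ => [])) : Sat φ := by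
  rw [run_prog_iff] at h
  obtain ⟨τ, -, hE, hV⟩ := h
  refine ⟨fun v => (τ (v / q, v / q, v / q)).getD (v % q) false, fun C hC => ?_⟩
  by_contra hcon
  simp only [not_or] at hcon
  obtain ⟨n1, n2, n3⟩ := hcon
  obtain ⟨v1, v2, v3⟩ := hφ C hC
  have hq : 0 < q := by
    rcases Nat.eq_zero_or_pos q with hq | hq
    · subst hq
      omega
    · exact hq
  have hlt : ∀ v < N, v / q < b := fun v hv => by
    rw [Nat.div_lt_iff_lt_mul hq]
    omega
  have hf : ((C.1.1 / q, C.2.1.1 / q, C.2.2.1 / q) : Fr) ∈ Fs b := by
    rw [mem_Fs]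
    exact ⟨hlt _ v1, hlt _ v2, hlt _ v3⟩
  have hneg : ∀ {x y : Bool}, ¬ x = y → x = !y := by
    intro x y
    cases x <;> cases y <;> simp
  have f1 := fals_of_eq (τ := τ) (t := 0) (by omega) hq (l := C.1)
    (f := (C.1.1 / q, C.2.1.1 / q, C.2.2.1 / q)) rfl (hE _ hf 0 (by omega)) (hneg n1)
  have f2 := fals_of_eq (τ := τ) (t := 1) (by omega) hq (l := C.2.1)
    (f := (C.1.1 / q, C.2.1.1 / q, C.2.2.1 / q)) rfl (hE _ hf 1 (by omega)) (hneg n2)
  have f3 := fals_of_eq (τ := τ) (t := 2) (by omega) hq (l := C.2.2)
    (f := (C.1.1 / q, C.2.1.1 / q, C.2.2.1 / q)) rfl (hE _ hf 2 (by omega)) (hneg n3)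
  have := hV _ hf
  rw [Bool.eq_false_iff] at this
  apply this
  simp only [viol, List.any_eq_true, Bool.and_eq_true]
  exact ⟨C, hC, f1, f2, f3⟩

end Pool.Agent.FFT
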