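import Mathlib
import Pool.Agent.FFT.Sys
import Pool.Agent.FFT.Abs

/-!
# MODULE FFT/Sound  (MP_4a4383_lc)

Soundness of the reduction: if fewer than `R` vertices burn, the program has a run.

`Ready r l σ`: at the level `l` every front `f ∈ Fs` has a burning vertex in the state
`front r false f (σ f)`.

All vertices come from `Unf.child` (a child with a given index: state, depth `+ 1`, `≠ s`), `Bd` of a
child is `bd_child` (not in `P`, parent burns), `P` has at most one vertex on every level (`Adm`,
injectivity of `dep`), burning vertices are never heavy (`no_heavy`), two different vertices of the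
same level with burning parents: one of them burns (`one_of_two`), so they are not both heavy.

* `step_choice`.  Let `x_f` be the burning vertices at level `l`.  `x_g` has the children `w0`
  (index `0`, state `front (choice g :: r) true g (false :: σ g)`) and `w1` (index `1`, bit `true`).
  If both burn, each of them has a heavy child (index `1`, `kids2_choice_self`), these are different
  (different parents) on the same level, one of them burns: contradiction.  So exactly one `w_b` is in
  `P` (a child of a burning vertex burns or is in `P`), the other one, with bit `b'`, burns and the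
  child `y_f` (index `0`, `kids1_choice_ne`) of `x_f` burns for every `f ≠ g` (level `l + 1` of `P` is
  `w_b`, and `y_f ≠ w_b`, the parents are different: their states have different fronts).
  At level `l + 2` the heavy child of `w_{b'}` must be in `P`, so the front children (index `0`) of
  `w_{b'}` and of the `y_f` burn.  This is `Ready r (l + 2) (update σ g (b' :: σ g))`.
* `step_check`.  Children at level `l + 1`: `y_f` (index `0`) for all fronts, the alarm `a1` of
  `x_{f1}` (index `1`) and the alarm `a2` of `x_{f2}` (index `1` if `f2 ≠ f1`, index `2` if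
  `f2 = f1`, see `kids1_check`); `a1 ≠ a2`.  If both conditions hold, both are heavy: contradiction.
  If neither `a1` nor `a2` is in `P`, both burn, so both are not heavy, i.e. in state `fuse`
  (`alarm`), their heavy children are on the same level and different, one burns: contradiction.
  So one of them, `a_i`, is in `P`; the other one `a_j ≠ a_i` is on the same level, hence burns, hence
  is a `fuse`; its heavy child must be in `P` at level `l + 2`.  So `P` contains at the levels
  `l + 1`, `l + 2` only `a_i` and the child of `a_j`, and all `y_f` and their children (index `0`,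
  `kids2_check`) burn (`y_f` has index `0`, the alarms have index `1` or `2`; the child of `y_f` has
  another parent than the child of `a_j`).
* `sound`: the root has the children `heavy` (index `0`) and, for `Fs[j] = f`, a front with index
  `j + 1`.  The heavy child is not burning, so it is in `P`, so all the front children burn:
  `Ready p 1 (fun _ => [])`.  Then induction on the program (`ready_run`) with `run_choice`,
  `run_check`, `IsIns` from `WF`.
-/

set_option autoImplicit false

namespace Pool.Agent.FFT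

open Pool.Agent.Hhelper73.Fire

variable {V : Type} [Fintype V] [DecidableEq V] {G : SimpleGraph V} {s : V} {par : V → V}
  {dep : V → ℕ} {Fs : List Fr} {R : ℕ} {ev : Cond → Fr → List Bool → Bool} {y0 : State}
  {st : V → State} {ix : V → ℕ}

/-- every front has a burning vertex at level `l` -/
def Ready (par : V → V) (dep : V → ℕ) (Fs : List Fr) (st : V → State) (P : Finset V)
    (r : List Ins) (l : ℕ) (σ : Fr → List Bool) : Prop :=
  ∀ f ∈ Fs, ∃ v, dep v = l ∧ Bd par dep P v ∧ st v = front r false f (σ f)

omit [Fintype V] in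
private theorem snd_other (hR : Rooted G s par dep) (P : Finset V) (hP : Adm dep P) {w p : V}
    (hw : w ≠ s) (hb : Bd par dep P (par w)) (hp : p ∈ P) (hd : dep p = dep w) (hne : w ≠ p) :
    Bd par dep P w := by
  rw [bd_child hR P hw]
  exact ⟨fun h => hne (hP.1 (Finset.mem_coe.2 h) (Finset.mem_coe.2 hp) hd.symm), hb⟩

private theorem snd_heavy (U : Unf (kids Fs R ev) y0 G s par dep st ix) (P : Finset V)
    (hP : Adm dep P) (hc : (Finset.univ \ sav par dep P).card < R) {w : V} (hw : w ≠ s)
    (hb : Bd par dep P (par w)) (hs : st w = heavy) : w ∈ P := by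
  by_contra h
  exact no_heavy U P hP hc w ((bd_child U.rooted P hw).2 ⟨h, hb⟩) hs

private theorem snd_front_ne_heavy (r : List Ins) (h : Bool) (f : Fr) (t : List Bool) :
    front r h f t ≠ heavy := by
  intro e
  have := congrArg Prod.fst e
  simp [front, heavy] at this

private theorem snd_front_ne_fuse (r : List Ins) (h : Bool) (f : Fr) (t : List Bool) :
    front r h f t ≠ fuse := by
  intro e
  have := congrArg Prod.fst e
  simp [front, fuse] at this

private theorem snd_front_ne_alarm (r : List Ins) (h : Bool) (f : Fr) (t : List Bool) (b : Bool) :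
    front r h f t ≠ alarm b := by
  cases b
  · exact snd_front_ne_fuse r h f t
  · exact snd_front_ne_heavy r h f t

private theorem snd_front_fr {r r' : List Ins} {h h' : Bool} {f f' : Fr} {t t' : List Bool}
    (e : front r h f t = front r' h' f' t') : f = f' := by
  simp only [front, Prod.mk.injEq] at e
  exact e.2.2.1

omit [Fintype V] in
/-- the child of a burning vertex with a given state which is not the protected vertex -/
private theorem snd_adv (U : Unf (kids Fs R ev) y0 G s par dep st ix) (P : Finset V)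
    (hP : Adm dep P) {x p : V} (hx : Bd par dep P x) (hp : p ∈ P) (hd : dep p = dep x + 1)
    (i : ℕ) (y : State) (hy : (kids Fs R ev (st x))[i]? = some y) (hne : par p = x → ix p ≠ i) :
    ∃ v, dep v = dep x + 1 ∧ Bd par dep P v ∧ st v = y := by
  obtain ⟨w, hw, hpw, hiw, hsw, hdw⟩ := U.child x i y hy
  refine ⟨w, hdw, snd_other U.rooted P hP hw (by rw [hpw]; exact hx) hp (by rw [hd, hdw]) ?_, hsw⟩
  intro h
  subst h
  exact hne hpw hiw

theorem step_choice (U : Unf (kids Fs R ev) y0 G s par dep st ix) (P : Finset V)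
    (hP : Adm dep P) (hc : (Finset.univ \ sav par dep P).card < R) (g : Fr) (hg : g ∈ Fs)
    (r : List Ins) (l : ℕ) (σ : Fr → List Bool)
    (h : Ready par dep Fs st P (choice g :: r) l σ) :
    ∃ b : Bool, Ready par dep Fs st P r (l + 2) (Function.update σ g (b :: σ g)) := by
  obtain ⟨x, hxd, hxb, hxs⟩ := h g hg
  -- the two children
  have hch : ∀ b : Bool, ∃ w, w ≠ s ∧ par w = x ∧ ix w = (bif b then 1 else 0) ∧
      st w = front (choice g :: r) true g (b :: σ g) ∧ dep w = dep x + 1 := by
    intro b
    apply U.child x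
    rw [hxs, kids_front_first, kids1_choice_self]
    cases b <;> rfl
  choose w hws hwp hwi hwst hwd using hch
  -- the heavy child of a burning child is protected
  have hhv : ∀ b : Bool, Bd par dep P (w b) → ∃ q, q ∈ P ∧ par q = w b ∧ ix q = 1 ∧
      dep q = dep (w b) + 1 := by
    intro b hb
    obtain ⟨q, hqs, hqp, hqi, hqst, hqd⟩ := U.child (w b) 1 heavy (by
      rw [hwst, kids_front_second, kids2_choice_self]
      rfl)
    exact ⟨q, snd_heavy U P hP hc hqs (by rw [hqp]; exact hb) hqst, hqp, hqi, hqd⟩
  have hwne : w false ≠ w true := by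
    intro e
    have h0 := hwi false
    have h1 := hwi true
    rw [e, h1] at h0
    simp at h0
  have hpar : ∀ b, Bd par dep P (par (w b)) := fun b => by rw [hwp]; exact hxb
  -- one child is protected
  obtain ⟨b, hbP⟩ : ∃ b : Bool, w (!b) ∈ P := by
    by_contra hcon
    push Not at hcon
    have h0 : Bd par dep P (w false) := (bd_child U.rooted P (hws false)).2 ⟨hcon true, hpar _⟩
    have h1 : Bd par dep P (w true) := (bd_child U.rooted P (hws true)).2 ⟨hcon false, hpar _⟩
    obtain ⟨q0, hq0, hq0p, -, hq0d⟩ := hhv false h0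
    obtain ⟨q1, hq1, hq1p, -, hq1d⟩ := hhv true h1
    have e : q0 = q1 := hP.1 (Finset.mem_coe.2 hq0) (Finset.mem_coe.2 hq1) (by
      rw [hq0d, hq1d, hwd, hwd])
    apply hwne
    rw [← hq0p, ← hq1p, e]
  have hbne : w b ≠ w (!b) := by
    cases b
    · exact hwne
    · exact hwne.symm
  have hbb : Bd par dep P (w b) :=
    snd_other U.rooted P hP (hws b) (hpar b) hbP (by rw [hwd, hwd]) hbne
  obtain ⟨q, hqP, hqp, hqi, hqd⟩ := hhv b hbb
  refine ⟨b, fun f hf => ?_⟩
  by_cases hfg : f = g
  · subst hfg
    obtain ⟨v, hv1, hv2, hv3⟩ := snd_adv U P hP hbb hqP hqd 0 (front r false f (b :: σ f))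
      (by rw [hwst, kids_front_second, kids2_choice_self]; rfl) (fun _ => by rw [hqi]; simp)
    refine ⟨v, ?_, hv2, ?_⟩
    · rw [hv1, hwd, hxd]
    · rw [Function.update_self]
      exact hv3
  · obtain ⟨xf, hfd, hfb, hfs⟩ := h f hf
    obtain ⟨y, hy1, hy2, hy3⟩ := snd_adv U P hP hfb hbP (by rw [hwd, hxd, hfd]) 0
      (front (choice g :: r) true f (σ f))
      (by rw [hfs, kids_front_first, kids1_choice_ne ev hfg]; rfl) (fun e => by
        exfalso
        rw [hwp] at e
        rw [e, hfs] at hxs
        exact hfg (snd_front_fr hxs))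
    obtain ⟨v, hv1, hv2, hv3⟩ := snd_adv U P hP hy2 hqP
      (by rw [hqd, hwd, hxd, hy1, hfd]) 0 (front r false f (σ f))
      (by rw [hy3, kids_front_second, kids2_choice_ne hfg]; rfl) (fun _ => by rw [hqi]; simp)
    refine ⟨v, ?_, hv2, ?_⟩
    · rw [hv1, hy1, hfd]
    · rw [Function.update_of_ne hfg]
      exact hv3

theorem step_check (U : Unf (kids Fs R ev) y0 G s par dep st ix) (P : Finset V)
    (hP : Adm dep P) (hc : (Finset.univ \ sav par dep P).card < R) (f1 f2 : Fr) (hf1 : f1 ∈ Fs)
    (hf2 : f2 ∈ Fs) (d1 d2 : Cond) (r : List Ins) (l : ℕ) (σ : Fr → List Bool)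
    (h : Ready par dep Fs st P (check f1 d1 f2 d2 :: r) l σ) :
    ¬ (ev d1 f1 (σ f1) = true ∧ ev d2 f2 (σ f2) = true) ∧
      Ready par dep Fs st P r (l + 2) σ := by
  haveI : Nonempty V := ⟨s⟩
  choose! x hxd hxb hxs using h
  -- the alarms
  obtain ⟨a1, h1s, h1p, h1i, h1st, h1d⟩ := U.child (x f1) 1 (alarm (ev d1 f1 (σ f1))) (by
    rw [hxs f1 hf1, kids_front_first, kids1_check, eqF_self]
    rfl)
  obtain ⟨a2, h2s, h2p, h2i, h2st, h2d⟩ : ∃ w, w ≠ s ∧ par w = x f2 ∧
      (ix w = 2 ∨ (ix w = 1 ∧ f1 ≠ f2)) ∧ st w = alarm (ev d2 f2 (σ f2)) ∧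
      dep w = dep (x f2) + 1 := by
    by_cases hff : f1 = f2
    · subst hff
      obtain ⟨w, k1, k2, k3, k4, k5⟩ := U.child (x f1) 2 (alarm (ev d2 f1 (σ f1))) (by
        rw [hxs f1 hf1, kids_front_first, kids1_check, eqF_self]
        rfl)
      exact ⟨w, k1, k2, Or.inl k3, k4, k5⟩
    · obtain ⟨w, k1, k2, k3, k4, k5⟩ := U.child (x f2) 1 (alarm (ev d2 f2 (σ f2))) (by
        rw [hxs f2 hf2, kids_front_first, kids1_check, eqF_self, eqF_false (Ne.symm hff)]
        rfl)
      exact ⟨w, k1, k2, Or.inr ⟨k3, hff⟩, k4, k5⟩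
  have hne : a1 ≠ a2 := by
    intro e
    rcases h2i with h2i | ⟨-, hff⟩
    · rw [← e, h1i] at h2i
      omega
    · have e1 : x f1 = x f2 := by rw [← h1p, ← h2p, e]
      have e2 := hxs f1 hf1
      rw [e1, hxs f2 hf2] at e2
      exact hff (snd_front_fr e2).symm
  have hd1 : dep a1 = l + 1 := by rw [h1d, hxd f1 hf1]
  have hd2 : dep a2 = l + 1 := by rw [h2d, hxd f2 hf2]
  have hb1 : Bd par dep P (par a1) := by rw [h1p]; exact hxb f1 hf1
  have hb2 : Bd par dep P (par a2) := by rw [h2p]; exact hxb f2 hf2
  -- a burning alarm is off and its child is protected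
  have hoff : ∀ (a : V) (b : Bool), Bd par dep P a → st a = alarm b →
      b = false ∧ ∃ q, q ∈ P ∧ par q = a ∧ dep q = dep a + 1 ∧ st q = heavy := by
    intro a b hab hst
    have hb : b = false := by
      rcases b with _ | _
      · rfl
      · exact absurd hst (no_heavy U P hP hc a hab)
    refine ⟨hb, ?_⟩
    subst hb
    obtain ⟨q, k1, k2, k3, k4, k5⟩ := U.child a 0 heavy (by
      rw [hst, alarm_false, kids_fuse]
      rfl)
    exact ⟨q, snd_heavy U P hP hc k1 (by rw [k2]; exact hab) k4, k2, k5, k4⟩
  -- the general step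
  have hgo : ∀ (a a' : V) (b b' : Bool), a ∈ P → a' ≠ s → a' ≠ a → dep a = l + 1 →
      dep a' = l + 1 → Bd par dep P (par a') → st a = alarm b → st a' = alarm b' →
      b' = false ∧ Ready par dep Fs st P r (l + 2) σ := by
    intro a a' b b' haP has haa hda hda' hba hsta hsta'
    have hba' : Bd par dep P a' := snd_other U.rooted P hP has hba haP (by rw [hda, hda']) haa
    obtain ⟨hb', q, hqP, hqp, hqd, hqst⟩ := hoff a' b' hba' hsta'
    refine ⟨hb', fun f hf => ?_⟩
    obtain ⟨y, k1, k2, k3, k4, k5⟩ := U.child (x f) 0 (front (check f1 d1 f2 d2 :: r) true f (σ f))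
      (by rw [hxs f hf, kids_front_first, kids1_check]; rfl)
    have hyb : Bd par dep P y := by
      refine snd_other U.rooted P hP k1 (by rw [k2]; exact hxb f hf) haP
        (by rw [hda, k5, hxd f hf]) ?_
      intro e
      rw [e, hsta] at k4
      exact snd_front_ne_alarm _ _ _ _ _ k4.symm
    obtain ⟨z, m1, m2, m3, m4, m5⟩ := U.child y 0 (front r false f (σ f))
      (by rw [k4, kids_front_second, kids2_check]; rfl)
    refine ⟨z, ?_, ?_, m4⟩
    · rw [m5, k5, hxd f hf]
    · refine snd_other U.rooted P hP m1 (by rw [m2]; exact hyb) hqP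
        (by rw [hqd, hda', m5, k5, hxd f hf]) ?_
      intro e
      rw [e, hqst] at m4
      exact snd_front_ne_heavy _ _ _ _ m4.symm
  by_cases hp1 : a1 ∈ P
  · obtain ⟨k1, k2⟩ := hgo a1 a2 _ _ hp1 h2s hne.symm hd1 hd2 hb2 h1st h2st
    refine ⟨fun e => ?_, k2⟩
    rw [e.2] at k1
    exact absurd k1 (by simp)
  · by_cases hp2 : a2 ∈ P
    · obtain ⟨k1, k2⟩ := hgo a2 a1 _ _ hp2 h1s hne hd2 hd1 hb1 h2st h1st
      refine ⟨fun e => ?_, k2⟩
      rw [e.1] at k1
      exact absurd k1 (by simp)
    · exfalso
      obtain ⟨-, q1, hq1, hq1p, hq1d, -⟩ :=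
        hoff a1 _ ((bd_child U.rooted P h1s).2 ⟨hp1, hb1⟩) h1st
      obtain ⟨-, q2, hq2, hq2p, hq2d, -⟩ :=
        hoff a2 _ ((bd_child U.rooted P h2s).2 ⟨hp2, hb2⟩) h2st
      have e : q1 = q2 := hP.1 (Finset.mem_coe.2 hq1) (Finset.mem_coe.2 hq2) (by
        rw [hq1d, hq2d, hd1, hd2])
      apply hne
      rw [← hq1p, ← hq2p, e]

theorem ready_run (U : Unf (kids Fs R ev) y0 G s par dep st ix) (P : Finset V)
    (hP : Adm dep P) (hc : (Finset.univ \ sav par dep P).card < R) :
    ∀ (r : List Ins), WF Fs r → ∀ (l : ℕ) (σ : Fr → List Bool),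
      Ready par dep Fs st P r l σ → Run ev r σ := by
  intro r
  induction r with
  | nil => intro _ _ _ _; exact run_nil ev _
  | cons i r ih =>
    intro hwf l σ hr
    have hwf' : WF Fs r := fun j hj => hwf j (List.mem_cons_of_mem _ hj)
    obtain ⟨hi, hi1, hi2⟩ := hwf i List.mem_cons_self
    rcases hi with ⟨g, rfl⟩ | ⟨f1, d1, f2, d2, rfl⟩
    · obtain ⟨b, hb⟩ := step_choice U P hP hc g hi1 r l σ hr
      rw [run_choice]
      exact ⟨b, ih hwf' _ _ hb⟩
    · obtain ⟨h1, h2⟩ := step_check U P hP hc f1 f2 hi1 hi2 d1 d2 r l σ hr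
      rw [run_check]
      exact ⟨h1, ih hwf' _ _ h2⟩

theorem sound (p : List Ins) (hwf : WF Fs p)
    (U : Unf (kids Fs R ev) (root p) G s par dep st ix) (P : Finset V)
    (hP : Adm dep P) (hc : (Finset.univ \ sav par dep P).card < R) :
    Run ev p (fun _ => []) := by
  have hs : Bd par dep P s := bd_root U.rooted P hP
  obtain ⟨w, k1, k2, k3, k4, k5⟩ := U.child s 0 heavy (by rw [U.st_root, kids_root]; rfl)
  have hwP : w ∈ P := snd_heavy U P hP hc k1 (by rw [k2]; exact hs) k4
  refine ready_run U P hP hc p hwf 1 _ ?_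
  intro f hf
  obtain ⟨j, hj⟩ := List.mem_iff_getElem?.1 hf
  obtain ⟨v, m1, m2, m3, m4, m5⟩ := U.child s (j + 1) (front p false f []) (by
    rw [U.st_root, kids_root, List.getElem?_cons_succ, List.getElem?_map, hj]
    rfl)
  refine ⟨v, ?_, ?_, m4⟩
  · rw [m5, U.rooted.dep_root]
  · refine snd_other U.rooted P hP m1 (by rw [m2]; exact hs) hwP (by rw [k5, m5]) ?_
    intro e
    rw [e, k4] at m4
    exact snd_front_ne_heavy _ _ _ _ m4.symm

end Pool.Agent.FFT
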