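import Mathlib
import Pool.Agent.FFT.Sys

/-!
# MODULE FFT/TreeOf  (MP_4a4383_lc)

* `isTree_of_rooted`: a rooted structure gives a tree.
* `matG_graphN`: the adjacency matrix of `graphN L`.
-/

set_option autoImplicit false

namespace Pool.Agent.FFT

open Pool.Agent.Hhelper73.Fire

theorem isTree_of_rooted {V : Type} [Fintype V] {G : SimpleGraph V} {s : V} {par : V → V}
    {dep : V → ℕ} (R : Rooted G s par dep) : G.IsTree := by
  classical
  have hadj : ∀ v, v ≠ s → G.Adj (par v) v := fun v hv => (R.adj_iff _ _).2 (Or.inl ⟨hv, rfl⟩)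
  have hreach : ∀ n, ∀ v, dep v = n → G.Reachable s v := by
    intro n
    induction n with
    | zero =>
      intro v hv
      rw [R.eq_root hv]
    | succ n ih =>
      intro v hv
      have hne : v ≠ s := by
        rintro rfl
        rw [R.dep_root] at hv
        omega
      have h1 := R.dep_par v hne
      exact (ih (par v) (by omega)).trans (hadj v hne).reachable
  have hconn : G.Connected :=
    { preconnected := fun u v => (hreach _ u rfl).symm.trans (hreach _ v rfl)
      nonempty := ⟨s⟩ }
  rw [SimpleGraph.isTree_iff_connected_and_card]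
  refine ⟨hconn, ?_⟩
  let F : {v : V // v ≠ s} → G.edgeSet := fun v => ⟨s(par v.1, v.1), hadj v.1 v.2⟩
  have hF : Function.Bijective F := by
    constructor
    · rintro ⟨v, hv⟩ ⟨w, hw⟩ h
      have h' : s(par v, v) = s(par w, w) := congrArg Subtype.val h
      rw [Sym2.eq_iff] at h'
      rcases h' with ⟨_, h2⟩ | ⟨h1, h2⟩
      · exact Subtype.ext h2
      · have e1 := R.dep_par v hv
        have e2 := R.dep_par w hw
        rw [h1] at e1
        rw [← h2] at e2
        omega
    · rintro ⟨e, he⟩
      induction e using Sym2.ind with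
      | _ x y =>
        have hxy : G.Adj x y := he
        rcases (R.adj_iff x y).1 hxy with ⟨h1, h2⟩ | ⟨h1, h2⟩
        · exact ⟨⟨y, h1⟩, Subtype.ext (by simp [F, h2])⟩
        · exact ⟨⟨x, h1⟩, Subtype.ext (by simp [F, h2, Sym2.eq_swap])⟩
  rw [← Nat.card_eq_of_bijective F hF]
  have : Nat.card {v : V // v ≠ s} = Nat.card V - 1 := by
    rw [Nat.card_eq_fintype_card, Nat.card_eq_fintype_card]
    simp [Fintype.card_subtype_compl]
  rw [this]
  have hpos : 0 < Nat.card V := Nat.card_pos_iff.2 ⟨⟨s⟩, inferInstance⟩
  omega

theorem matG_graphN {X : Type} (L : List (List ℕ × X)) :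
    Pool.Agent.CDom.matG (graphN L) = rowsN L := by
  classical
  unfold Pool.Agent.CDom.matG rowsN
  have key : ∀ {β : Type} (F : List ℕ × X → β), L.map F =
      (List.finRange L.length).map fun i => F (L.get i) := by
    intro β F
    apply List.ext_getElem
    · simp
    · intro i h1 h2
      simp
  rw [key]
  refine List.map_congr_left fun i _ => ?_
  rw [key]
  refine List.map_congr_left fun j _ => ?_
  rcases hb : adjb (L.get i).1 (L.get j).1 with _ | _
  · exact decide_eq_false (fun h : adjb (L.get i).1 (L.get j).1 = true =>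
      Bool.false_ne_true (hb.symm.trans h))
  · exact decide_eq_true (show adjb (L.get i).1 (L.get j).1 = true from hb)

end Pool.Agent.FFT
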