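import Mathlib
import Pool.Agent.FFT.Sys
import Pool.Agent.FFT.Abs
import Pool.Agent.FFT.Sound
import Pool.Agent.FFT.Compl
import Pool.Agent.FFT.FireIff
import Pool.Agent.FFT.TreeOf
import Pool.Agent.FFT.Enum
import Pool.Agent.FFT.Count
import Pool.Agent.FFT.ProgLem
import Pool.Agent.FFT.SatRun

/-!
# FFT/Reduce  (MP_4a4383_lc): the reductions are correct
-/

set_option autoImplicit false

namespace Pool.Agent.FFT

open Pool.Agent.Hhelper73.Fire Pool.Agent.CDom

theorem treeIn_eq (b N : ℕ) (φ : Cnf3) (hb : 1 ≤ b) :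
    treeIn (b, (N, φ), 2 ^ (3 * qOf b N)) = nodes (kidsOf b (qOf b N) φ) (root (prog b (qOf b N)))
      (2 * (prog b (qOf b N)).length + 2) := by
  unfold treeIn treeOf
  refine nodesC_eq _ (fun l => ?_) _
  refine (length_lev_le (pot (Fs b) (kOf b (qOf b N) + 1)) (fun x => ?_) l).trans ?_
  · exact pot_kids _ _ _ x
  · refine (pot_root_le _ _ _ (3 * qOf b N) (cnt_prog b (qOf b N))).trans ?_
    unfold padOf
    exact le_rfl

/-- the tree of the reduction -/
theorem tree_spec (b N : ℕ) (φ : Cnf3) (hb : 1 ≤ b) (hφ : VarsLt N φ) :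
    ∃ (n : ℕ) (G : SimpleGraph (Fin n)) (s : Fin n) (par : Fin n → Fin n) (dep : Fin n → ℕ),
      Rooted G s par dep ∧ G.IsTree ∧ (s : ℕ) = 0 ∧
      n = (treeIn (b, (N, φ), 2 ^ (3 * qOf b N))).length ∧
      matG G = rowsN (treeIn (b, (N, φ), 2 ^ (3 * qOf b N))) ∧
      kOf b (qOf b N) ≤ n ∧
      (Sat φ → ∃ P : Finset (Fin n), Adm dep P ∧ (∀ v ∈ P, dep v ≤ tOf b (qOf b N)) ∧
        (Finset.univ \ sav par dep P).card ≤ kOf b (qOf b N)) ∧
      ((∃ P : Finset (Fin n), Adm dep P ∧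
        (Finset.univ \ sav par dep P).card ≤ kOf b (qOf b N)) → Sat φ) := by
  rw [treeIn_eq b N φ hb]
  obtain ⟨s, par, dep, st, ix, U, hs⟩ := enum (kd := kidsOf b (qOf b N) φ)
    (x0 := root (prog b (qOf b N))) hgt (fun x y hy => hgt_kids _ _ _ x y hy)
    (2 * (prog b (qOf b N)).length + 2) (hgt_root _).le
  have hN := le_mul_qOf b N hb
  refine ⟨_, _, s, par, dep, U.rooted, isTree_of_rooted U.rooted, hs, rfl, matG_graphN _, ?_, ?_,
    ?_⟩
  · -- the root has a heavy child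
    obtain ⟨w, -, -, -, hw, -⟩ := U.child s 0 heavy (by
      rw [U.st_root]
      rfl)
    have := card_of_heavy U w hw
    rw [Fintype.card_fin] at this
    omega
  · intro hsat
    have hrun := run_of_sat b (qOf b N) N φ hN hφ hsat
    obtain ⟨P, hP, hd, hc⟩ := complete (prog b (qOf b N)) (nodup_Fs b) (wf_prog b _) U hrun
    refine ⟨P, hP, fun v hv => ?_, hc.trans le_rfl⟩
    exact hd v hv
  · rintro ⟨P, hP, hc⟩
    refine sat_of_run b (qOf b N) N φ hN hφ ?_
    exact sound (prog b (qOf b N)) (wf_prog b _) U P hP (Nat.lt_succ_of_le hc)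

theorem build2_spec (b N : ℕ) (φ : Cnf3) (hb : 1 ≤ b) (hφ : VarsLt N φ) :
    ∃ (n : ℕ) (G : SimpleGraph (Fin n)) (s : Fin n), G.IsTree ∧
      build2 (b, (N, φ), 2 ^ (3 * qOf b N)) =
        (word3 G s (kOf b (qOf b N)), n, kOf b (qOf b N)) ∧
      kOf b (qOf b N) ≤ n ∧ (SavingAllBut G s (kOf b (qOf b N)) ↔ Sat φ) := by
  obtain ⟨n, G, s, par, dep, R, hT, hs, hn, hm, hk, h1, h2⟩ := tree_spec b N φ hb hφ
  refine ⟨n, G, s, hT, ?_, hk, ?_⟩
  · unfold build2 word3
    rw [hm, hs, ← hn]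
  · rw [allBut_iff R]
    constructor
    · exact h2
    · intro h
      obtain ⟨P, hP, -, hc⟩ := h1 h
      exact ⟨P, hP, hc⟩

theorem build3_spec (b N : ℕ) (φ : Cnf3) (hb : 1 ≤ b) (hφ : VarsLt N φ) :
    ∃ (n : ℕ) (G : SimpleGraph (Fin n)) (s : Fin n), G.IsTree ∧
      build3 (b, (N, φ), 2 ^ (3 * qOf b N)) =
        (word4 G s (tOf b (qOf b N)) (n - kOf b (qOf b N)), n, tOf b (qOf b N)) ∧
      tOf b (qOf b N) ≤ n ∧
      (MaxProt G s (tOf b (qOf b N)) (n - kOf b (qOf b N)) ↔ Sat φ) := by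
  obtain ⟨n, G, s, par, dep, R, hT, hs, hn, hm, hk, h1, h2⟩ := tree_spec b N φ hb hφ
  have hcard : ∀ P : Finset (Fin n), (Finset.univ \ sav par dep P).card =
      n - (sav par dep P).card := by
    intro P
    rw [Finset.card_sdiff_of_subset (Finset.subset_univ _), Finset.card_univ, Fintype.card_fin]
  have hle : ∀ P : Finset (Fin n), (sav par dep P).card ≤ n := by
    intro P
    have := Finset.card_le_univ (sav par dep P)
    rwa [Fintype.card_fin] at this
  refine ⟨n, G, s, hT, ?_, (tOf_le_kOf b _ hb).trans hk, ?_⟩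
  · unfold build3 word4
    rw [hm, hs, ← hn]
  · rw [maxProt_iff R]
    constructor
    · rintro ⟨P, hP, -, hc⟩
      refine h2 ⟨P, hP, ?_⟩
      rw [hcard]
      have := hle P
      omega
    · intro h
      obtain ⟨P, hP, hd, hc⟩ := h1 h
      refine ⟨P, hP, hd, ?_⟩
      rw [hcard] at hc
      have := hle P
      omega

end Pool.Agent.FFT
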