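import Mathlib
import Pool.Agent.FFT.StmtDefs
import Pool.Agent.FFT.Hard
import Pool.Agent.FFT.Reduce
import Pool.Agent.FFT.Alg

/-!
# FFT/Final  (MP_4a4383_lc)
-/

set_option autoImplicit false

namespace Pool.Agent.FFT

open Pool.Agent.CDom

open Classical in
theorem allBut_hard (f : ℕ → ℕ) (hf : LittleO f) (c : ℕ) (T : Turing.FinTM2)
    (i : T.Γ T.k₀ ≃ Bool) (o : T.Γ T.k₁ ≃ Bool)
    (h : ∀ (n : ℕ) (G : SimpleGraph (Fin n)) (s : Fin n) (k : ℕ), G.IsTree → k ≤ n →
      Outputs T i o (word3 G s k) [decide (SavingAllBut G s k)] (2 ^ f k * (n + 1) ^ c)) :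
    ETHFails := by
  refine hard build2 pt_build2 f hf c T i o (fun b N φ hb hφ => ?_) (fun b N φ p hb => ?_)
  · obtain ⟨n, G, s, hG, he, hk, hiff⟩ := build2_spec b N φ hb hφ
    rw [he]
    have h1 := h n G s _ hG hk
    have h2 : decide (SavingAllBut G s (kOf b (qOf b N))) = decide (Sat φ) := by
      rw [decide_eq_decide]; exact hiff
    rw [h2] at h1
    exact h1
  · exact kOf_le b N hb

open Classical in
theorem maxProt_hard (f : ℕ → ℕ) (hf : LittleO f) (c : ℕ) (T : Turing.FinTM2)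
    (i : T.Γ T.k₀ ≃ Bool) (o : T.Γ T.k₁ ≃ Bool)
    (h : ∀ (n : ℕ) (G : SimpleGraph (Fin n)) (s : Fin n) (k K : ℕ), G.IsTree → k ≤ n → K ≤ n →
      Outputs T i o (word4 G s k K) [decide (MaxProt G s k K)] (2 ^ f k * (n + 1) ^ c)) :
    ETHFails := by
  refine hard build3 pt_build3 f hf c T i o (fun b N φ hb hφ => ?_) (fun b N φ p hb => ?_)
  · obtain ⟨n, G, s, hG, he, hk, hiff⟩ := build3_spec b N φ hb hφ
    rw [he]
    have h1 := h n G s _ (n - kOf b (qOf b N)) hG hk (Nat.sub_le _ _)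
    have h2 : decide (MaxProt G s (tOf b (qOf b N)) (n - kOf b (qOf b N))) = decide (Sat φ) := by
      rw [decide_eq_decide]; exact hiff
    rw [h2] at h1
    exact h1
  · exact (tOf_le_kOf b _ hb).trans (kOf_le b N hb)

end Pool.Agent.FFT
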